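import Pool.Agent.MP_6c43ae_an.ct.Spec

/-! Project CANTOR: the Cauchy transform of a function with vanishing moments. -/

set_option autoImplicit false

open MeasureTheory Set Filter Topology Metric
open scoped ComplexConjugate ContDiff Convolution

namespace Pool.Agent.MP_6c43ae_an.Ct

namespace CauX

/-- the Cauchy integral -/
noncomputable def T (G : ℂ → ℂ) (z : ℂ) : ℂ := ∫ x, G x * (x - z)⁻¹

lemma li : LocallyIntegrable (fun u : ℂ => u⁻¹) :=
  locallyIntegrable_of_norm_le_rpow (C := 1) (α := 1)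
    (by rw [Complex.finrank_real_complex]; norm_num)
    (by rw [Complex.finrank_real_complex]; norm_num)
    (Eventually.of_forall fun x => by simp [Real.rpow_neg_one])
    measurable_inv.aestronglyMeasurable

lemma bd {G : ℂ → ℂ} {A : ℝ} (hG : Integrable G) (hA : ∀ x, ‖G x‖ ≤ A) (z : ℂ) :
    Integrable (fun x => G x * (x - z)⁻¹) ∧
      ‖T G z‖ ≤ A * (∫ u, (ball (0 : ℂ) 1).indicator (fun u => ‖u⁻¹‖) u) + ∫ x, ‖G x‖ := by
  have h0 : Integrable ((ball (0 : ℂ) 1).indicator fun u => ‖u⁻¹‖) :=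
    (integrable_indicator_iff measurableSet_ball).2
      (((li.integrableOn_isCompact (isCompact_closedBall 0 1)).mono_set ball_subset_closedBall).norm)
  have h1 := (h0.comp_sub_right z).const_mul A
  have h2 := h1.add hG.norm
  have hA0 : 0 ≤ A := (norm_nonneg _).trans (hA 0)
  have hp : ∀ x, ‖G x * (x - z)⁻¹‖ ≤
      A * (ball (0 : ℂ) 1).indicator (fun u => ‖u⁻¹‖) (x - z) + ‖G x‖ := by
    intro x
    rw [norm_mul]
    by_cases hx : x - z ∈ ball (0 : ℂ) 1
    · rw [indicator_of_mem hx]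
      have := mul_le_mul_of_nonneg_right (hA x) (norm_nonneg (x - z)⁻¹)
      linarith [norm_nonneg (G x)]
    · rw [indicator_of_notMem hx, mul_zero, zero_add]
      rw [mem_ball_zero_iff, not_lt] at hx
      refine mul_le_of_le_one_right (norm_nonneg _) ?_
      rw [norm_inv]
      exact inv_le_one_of_one_le₀ hx
  have hm : AEStronglyMeasurable (fun x => G x * (x - z)⁻¹) volume :=
    hG.1.mul (measurable_id.sub_const z).inv.aestronglyMeasurable
  refine ⟨h2.mono' hm (Eventually.of_forall hp), ?_⟩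
  refine (norm_integral_le_of_norm_le h2 (Eventually.of_forall hp)).trans_eq ?_
  simp only [Pi.add_apply]
  rw [integral_add h1 hG.norm, integral_const_mul,
    integral_sub_right_eq_self ((ball (0 : ℂ) 1).indicator fun u => ‖u⁻¹‖) z]

lemma int_cs {G : ℂ → ℂ} (hG : Continuous G) (hc : HasCompactSupport G) (z : ℂ) :
    Integrable (fun x => G x * (x - z)⁻¹) := by
  obtain ⟨A, hA⟩ := hG.bounded_above_of_compact_support hc
  exact (bd (hG.integrable_of_hasCompactSupport hc) hA z).1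

lemma conv (G : ℂ → ℂ) (z : ℂ) :
    ((fun u : ℂ => u⁻¹) ⋆[ContinuousLinearMap.mul ℝ ℂ, volume] G) z = -T G z := by
  rw [convolution_eq_swap, T, ← integral_neg]
  congr 1
  funext t
  rw [ContinuousLinearMap.mul_apply', ← neg_sub t z, inv_neg]
  ring

lemma T_eq (G : ℂ → ℂ) :
    T G = fun z => -((fun u : ℂ => u⁻¹) ⋆[ContinuousLinearMap.mul ℝ ℂ, volume] G) z := by
  funext z
  rw [conv, neg_neg]

lemma contDiff_T {G : ℂ → ℂ} (hG : ContDiff ℝ 2 G) (hc : HasCompactSupport G) :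
    ContDiff ℝ 2 (T G) := by
  rw [T_eq]
  exact (hc.contDiff_convolution_right (n := 2) _ li hG).neg

lemma fderiv_T {G : ℂ → ℂ} (hG : ContDiff ℝ 1 G) (hc : HasCompactSupport G) (z v : ℂ) :
    fderiv ℝ (T G) z v = T (fun a => fderiv ℝ G a v) z := by
  have h := (hc.hasFDerivAt_convolution_right (ContinuousLinearMap.mul ℝ ℂ) li hG z).neg
  have e : T G = -((fun u : ℂ => u⁻¹) ⋆[ContinuousLinearMap.mul ℝ ℂ, volume] G) := T_eq G
  rw [e, h.fderiv, neg_apply,
    convolution_precompR_apply _ li (hc.fderiv ℝ) (hG.continuous_fderiv one_ne_zero), conv, neg_neg]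

lemma dbar_T {G : ℂ → ℂ} (hG : ContDiff ℝ 1 G) (hc : HasCompactSupport G) (z : ℂ) :
    dbar (T G) z = -Real.pi * G z := by
  have hD := hG.continuous_fderiv one_ne_zero
  have hi : ∀ v, Integrable (fun x => fderiv ℝ G x v * (x - z)⁻¹) := fun v =>
    int_cs (by fun_prop) (hc.fderiv_apply ℝ v) z
  rw [← pompeiu hG hc z, dbar, fderiv_T hG hc, fderiv_T hG hc, T, T, ← integral_const_mul,
    ← integral_add (hi 1) ((hi Complex.I).const_mul _), ← integral_div]
  congr 1
  funext x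
  rw [dbar]
  ring

lemma hol_T {G : ℂ → ℂ} {A R : ℝ} (hG : Integrable G) (hA : ∀ x, ‖G x‖ ≤ A) (hR : 0 < R)
    (h0 : ∀ x, ‖x‖ < 2 * R → G x = 0) : DifferentiableOn ℂ (T G) (ball 0 R) := by
  intro z hz
  have key : ∀ x, G x ≠ 0 → ∀ y ∈ ball (0 : ℂ) R, R ≤ ‖x - y‖ := by
    intro x hx y hy
    have h1 : 2 * R ≤ ‖x‖ := not_lt.1 fun h => hx (h0 x h)
    have h2 := mem_ball_zero_iff.1 hy
    linarith [norm_sub_norm_le x y]
  refine (hasDerivAt_integral_of_dominated_loc_of_deriv_le (μ := volume)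
    (F := fun y x => G x * (x - y)⁻¹) (F' := fun y x => G x * ((x - y) ^ 2)⁻¹)
    (bound := fun x => ‖G x‖ * (R ^ 2)⁻¹) (isOpen_ball.mem_nhds hz)
    (Eventually.of_forall fun y => (bd hG hA y).1.1) (bd hG hA z).1
    (hG.1.mul ((measurable_id.sub_const z).pow_const 2).inv.aestronglyMeasurable)
    (Eventually.of_forall fun x y hy => ?_) (hG.norm.mul_const _)
    (Eventually.of_forall fun x y hy => ?_)).2.differentiableAt.differentiableWithinAt
  · by_cases hx : G x = 0
    · simp [hx]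
    · have := key x hx y hy
      rw [norm_mul, norm_inv, norm_pow]
      gcongr
  · by_cases hx : G x = 0
    · simp only [hx, zero_mul]
      exact hasDerivAt_const _ _
    · have h1 : x - y ≠ 0 := norm_pos_iff.1 (hR.trans_le (key x hx y hy))
      have h2 := (((hasDerivAt_id y).const_sub x).inv h1).const_mul (G x)
      refine h2.congr_deriv ?_
      simp

lemma local_T {F : ℂ → ℂ} {A : ℝ} (hF : ContDiff ℝ 2 F) (hI : Integrable F)
    (hA : ∀ x, ‖F x‖ ≤ A) (z : ℂ) :
    ContDiffAt ℝ 2 (T F) z ∧ dbar (T F) z = -Real.pi * F z := by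
  have hR : 0 < ‖z‖ + 1 := by positivity
  obtain ⟨_, -, hχ⟩ := exists_chi
  obtain ⟨χ, c1, c2, c3, c4, -, -⟩ := hχ _ hR
  have c5 : ContDiff ℝ 2 χ := contDiff_infty.1 c1 2
  have g1 : ContDiff ℝ 2 (fun x => χ x * F x) := c5.mul hF
  have g2 : HasCompactSupport (fun x => χ x * F x) :=
    hcs_of_ball (R := 3 * (‖z‖ + 1)) fun x hx => by rw [c3 x hx, zero_mul]
  have g3 : Integrable (fun x => F x - χ x * F x) :=
    hI.sub (g1.continuous.integrable_of_hasCompactSupport g2)
  have g4 : ∀ x, ‖F x - χ x * F x‖ ≤ A + A := fun x => by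
    refine (norm_sub_le _ _).trans (add_le_add (hA x) ?_)
    rw [norm_mul]
    exact (mul_le_of_le_one_left (norm_nonneg _) (c4 x)).trans (hA x)
  have g5 := hol_T g3 g4 hR fun x hx => by rw [c2 x hx, one_mul, sub_self]
  have hz : ball (0 : ℂ) (‖z‖ + 1) ∈ 𝓝 z :=
    isOpen_ball.mem_nhds (mem_ball_zero_iff.2 (lt_add_one _))
  have g6 : AnalyticAt ℂ (T fun x => F x - χ x * F x) z := g5.analyticAt hz
  have g7 : ContDiffAt ℝ 2 (T fun x => F x - χ x * F x) z :=
    (g6.contDiffAt (n := 2)).restrict_scalars ℝ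
  have e : T F = fun y => T (fun x => χ x * F x) y + T (fun x => F x - χ x * F x) y := by
    funext y
    rw [T, T, T, ← integral_add (int_cs g1.continuous g2 y) (bd g3 g4 y).1]
    congr 1
    funext x
    ring
  have g8 := contDiff_T g1 g2
  rw [e]
  refine ⟨g8.contDiffAt.add g7, ?_⟩
  rw [dbar_add (g8.differentiable two_ne_zero z) (g7.differentiableAt two_ne_zero),
    dbar_hol g6.differentiableAt, dbar_T (g1.of_le one_le_two) g2, c2 z (by linarith), one_mul,
    add_zero]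

lemma mom {F : ℂ → ℂ} {m : ℕ} {C : ℝ} (hF : Continuous F)
    (hC : ∀ x, ‖F x‖ * (1 + ‖x‖) ^ (m + 3) ≤ C) {j : ℕ} (hj : j ≤ m) :
    Integrable (fun x => F x * x ^ j) ∧ ∀ x, ‖F x * x ^ j‖ ≤ C := by
  have h1 : ∀ x, ‖F x * x ^ j‖ * (1 + ‖x‖) ^ 3 ≤ C := by
    intro x
    refine le_trans ?_ (hC x)
    have h2 : ‖x‖ ^ j ≤ (1 + ‖x‖) ^ m :=
      (pow_le_pow_left₀ (norm_nonneg _) (by linarith) j).trans
        (pow_le_pow_right₀ (by linarith [norm_nonneg x]) hj)
    rw [norm_mul, norm_pow, pow_add, ← mul_assoc]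
    gcongr
  have hi : Integrable (fun x : ℂ => (1 + ‖x‖) ^ (-(3 : ℝ))) :=
    integrable_one_add_norm (by rw [Complex.finrank_real_complex]; norm_num)
  refine ⟨(hi.const_mul C).mono' (Continuous.aestronglyMeasurable (by fun_prop))
    (Eventually.of_forall fun x => ?_), fun x => le_trans ?_ (h1 x)⟩
  · have h2 : 0 < 1 + ‖x‖ := by positivity
    rw [Real.rpow_neg h2.le, ← div_eq_mul_inv, le_div_iff₀ (by positivity),
      show (3 : ℝ) = (3 : ℕ) by norm_num, Real.rpow_natCast]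
    exact h1 x
  · exact le_mul_of_one_le_right (norm_nonneg _) (one_le_pow₀ (by linarith [norm_nonneg x]))

lemma T_pow {F : ℂ → ℂ} {m : ℕ} {C : ℝ} (hF : Continuous F)
    (hC : ∀ x, ‖F x‖ * (1 + ‖x‖) ^ (m + 3) ≤ C) (h0 : ∀ j < m, ∫ x, F x * x ^ j = 0) (z : ℂ)
    (j : ℕ) : j ≤ m → T (fun x => F x * x ^ j) z = z ^ j * T F z := by
  induction j with
  | zero => intro _; simp
  | succ j ih =>
    intro hj
    obtain ⟨a1, a2⟩ := mom hF hC (show j ≤ m by omega)
    have e : T (fun x => F x * x ^ (j + 1)) z =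
        (∫ x, F x * x ^ j) + z * T (fun x => F x * x ^ j) z := by
      rw [T, T, ← integral_const_mul, ← integral_add a1 ((bd a1 a2 z).1.const_mul z)]
      refine integral_congr_ae ?_
      have : ∀ᵐ x : ℂ, x ≠ z := by
        rw [ae_iff]
        simp
      filter_upwards [this] with x hx
      have := sub_ne_zero.2 hx
      field_simp
      ring
    rw [e, h0 j (by omega), ih (by omega)]
    ring

end CauX

open CauX in
theorem ct : CT := by
  intro F m C hF hC h0
  obtain ⟨a1, a2⟩ := mom hF.continuous hC (Nat.zero_le m)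
  simp only [pow_zero, mul_one] at a1 a2
  obtain ⟨b1, b2⟩ := mom hF.continuous hC le_rfl
  have hp : (Real.pi : ℂ) ≠ 0 := by exact_mod_cast Real.pi_ne_zero
  refine ⟨fun z => -(Real.pi : ℂ)⁻¹ * T F z,
    contDiff_const.mul (contDiff_iff_contDiffAt.2 fun z => (local_T hF a1 a2 z).1), fun z => ?_,
    ‖-(Real.pi : ℂ)⁻¹‖ * (C * (∫ u, (ball (0 : ℂ) 1).indicator (fun u => ‖u⁻¹‖) u) +
      ∫ x, ‖F x * x ^ m‖), fun z => ?_⟩
  · rw [dbar_const_mul _ ((local_T hF a1 a2 z).1.differentiableAt two_ne_zero),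
      (local_T hF a1 a2 z).2]
    field_simp
  · have h1 := (bd b1 b2 z).2
    rw [T_pow hF.continuous hC h0 z m le_rfl, norm_mul, norm_pow] at h1
    rw [norm_mul, mul_assoc, mul_comm ‖T F z‖]
    exact mul_le_mul_of_nonneg_left h1 (norm_nonneg _)

end Pool.Agent.MP_6c43ae_an.Ct
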