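import Pool.Agent.MP_6c43ae_an.ct.Spec

/-! Project CANTOR: complexification of real analytic functions, and analyticity of holomorphic
functions of two variables. -/

set_option autoImplicit false

open Set Filter Topology Metric
open scoped ComplexConjugate ContDiff Nat NNReal ENNReal

namespace Pool.Agent.MP_6c43ae_an.Ct

namespace CxX

/-- the real basis of the complex numbers -/
def bas (β : Bool) : ℂ := if β then Complex.I else 1

/-- the complexified real coordinates -/
noncomputable def co (y : ℂ) (β : Bool) (q : C2) : ℂ :=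
  if β then ((q.1 - y) - (q.2 - conj y)) / (2 * Complex.I) else ((q.1 - y) + (q.2 - conj y)) / 2

lemma norm_bas (β : Bool) : ‖bas β‖ = 1 := by
  cases β <;> simp [bas]

lemma co_diff (y : ℂ) (β : Bool) : Differentiable ℂ (co y β) := by
  cases β
  · have : co y false = fun q : C2 => ((q.1 - y) + (q.2 - conj y)) / 2 := rfl
    rw [this]
    fun_prop
  · have : co y true = fun q : C2 => ((q.1 - y) - (q.2 - conj y)) / (2 * Complex.I) := rfl
    rw [this]
    fun_prop

lemma norm_co {y : ℂ} {r : ℝ} {q : C2} (hq : q ∈ ball (y, conj y) r) (β : Bool) :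
    ‖co y β q‖ ≤ r := by
  obtain ⟨ha, hb⟩ := mem_ball_prod.1 (show (q.1, q.2) ∈ _ from hq)
  rw [mem_ball, dist_eq_norm] at ha hb
  dsimp only at ha hb
  cases β
  · have h := norm_add_le (q.1 - y) (q.2 - conj y)
    have : co y false q = ((q.1 - y) + (q.2 - conj y)) / 2 := rfl
    rw [this, norm_div, Complex.norm_two]
    linarith
  · have h := norm_sub_le (q.1 - y) (q.2 - conj y)
    have : co y true q = ((q.1 - y) - (q.2 - conj y)) / (2 * Complex.I) := rfl
    rw [this, norm_div, norm_mul, Complex.norm_I, Complex.norm_two, mul_one]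
    linarith

/-- the real coordinates -/
def cr (a : ℂ) (β : Bool) : ℝ := if β then a.im else a.re

lemma co_diag (y x : ℂ) (β : Bool) : co y β (x, conj x) = (cr (x - y) β : ℂ) := by
  cases β
  · have : co y false (x, conj x) = ((x - y) + (conj x - conj y)) / 2 := rfl
    rw [this, ← map_sub, Complex.add_conj]
    simp [cr]
  · have : co y true (x, conj x) = ((x - y) - (conj x - conj y)) / (2 * Complex.I) := rfl
    rw [this, ← map_sub, Complex.sub_conj, div_eq_iff (by simp)]
    simp only [cr, if_true]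
    push_cast
    ring

lemma sum_cr (a : ℂ) : ∑ β : Bool, cr a β • bas β = a := by
  rw [Fintype.sum_bool]
  simp only [cr, bas, if_true, Bool.false_eq_true, if_false, Complex.real_smul, mul_one]
  rw [add_comm]
  exact Complex.re_add_im a

/-- the complexified homogeneous term -/
noncomputable def term (p : FormalMultilinearSeries ℝ ℂ ℝ) (y : ℂ) (n : ℕ) (q : C2) : ℂ :=
  ∑ g : Fin n → Bool, (∏ j, co y (g j) q) * (p n (fun j => bas (g j)) : ℝ)

lemma term_diff (p : FormalMultilinearSeries ℝ ℂ ℝ) (y : ℂ) (n : ℕ) :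
    Differentiable ℂ (term p y n) := by
  unfold term
  refine Differentiable.fun_sum fun g _ => Differentiable.mul_const ?_ _
  exact fun q => (HasFDerivAt.finsetProd (u := Finset.univ) (g := fun j => co y (g j))
    fun j _ => (co_diff y (g j) q).hasFDerivAt).differentiableAt

lemma norm_term (p : FormalMultilinearSeries ℝ ℂ ℝ) {y : ℂ} {r : ℝ} (n : ℕ) {q : C2}
    (hq : q ∈ ball (y, conj y) r) : ‖term p y n q‖ ≤ ‖p n‖ * (2 * r) ^ n := by
  have hr : 0 ≤ r := (norm_nonneg _).trans (norm_co hq true)
  unfold term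
  refine (norm_sum_le _ _).trans
    ((Finset.sum_le_sum (g := fun _ => r ^ n * ‖p n‖) fun g _ => ?_).trans_eq ?_)
  · rw [norm_mul, norm_prod, Complex.norm_real]
    refine mul_le_mul ?_ ?_ (norm_nonneg _) (by positivity)
    · refine (Finset.prod_le_prod (g := fun _ => r) (fun j _ => norm_nonneg _)
        fun j _ => norm_co hq _).trans_eq ?_
      simp
    · simpa [norm_bas] using (p n).le_opNorm fun j => bas (g j)
  · simp only [Finset.sum_const, Finset.card_univ, Fintype.card_fun, Fintype.card_bool,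
      Fintype.card_fin, nsmul_eq_mul]
    push_cast
    ring

lemma term_diag (p : FormalMultilinearSeries ℝ ℂ ℝ) (y x : ℂ) (n : ℕ) :
    term p y n (x, conj x) = (p n (fun _ => x - y) : ℝ) := by
  have h : (p n fun _ => x - y) = p n fun _ => ∑ β : Bool, cr (x - y) β • bas β := by
    rw [sum_cr]
  rw [h, ContinuousMultilinearMap.map_sum (p n) (fun _ β => cr (x - y) β • bas β)]
  unfold term
  push_cast
  refine Finset.sum_congr rfl fun g _ => ?_
  rw [ContinuousMultilinearMap.map_smul_univ, smul_eq_mul]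
  push_cast
  simp only [co_diag]

lemma iter_diff {V : Set C2} (hV : IsOpen V) {f : C2 → ℂ} (hf : DifferentiableOn ℂ f V) (n : ℕ)
    {z : C2} (hz : z ∈ V) : DifferentiableAt ℂ (iteratedFDeriv ℂ n f) z :=
  ((hol_contDiffOn hV hf).contDiffAt (hV.mem_nhds hz)).differentiableAt_iteratedFDeriv
    (by exact_mod_cast ENat.natCast_lt_top n)

lemma iter_bound {f : C2 → ℂ} {y : C2} {R M δ : ℝ} (hδ : 0 < δ)
    (hf : DifferentiableOn ℂ f (ball y R)) (hM : ∀ z ∈ ball y R, ‖f z‖ ≤ M) (n : ℕ) :
    ∀ z : C2, dist z y + n * δ < R → ‖iteratedFDeriv ℂ n f z‖ ≤ M * (2 / δ) ^ n := by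
  induction n with
  | zero =>
    intro z hz
    rw [norm_iteratedFDeriv_zero]
    simpa using hM z (by simpa using hz)
  | succ n ih =>
    intro z hz
    have hn : (0 : ℝ) ≤ n * δ := by positivity
    have hw : ∀ w ∈ ball z δ, dist w y + n * δ < R := fun w hw => by
      have h1 := dist_triangle w z y
      have h2 := mem_ball.1 hw
      push_cast at hz
      linarith
    rw [← norm_fderiv_iteratedFDeriv]
    refine (Complex.norm_fderiv_le_div_of_mapsTo_ball (R₁ := δ) (R₂ := 2 * (M * (2 / δ) ^ n))
      (fun w h => (iter_diff isOpen_ball hf n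
        (mem_ball.2 (by linarith [hw w h]))).differentiableWithinAt) (fun w h => ?_) hδ).trans_eq ?_
    · rw [mem_closedBall, dist_eq_norm]
      have h1 := norm_sub_le (iteratedFDeriv ℂ n f w) (iteratedFDeriv ℂ n f z)
      linarith [ih w (hw w h), ih z (hw z (mem_ball_self hδ))]
    · rw [pow_succ]
      ring

lemma iter_line {V : Set C2} (hV : IsOpen V) {f : C2 → ℂ} (hf : DifferentiableOn ℂ f V)
    (y v : C2) (n : ℕ) : ∀ t : ℂ, y + t • v ∈ V →
      iteratedDeriv n (fun s : ℂ => f (y + s • v)) t =
        iteratedFDeriv ℂ n f (y + t • v) fun _ => v := by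
  induction n with
  | zero => intro t _; simp
  | succ n ih =>
    intro t ht
    have hc : Continuous fun s : ℂ => y + s • v := by fun_prop
    have he : iteratedDeriv n (fun s : ℂ => f (y + s • v)) =ᶠ[𝓝 t]
        fun s => iteratedFDeriv ℂ n f (y + s • v) fun _ => v := by
      filter_upwards [(hV.preimage hc).mem_nhds ht] with s hs using ih s hs
    have h1 : HasDerivAt (fun s : ℂ => y + s • v) v t := by
      simpa using ((hasDerivAt_id t).smul_const v).const_add y
    have h2 := (iter_diff hV hf n ht).hasFDerivAt.comp_hasDerivAt t h1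
    have h3 := (ContinuousMultilinearMap.apply ℂ (fun _ : Fin n => C2) ℂ
      fun _ => v).hasFDerivAt.comp_hasDerivAt t h2
    rw [iteratedDeriv_succ, he.deriv_eq, iteratedFDeriv_succ_apply_left]
    exact h3.deriv

end CxX

open CxX

theorem cx : CX := by
  rintro f y ⟨p, R, hp⟩
  obtain ⟨ρ, hρ0, hρ⟩ := ENNReal.lt_iff_exists_nnreal_btwn.1 hp.r_pos
  have hρ0' : (0 : ℝ) < ρ := by exact_mod_cast hρ0
  have hs := p.summable_norm_mul_pow (hρ.trans_le hp.r_le)
  refine ⟨ρ / 2, by positivity, fun q => ∑' n, term p y n q,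
    hol_tsum isOpen_ball hs (fun n => (term_diff p y n).differentiableOn) fun n q hq => ?_,
    fun x hx => ?_⟩
  · have := norm_term p n hq
    rwa [mul_div_cancel₀ _ two_ne_zero] at this
  · have hx' : x - y ∈ Metric.eball (0 : ℂ) R := by
      refine Metric.eball_subset_eball hρ.le ?_
      rw [Metric.eball_coe, mem_ball_zero_iff, ← dist_eq_norm]
      linarith [mem_ball.1 hx]
    have h1 := hp.hasSum hx'
    rw [add_sub_cancel] at h1
    simp only [term_diag]
    exact (Complex.hasSum_ofReal.2 h1).tsum_eq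

theorem an : AN := by
  intro V f hV hf y hy
  obtain ⟨R, M, hR, hs, hM⟩ := bdd_ball hV hf.continuousOn hy
  have hM0 : 0 ≤ M := (norm_nonneg _).trans (hM y (mem_ball_self hR))
  have hfb := hf.mono hs
  have he : 1 ≤ Real.exp 1 := Real.one_le_exp zero_le_one
  let r : ℝ≥0 := ⟨R / (4 * Real.exp 1), by positivity⟩
  have hr : (r : ℝ) = R / (4 * Real.exp 1) := rfl
  have hr0 : (0 : ℝ) < r := by rw [hr]; positivity
  refine ⟨fun n => (n ! : ℂ)⁻¹ • iteratedFDeriv ℂ n f y, r,
    FormalMultilinearSeries.le_radius_of_bound _ M fun n => ?_, by exact_mod_cast hr0,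
    fun {v} hv => ?_⟩
  · rcases Nat.eq_zero_or_pos n with rfl | hn
    · simpa using hM y (mem_ball_self hR)
    have hn' : (0 : ℝ) < n := by exact_mod_cast hn
    have h1 := iter_bound (δ := R / (2 * n)) (by positivity) hfb hM n y (by
      have : (n : ℝ) * (R / (2 * n)) = R / 2 := by field_simp
      rw [dist_self, zero_add, this]
      linarith)
    have h2 : (n : ℝ) ^ n / n ! ≤ Real.exp 1 ^ n := by
      rw [← Real.exp_nat_mul, mul_one]
      exact Real.pow_div_factorial_le_exp _ hn'.le n
    have h3 : 2 / (R / (2 * n)) * (R / (4 * Real.exp 1)) = n / Real.exp 1 := by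
      field_simp
      ring
    rw [norm_smul, norm_inv, Complex.norm_natCast, hr]
    calc (n ! : ℝ)⁻¹ * ‖iteratedFDeriv ℂ n f y‖ * (R / (4 * Real.exp 1)) ^ n
        ≤ (n ! : ℝ)⁻¹ * (M * (2 / (R / (2 * n))) ^ n) * (R / (4 * Real.exp 1)) ^ n := by gcongr
      _ = M * (((n : ℝ) ^ n / n !) / Real.exp 1 ^ n) := by
          rw [mul_assoc, mul_assoc, ← mul_pow, h3, div_pow]
          ring
      _ ≤ M * 1 := mul_le_mul_of_nonneg_left ((div_le_one (by positivity)).2 h2) hM0
      _ = M := mul_one M
  · rw [Metric.eball_coe, mem_ball_zero_iff, hr] at hv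
    have hv' : ‖v‖ < R / 4 :=
      hv.trans_le (div_le_div_of_nonneg_left hR.le (by norm_num) (by linarith))
    have hm : ∀ t ∈ ball (0 : ℂ) 2, y + t • v ∈ ball y R := fun t ht => by
      rw [mem_ball_zero_iff] at ht
      rw [add_mem_ball_iff_norm, norm_smul]
      nlinarith [norm_nonneg t, norm_nonneg v]
    have hg : DifferentiableOn ℂ (fun s : ℂ => f (y + s • v)) (ball 0 2) :=
      hfb.comp (by fun_prop) hm
    have h1 := Complex.hasSum_taylorSeries_on_ball hg (z := 1) (by simp)
    simp only [sub_zero, one_pow, one_smul] at h1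
    have h2 : ∀ n : ℕ, iteratedDeriv n (fun s : ℂ => f (y + s • v)) 0 =
        iteratedFDeriv ℂ n f y fun _ => v := fun n => by
      simpa using iter_line hV hf y v n 0 (by simpa using hy)
    simp only [h2] at h1
    exact h1

end Pool.Agent.MP_6c43ae_an.Ct
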