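import Pool.Agent.MP_6c43ae_an.ct.Spec

/-! Assembly of the two theorems from the list of statements. -/

set_option autoImplicit false

open MeasureTheory Set Filter Topology Metric
open scoped ComplexConjugate ContDiff

namespace Pool.Agent.MP_6c43ae_an.Ct

lemma bergmanNorm_symm (h : Bool → S2 → ℝ) (k N : ℕ) (s : Fin N → Bool → S2 → ℂ) (x y : S2) :
    bergmanNorm LL h k N s x y = bergmanNorm LL h k N s y x := by
  unfold bergmanNorm
  rw [← Complex.norm_conj, map_sum, mul_right_comm]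
  simp only [map_mul, Complex.conj_conj, mul_comm]

lemma Dec.mono {h : Bool → S2 → ℝ} {μ : Measure S2} {T T' : Set (S2 × S2)} (hT : T ⊆ T')
    (H : Dec h μ T') : Dec h μ T := by
  obtain ⟨c₁, c₂, h1, h2, H⟩ := H
  exact ⟨c₁, c₂, h1, h2, fun k hk N s hs p hp => H k hk N s hs p (hT hp)⟩

lemma Dec.union {h : Bool → S2 → ℝ} {μ : Measure S2} {T T' : Set (S2 × S2)} (H : Dec h μ T)
    (H' : Dec h μ T') : Dec h μ (T ∪ T') := by
  obtain ⟨c₁, c₂, h1, h2, H⟩ := H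
  obtain ⟨d₁, d₂, g1, g2, H'⟩ := H'
  have key : ∀ (a b : ℝ) (k : ℕ), 0 < a → a ≤ max c₁ d₁ → min c₂ d₂ ≤ b →
      a * Real.exp (-b * k) ≤ max c₁ d₁ * Real.exp (-(min c₂ d₂) * k) := fun a b k ha h3 h4 =>
    mul_le_mul h3 (Real.exp_le_exp.2 (mul_le_mul_of_nonneg_right (by linarith) (Nat.cast_nonneg k)))
      (Real.exp_pos _).le (ha.le.trans h3)
  refine ⟨max c₁ d₁, min c₂ d₂, lt_max_of_lt_left h1, lt_min h2 g2, fun k hk N s hs p hp => ?_⟩
  rcases hp with hp | hp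
  · exact (H k hk N s hs p hp).trans (key _ _ k h1 (le_max_left _ _) (min_le_left _ _))
  · exact (H' k hk N s hs p hp).trans (key _ _ k g1 (le_max_right _ _) (min_le_right _ _))

theorem dec_of_sep (h1 : SD) (h2 : SP) (h3 : MN) {h : Bool → S2 → ℝ} {μ : Measure S2}
    (hh : IsPositiveMetric LL h) (hμ : IsSmoothVolume μ) {Z : Set S2} (hZ : IsClosed Z)
    (han : ∀ y : ℂ, (y : S2) ∉ Z →
      IsAnalyticMetricAt LL h (y : S2) ∧ IsAnalyticVolumeAt μ (y : S2))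
    {K : Set (S2 × S2)} (hK : IsCompact K)
    (hsep : ∀ p ∈ K, p.1 ≠ p.2 ∧ ∀ C ⊆ Z, IsPreconnected C → p.1 ∈ C → p.2 ∉ C) : Dec h μ K := by
  obtain ⟨φ, ρ, H, a1, a2⟩ := h1 h μ hh hμ
  have han' : ∀ y : ℂ, (y : S2) ∉ Z → AnalyticAt ℝ φ y ∧ AnalyticAt ℝ ρ y :=
    fun y hy => ⟨a1 y (han y hy).1, a2 y (han y hy).2⟩
  refine hK.induction_on (p := Dec h μ) ⟨1, 1, one_pos, one_pos, fun _ _ _ _ _ p hp => hp.elim⟩
    (fun T T' hT H => H.mono hT) (fun T T' H H' => H.union H') ?_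
  rintro ⟨z, w⟩ hp
  rcases h2 Z z w hZ (hsep _ hp).1 (hsep _ hp).2 with hc | hc
  · obtain ⟨U, hU, V, hV, hd⟩ := h3 h μ φ ρ H Z z w han' hc
    exact ⟨U ×ˢ V, mem_nhdsWithin_of_mem_nhds (prod_mem_nhds hU hV), hd⟩
  · obtain ⟨V, hV, U, hU, c₁, c₂, b1, b2, hd⟩ := h3 h μ φ ρ H Z w z han' hc
    refine ⟨U ×ˢ V, mem_nhdsWithin_of_mem_nhds (prod_mem_nhds hU hV), c₁, c₂, b1, b2,
      fun k hk N s hs p hp => ?_⟩
    rw [bergmanNorm_symm]
    exact hd k hk N s hs (p.2, p.1) ⟨hp.2, hp.1⟩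

lemma isAnalyticVolumeAt_mu (y : ℂ) : IsAnalyticVolumeAt mu (y : S2) := by
  refine ⟨rho, ?_, univ, univ_mem, fun A hA _ _ => ?_⟩
  · have h1 : AnalyticAt ℝ (fun z : ℂ => 1 + ‖z‖ ^ 2) y :=
      analyticAt_const.add ((contDiff_norm_sq ℝ (n := ⊤)).contDiffAt.analyticAt)
    exact analyticAt_const.div (h1.pow 2) (by positivity)
  · unfold mu
    have : (fun z : ℂ => (z : S2)) ⁻¹' ((chartAt ℂ (y : S2)).symm '' A) = A :=
      preimage_image_eq A OnePoint.coe_injective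
    rw [measurableEmbedding_coe.map_apply, this, withDensity_apply _ hA]

lemma i1_injective : Function.Injective i1 := fun a b h => by
  rw [← c1_i1 a, h, c1_i1]

lemma td_preimage {X Y : Type} [TopologicalSpace X] [TopologicalSpace Y] {f : X → Y}
    (hf : Continuous f) (hi : Function.Injective f) {Z : Set Y} (hZ : IsTotallyDisconnected Z) :
    IsTotallyDisconnected (f ⁻¹' Z) := fun t ht hc =>
  subsingleton_of_image hi t (hZ (f '' t) (image_subset_iff.2 ht) (hc.image f hf.continuousOn))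

lemma gt_inv (w : ℝ) (α β : ℂ) {x : ℂ} (hx : x ≠ 0) : gt w β α x⁻¹ = gt w α β x := by
  have hn : ‖x‖ ≠ 0 := norm_ne_zero_iff.2 hx
  have e : α * x⁻¹ - β = -(β * x - α) * x⁻¹ := by field_simp; ring
  unfold gt
  rw [e, norm_mul, norm_neg, norm_inv]
  congr 2
  by_cases h : ‖β * x - α‖ = 0
  · simp [h]
  · field_simp
    ring

theorem exists_metric (h1 : FL) (h2 : NA) (h3 : GR) (h4 : MT) {Z : Set S2} (hZ : IsClosed Z)
    (hd : IsTotallyDisconnected Z) :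
    ∃ h : Bool → S2 → ℝ, IsPositiveMetric LL h ∧ ∀ x, IsAnalyticMetricAt LL h x ↔ x ∉ Z := by
  obtain ⟨ι, w, α, β, F0, F1⟩ := h3 Z
  have key : ∀ (α β : ι → ℂ) (S : Set ℂ), IsClosed S → IsTotallyDisconnected S → Fam w α β S →
      ContDiff ℝ ∞ (fl w α β S) ∧ ∀ x, AnalyticAt ℝ (fl w α β S) x ↔ x ∉ S := by
    intro α β S hS hS' F
    obtain ⟨a, b, c⟩ := h1 ι w α β S hS F
    refine ⟨a, fun x => ⟨fun hx hxS => ?_, b x⟩⟩
    obtain ⟨c, hc, hc'⟩ := c x hxS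
    refine h2 _ S x c hS' (fun y hy => ?_) hc hc' hx
    rw [fl, indicator_of_mem (show y ∈ Sᶜ from hy)]
    exact (Real.exp_pos _).ne'
  obtain ⟨a0, b0⟩ := key α β _ (hZ.preimage OnePoint.continuous_coe)
    (td_preimage OnePoint.continuous_coe OnePoint.coe_injective hd) F0
  obtain ⟨a1, b1⟩ := key β α _ (hZ.preimage continuous_i1)
    (td_preimage continuous_i1 i1_injective hd) F1
  obtain ⟨h, hh, c0, c1⟩ := h4 _ _ a0 a1 fun x hx => by
    have e : i1 x⁻¹ = (x : S2) := by rw [i1_of_ne (inv_ne_zero hx), inv_inv]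
    by_cases hxZ : (x : S2) ∈ Z
    · rw [fl, fl, indicator_of_notMem, indicator_of_notMem]
      · exact fun h => h hxZ
      · exact fun h => h (by rw [mem_preimage, e]; exact hxZ)
    · rw [fl, fl, indicator_of_mem, indicator_of_mem]
      · simp only [gt_inv _ _ _ hx]
      · exact hxZ
      · exact fun h => hxZ (by rwa [mem_preimage, e] at h)
  refine ⟨h, hh, fun x => ?_⟩
  induction x using OnePoint.rec with
  | infty => rw [c1, b1, mem_preimage, i1_zero]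
  | coe z => rw [c0, b0, mem_preimage]

theorem dec_of_td (h1 : SD) (h2 : SP) (h3 : MN) {h : Bool → S2 → ℝ} {μ : Measure S2}
    (hh : IsPositiveMetric LL h) (hμ : IsSmoothVolume μ) {Z : Set S2} (hZ : IsClosed Z)
    (hd : IsTotallyDisconnected Z)
    (han : ∀ y : ℂ, (y : S2) ∉ Z →
      IsAnalyticMetricAt LL h (y : S2) ∧ IsAnalyticVolumeAt μ (y : S2))
    {d : S2 → S2 → ℝ} (hc : Continuous (Function.uncurry d)) (h0 : ∀ x, d x x = 0) {δ : ℝ}
    (hδ : 0 < δ) : Dec h μ {p | δ ≤ d p.1 p.2} := by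
  refine dec_of_sep h1 h2 h3 hh hμ hZ han (isClosed_le continuous_const hc).isCompact fun p hp => ?_
  have hne : p.1 ≠ p.2 := fun e => by
    have : δ ≤ d p.1 p.2 := hp
    rw [e, h0] at this
    linarith
  exact ⟨hne, fun C hC hC' a b => hne (hd C hC hC' a b)⟩

end Pool.Agent.MP_6c43ae_an.Ct
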