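import Pool.Agent.MP_6c43ae_an.ct.Spec

/-! The flat function is smooth, analytic off `S` and flat at `S`. -/

set_option autoImplicit false

open MeasureTheory Set Filter Topology Metric
open scoped ComplexConjugate ContDiff

namespace Pool.Agent.MP_6c43ae_an.Ct

namespace FlX

/-- a truncated distance to `S` -/
structure Ds (S : Set ℂ) (d : ℂ → ℝ) : Prop where
  pos : ∀ x, x ∉ S → 0 < d x
  le : ∀ x, d x ≤ 1 / 4
  le' : ∀ x, ∀ p ∈ S, d x ≤ ‖x - p‖
  alt : ∀ x, x ∉ S → d x = 1 / 4 ∨ ∃ p ∈ S, ‖x - p‖ ≤ 2 * d x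

lemma exists_ds {S : Set ℂ} (hS : IsClosed S) : ∃ d, Ds S d := by
  rcases S.eq_empty_or_nonempty with rfl | hne
  · exact ⟨fun _ => 1 / 4, fun _ _ => by norm_num, fun _ => le_rfl, fun _ _ h => h.elim,
      fun _ _ => Or.inl rfl⟩
  refine ⟨fun x => min (1 / 4) (infDist x S), fun x hx => lt_min (by norm_num)
    ((hS.notMem_iff_infDist_pos hne).1 hx), fun x => min_le_left _ _,
    fun x p hp => (min_le_right _ _).trans ?_, fun x hx => ?_⟩
  · rw [← dist_eq_norm]; exact infDist_le_dist_of_mem hp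
  · rcases le_total (1 / 4 : ℝ) (infDist x S) with h | h
    · exact Or.inl (min_eq_left h)
    · have h0 := (hS.notMem_iff_infDist_pos hne).1 hx
      obtain ⟨p, hp, h1⟩ := (infDist_lt_iff hne).1 (show infDist x S < 2 * infDist x S by linarith)
      refine Or.inr ⟨p, hp, ?_⟩
      rw [min_eq_right h, ← dist_eq_norm]
      exact h1.le

/-- functions with a flat holomorphic extension -/
def PP (S : Set ℂ) (d : ℂ → ℝ) (f : ℂ → ℂ) : Prop :=
  (∀ x ∈ S, f x = 0) ∧ ∃ (κ : ℝ) (Φ : C2 → ℂ), 0 < κ ∧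
    (∀ x, x ∉ S → DifferentiableOn ℂ Φ (ball (x, conj x) (κ * d x)) ∧ Φ (x, conj x) = f x) ∧
    ∀ (N : ℕ) (R : ℝ), ∃ C : ℝ, 0 ≤ C ∧ ∀ x, x ∉ S → ‖x‖ < R →
      ∀ q ∈ ball (x, conj x) (κ * d x), ‖Φ q‖ ≤ C * d x ^ N

lemma PP.at_mem {S : Set ℂ} {d : ℂ → ℝ} {f : ℂ → ℂ} (hd : Ds S d) (hf : PP S d f) {p : ℂ}
    (hp : p ∈ S) : HasFDerivAt f (0 : ℂ →L[ℝ] ℂ) p := by
  obtain ⟨h0, κ, Φ, hκ, h1, h2⟩ := hf
  obtain ⟨C, hC, h3⟩ := h2 2 (‖p‖ + 1)
  refine HasFDerivAt.of_isLittleO ?_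
  have hO : (fun x => f x - f p - (0 : ℂ →L[ℝ] ℂ) (x - p)) =O[𝓝 p] fun x => ‖x - p‖ ^ 2 := by
    refine Asymptotics.IsBigO.of_bound C ?_
    filter_upwards [ball_mem_nhds p one_pos] with x hx
    rw [h0 p hp, zero_apply, sub_zero, sub_zero,
      Real.norm_of_nonneg (by positivity)]
    by_cases hxS : x ∈ S
    · rw [h0 x hxS, norm_zero]; positivity
    · have hx' : ‖x‖ < ‖p‖ + 1 := by
        rw [mem_ball, dist_eq_norm] at hx
        linarith [norm_sub_norm_le x p]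
      have h4 := h3 x hxS hx' _ (mem_ball_self (mul_pos hκ (hd.pos x hxS)))
      rw [(h1 x hxS).2] at h4
      refine h4.trans (mul_le_mul_of_nonneg_left ?_ hC)
      exact pow_le_pow_left₀ (hd.pos x hxS).le (hd.le' x p hp) 2
  exact hO.trans_isLittleO (Asymptotics.isLittleO_pow_sub_sub p one_lt_two)

lemma ev_eq {S : Set ℂ} (hS : IsClosed S) {f : ℂ → ℂ} {Φ : C2 → ℂ}
    (h : ∀ x, x ∉ S → Φ (x, conj x) = f x) {x : ℂ} (hx : x ∉ S) :
    f =ᶠ[𝓝 x] fun y => Φ (y, conj y) := by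
  filter_upwards [hS.isOpen_compl.mem_nhds hx] with y hy
  exact (h y hy).symm

lemma PP.step {S : Set ℂ} (hS : IsClosed S) {d : ℂ → ℝ} {f : ℂ → ℂ} (hd : Ds S d)
    (hf : PP S d f) : Differentiable ℝ f ∧ ∀ v, PP S d fun x => fderiv ℝ f x v := by
  have hm := fun p hp => hf.at_mem hd (p := p) hp
  obtain ⟨h0, κ, Φ, hκ, h1, h2⟩ := hf
  have key : ∀ x, x ∉ S → HasFDerivAt f (((fderiv ℂ Φ (x, conj x)).restrictScalars ℝ).comp
      ((ContinuousLinearMap.id ℝ ℂ).prod (Complex.conjCLE : ℂ →L[ℝ] ℂ))) x := fun x hx => by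
    have hΦ : DifferentiableAt ℂ Φ (x, conj x) :=
      (h1 x hx).1.differentiableAt (ball_mem_nhds _ (mul_pos hκ (hd.pos x hx)))
    exact ((hΦ.hasFDerivAt.restrictScalars ℝ).comp x (hasFDerivAt_slice x)).congr_of_eventuallyEq
      (ev_eq hS (fun y hy => (h1 y hy).2) hx)
  refine ⟨fun x => ?_, fun v => ⟨fun x hx => by simp only [(hm x hx).fderiv]; rfl, κ / 2,
    fun q => fderiv ℂ Φ q (v, conj v), by positivity, fun x hx => ⟨?_, ?_⟩, fun N R => ?_⟩⟩
  · by_cases hx : x ∈ S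
    · exact (hm x hx).differentiableAt
    · exact (key x hx).differentiableAt
  · refine (hol_fderiv isOpen_ball (h1 x hx).1 _).mono (ball_subset_ball ?_)
    nlinarith [mul_pos hκ (hd.pos x hx)]
  · simp only [(key x hx).fderiv]; rfl
  · obtain ⟨C, hC, h3⟩ := h2 (N + 1) R
    refine ⟨2 * C / κ * ‖v‖, by positivity, fun x hx hR q hq => ?_⟩
    have hx0 := hd.pos x hx
    have hr : 0 < κ / 2 * d x := by positivity
    have hs : ball q (κ / 2 * d x) ⊆ ball (x, conj x) (κ * d x) :=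
      ball_subset_ball' (by rw [mem_ball] at hq; linarith)
    have h4 := cauchy hr ((h1 x hx).1.mono hs) fun z hz => h3 x hx hR z (hs hz)
    have h5 : ‖((v, conj v) : C2)‖ = ‖v‖ := by simp [Prod.norm_def]
    refine ((fderiv ℂ Φ q).le_opNorm _).trans ?_
    rw [h5]
    refine (mul_le_mul_of_nonneg_right h4 (norm_nonneg v)).trans (le_of_eq ?_)
    field_simp
    ring

lemma PP.contDiff {S : Set ℂ} (hS : IsClosed S) {d : ℂ → ℝ} (hd : Ds S d) {f : ℂ → ℂ}
    (hf : PP S d f) : ContDiff ℝ ∞ f := by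
  rw [contDiff_infty]
  intro n
  induction n generalizing f with
  | zero => exact contDiff_zero.2 (hf.step hS hd).1.continuous
  | succ n ih =>
    rw [Nat.cast_succ, contDiff_succ_iff_fderiv_apply]
    exact ⟨(hf.step hS hd).1, fun h => by simp at h, fun v => ih ((hf.step hS hd).2 v)⟩

lemma pow4 {Z : ℂ} (h : ‖Z - 1‖ ≤ 1 / 20) : ‖Z ^ 4 - 1‖ ≤ 1 / 2 := by
  have h1 : ‖Z‖ ≤ 21 / 20 := by
    have := norm_sub_norm_le Z 1
    rw [norm_one] at this
    linarith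
  have h2 : ‖Z ^ 3 + Z ^ 2 + Z + 1‖ ≤ 5 := by
    have a3 : ‖Z ^ 3‖ ≤ (21 / 20) ^ 3 := by
      rw [norm_pow]; exact pow_le_pow_left₀ (norm_nonneg _) h1 3
    have a2 : ‖Z ^ 2‖ ≤ (21 / 20) ^ 2 := by
      rw [norm_pow]; exact pow_le_pow_left₀ (norm_nonneg _) h1 2
    have b1 := norm_add_le (Z ^ 3 + Z ^ 2 + Z) 1
    have b2 := norm_add_le (Z ^ 3 + Z ^ 2) Z
    have b3 := norm_add_le (Z ^ 3) (Z ^ 2)
    rw [norm_one] at b1
    linarith
  rw [show Z ^ 4 - 1 = (Z - 1) * (Z ^ 3 + Z ^ 2 + Z + 1) by ring, norm_mul]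
  nlinarith [norm_nonneg (Z - 1), norm_nonneg (Z ^ 3 + Z ^ 2 + Z + 1)]

lemma one_add_norm {u : ℂ} (h : ‖u‖ ≤ 1 / 100) : 99 / 100 ≤ ‖1 + u‖ := by
  have := norm_sub_norm_le (1 : ℂ) (-u)
  rw [norm_one, norm_neg, sub_neg_eq_add] at this
  linarith

lemma quot {s u v : ℂ} (hs : ‖s‖ ≤ 1 / 100) (hu : ‖u‖ ≤ 1 / 100) (hv : ‖v‖ ≤ 1 / 100) :
    ‖(1 + s) / ((1 + u) * (1 + v)) - 1‖ ≤ 1 / 20 := by
  have a := one_add_norm hu
  have b := one_add_norm hv
  have a0 : 1 + u ≠ 0 := norm_pos_iff.1 (by linarith)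
  have b0 : 1 + v ≠ 0 := norm_pos_iff.1 (by linarith)
  rw [show (1 + s) / ((1 + u) * (1 + v)) - 1 = (s - u - v - u * v) / ((1 + u) * (1 + v)) by
    field_simp; ring, norm_div, norm_mul, div_le_iff₀ (by positivity)]
  have c1 := norm_sub_le (s - u - v) (u * v)
  have c2 := norm_sub_le (s - u) v
  have c3 := norm_sub_le s u
  rw [norm_mul] at c1
  nlinarith [norm_nonneg u, norm_nonneg v]

/-- the complexified term -/
noncomputable def ct (w : ℝ) (α β : ℂ) (q : C2) : ℂ :=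
  w * ((1 + q.1 * q.2) / ((β * q.1 - α) * (conj β * q.2 - conj α))) ^ 4

lemma ct_diag (w : ℝ) (α β x : ℂ) : ct w α β (x, conj x) = gt w α β x := by
  have h : conj β * conj x - conj α = conj (β * x - α) := by simp
  simp only [ct, gt, h, Complex.mul_conj']
  push_cast
  rfl

lemma gt_nonneg {w : ℝ} (hw : 0 ≤ w) (α β x : ℂ) : 0 ≤ gt w α β x := by
  unfold gt; positivity

lemma term {w δ : ℝ} {α β x : ℂ} (hw : 0 ≤ w) (hδ : δ ≤ 1 / 4) (hD : β * x - α ≠ 0)
    (hβ : ‖β‖ * δ ≤ ‖β * x - α‖) {q : C2} (hq : q ∈ ball (x, conj x) (1 / 100 * δ)) :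
    (β * q.1 - α) * (conj β * q.2 - conj α) ≠ 0 ∧
      ‖ct w α β q - gt w α β x‖ ≤ gt w α β x / 2 := by
  obtain ⟨y, t⟩ := q
  rw [mem_ball_prod, mem_ball, mem_ball, dist_eq_norm, dist_eq_norm] at hq
  obtain ⟨hy, ht⟩ := hq
  dsimp only at hy ht ⊢
  set D := β * x - α with hDd
  have hD0 : 0 < ‖D‖ := norm_pos_iff.2 hD
  have hDc : conj D ≠ 0 := by simpa using hD
  have hx0 : (0 : ℝ) < 1 + ‖x‖ ^ 2 := by positivity
  have hx1 : (1 + x * conj x) = ((1 + ‖x‖ ^ 2 : ℝ) : ℂ) := by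
    rw [Complex.mul_conj']; push_cast; rfl
  have hx2 : (1 + x * conj x) ≠ 0 := by rw [hx1]; exact_mod_cast hx0.ne'
  have hu : ‖β * (y - x) / D‖ ≤ 1 / 100 := by
    rw [norm_div, norm_mul, div_le_iff₀ hD0]
    nlinarith [norm_nonneg β]
  have hv : ‖conj β * (t - conj x) / conj D‖ ≤ 1 / 100 := by
    rw [norm_div, norm_mul, Complex.norm_conj, Complex.norm_conj, div_le_iff₀ hD0]
    nlinarith [norm_nonneg β]
  have hs : ‖(y * t - x * conj x) / (1 + x * conj x)‖ ≤ 1 / 100 := by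
    rw [norm_div, hx1, Complex.norm_real, Real.norm_of_nonneg hx0.le, div_le_iff₀ hx0,
      show y * t - x * conj x = (y - x) * conj x + x * (t - conj x) + (y - x) * (t - conj x) by
        ring]
    have c1 := norm_add_le ((y - x) * conj x + x * (t - conj x)) ((y - x) * (t - conj x))
    have c2 := norm_add_le ((y - x) * conj x) (x * (t - conj x))
    rw [norm_mul] at c1
    rw [norm_mul, norm_mul, Complex.norm_conj] at c2
    have e1 : ‖y - x‖ ≤ 1 / 400 := by linarith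
    have e2 : ‖t - conj x‖ ≤ 1 / 400 := by linarith
    nlinarith [norm_nonneg x, norm_nonneg (y - x), norm_nonneg (t - conj x),
      sq_nonneg (‖x‖ - 1), mul_le_mul_of_nonneg_right e1 (norm_nonneg x),
      mul_le_mul_of_nonneg_left e2 (norm_nonneg x)]
  have f1 : β * y - α = D * (1 + β * (y - x) / D) := by
    field_simp
    rw [hDd]; ring
  have f2 : conj β * t - conj α = conj D * (1 + conj β * (t - conj x) / conj D) := by
    have : conj D = conj β * conj x - conj α := by rw [hDd]; simp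
    field_simp
    rw [this]; ring
  have f3 : 1 + y * t = (1 + x * conj x) * (1 + (y * t - x * conj x) / (1 + x * conj x)) := by
    field_simp
    ring
  have a0 : 1 + β * (y - x) / D ≠ 0 := norm_pos_iff.1 (by linarith [one_add_norm hu])
  have b0 : 1 + conj β * (t - conj x) / conj D ≠ 0 :=
    norm_pos_iff.1 (by linarith [one_add_norm hv])
  have hZ := pow4 (quot hs hu hv)
  generalize (y * t - x * conj x) / (1 + x * conj x) = s at f3 hZ
  generalize β * (y - x) / D = u at f1 hZ a0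
  generalize conj β * (t - conj x) / conj D = v at f2 hZ b0
  refine ⟨by rw [f1, f2]; exact mul_ne_zero (mul_ne_zero hD a0) (mul_ne_zero hDc b0), ?_⟩
  have e : ct w α β (y, t) - gt w α β x
      = gt w α β x * (((1 + s) / ((1 + u) * (1 + v))) ^ 4 - 1) := by
    rw [← ct_diag]
    have : conj β * conj x - conj α = conj D := by rw [hDd]; simp
    simp only [ct, f1, f2, f3, this, ← hDd]
    field_simp
  rw [e, norm_mul, Complex.norm_real, Real.norm_of_nonneg (gt_nonneg hw _ _ _)]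
  nlinarith [gt_nonneg hw α β x]

variable {ι : Type} {w : ι → ℝ} {α β : ι → ℂ} {S : Set ℂ} {d : ℂ → ℝ}

lemma den (hF : Fam w α β S) (hd : Ds S d) {x : ℂ} (hx : x ∉ S) {i : ι} (hi : w i ≠ 0) :
    β i * x - α i ≠ 0 ∧ ‖β i‖ * d x ≤ ‖β i * x - α i‖ := by
  refine ⟨fun h => hx (hF.mem i hi x (sub_eq_zero.1 h)), ?_⟩
  by_cases hb : β i = 0
  · rw [hb, norm_zero, zero_mul]; exact norm_nonneg _
  · have hp := hF.mem i hi (α i / β i) (by field_simp)
    rw [show β i * x - α i = β i * (x - α i / β i) by field_simp, norm_mul]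
    exact mul_le_mul_of_nonneg_left (hd.le' x _ hp) (norm_nonneg _)

lemma summable_gt (hF : Fam w α β S) (hd : Ds S d) {x : ℂ} (hx : x ∉ S) :
    Summable fun i => gt (w i) (α i) (β i) x := by
  have h0 := hd.pos x hx
  refine (hF.sum.mul_right (((1 + ‖x‖ ^ 2) * (1 + (1 + ‖x‖) / d x) ^ 2) ^ 4)).of_nonneg_of_le
    (fun i => gt_nonneg (hF.nn i) _ _ _) fun i => ?_
  by_cases hi : w i = 0
  · simp [gt, hi]
  obtain ⟨h1, h2⟩ := den hF hd hx hi
  have h3 : 0 < ‖β i * x - α i‖ := norm_pos_iff.2 h1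
  refine mul_le_mul_of_nonneg_left (pow_le_pow_left₀ (by positivity) ?_ 4) (hF.nn i)
  rw [div_le_iff₀ (by positivity), mul_assoc, ← mul_pow]
  refine le_mul_of_one_le_right (by positivity) (one_le_pow₀ ?_)
  have h4 : ‖β i‖ ≤ ‖β i * x - α i‖ / d x := by rwa [le_div_iff₀ h0]
  have h5 := norm_sub_norm_le (α i) (β i * x)
  rw [norm_sub_rev, norm_mul] at h5
  have h6 := mul_le_mul_of_nonneg_right h4 (show 0 ≤ 1 + ‖x‖ by positivity)
  have h7 : (1 + (1 + ‖x‖) / d x) * ‖β i * x - α i‖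
      = ‖β i * x - α i‖ + ‖β i * x - α i‖ / d x * (1 + ‖x‖) := by ring
  linarith [(hF.nrm i).2.2]

lemma ct_close (hF : Fam w α β S) (hd : Ds S d) {x : ℂ} (hx : x ∉ S) (i : ι) {q : C2}
    (hq : q ∈ ball (x, conj x) (1 / 100 * d x)) :
    ‖ct (w i) (α i) (β i) q - gt (w i) (α i) (β i) x‖ ≤ gt (w i) (α i) (β i) x / 2 := by
  by_cases hi : w i = 0
  · simp [gt, ct, hi]
  exact (term (hF.nn i) (hd.le x) (den hF hd hx hi).1 (den hF hd hx hi).2 hq).2

lemma ct_norm (hF : Fam w α β S) (hd : Ds S d) {x : ℂ} (hx : x ∉ S) (i : ι) {q : C2}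
    (hq : q ∈ ball (x, conj x) (1 / 100 * d x)) :
    ‖ct (w i) (α i) (β i) q‖ ≤ 3 / 2 * gt (w i) (α i) (β i) x := by
  have h1 := ct_close hF hd hx i hq
  have h2 := norm_sub_norm_le (ct (w i) (α i) (β i) q) (gt (w i) (α i) (β i) x : ℂ)
  rw [Complex.norm_real, Real.norm_of_nonneg (gt_nonneg (hF.nn i) _ _ _)] at h2
  linarith

lemma G_hol (hF : Fam w α β S) (hd : Ds S d) {x : ℂ} (hx : x ∉ S) :
    DifferentiableOn ℂ (fun q => ∑' i, ct (w i) (α i) (β i) q)
      (ball (x, conj x) (1 / 100 * d x)) := by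
  refine hol_tsum isOpen_ball ((summable_gt hF hd hx).mul_left (3 / 2)) (fun i => ?_)
    fun i q hq => ct_norm hF hd hx i hq
  by_cases hi : w i = 0
  · exact (differentiableOn_const (0 : ℂ)).congr fun q _ => by simp [ct, hi]
  intro q hq
  have h := (term (hF.nn i) (hd.le x) (den hF hd hx hi).1 (den hF hd hx hi).2 hq).1
  refine DifferentiableAt.differentiableWithinAt ?_
  unfold ct
  fun_prop (disch := exact h)

lemma G_re (hF : Fam w α β S) (hd : Ds S d) {x : ℂ} (hx : x ∉ S) {q : C2}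
    (hq : q ∈ ball (x, conj x) (1 / 100 * d x)) :
    (∑' i, gt (w i) (α i) (β i) x) / 2 ≤ (∑' i, ct (w i) (α i) (β i) q).re := by
  have hs := summable_gt hF hd hx
  have hc : Summable fun i => ct (w i) (α i) (β i) q :=
    (hs.mul_left (3 / 2)).of_norm_bounded fun i => ct_norm hF hd hx i hq
  rw [Complex.re_tsum hc, ← tsum_div_const]
  refine (hs.div_const 2).tsum_le_tsum (fun i => ?_) (Complex.hasSum_re hc.hasSum).summable
  have h1 := (abs_le.1 ((Complex.abs_re_le_norm _).trans (ct_close hF hd hx i hq))).1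
  rw [Complex.sub_re, Complex.ofReal_re] at h1
  linarith

lemma G_big (hF : Fam w α β S) (hd : Ds S d) (R : ℝ) : ∃ c : ℝ, 0 < c ∧ ∀ x, x ∉ S → ‖x‖ < R →
    ∀ p ∈ S, ‖x - p‖ < 1 → c / ‖x - p‖ ≤ ∑' i, gt (w i) (α i) (β i) x := by
  obtain ⟨c, hc, h⟩ := hF.big R
  refine ⟨c, hc, fun x hx hR p hp h1 => ?_⟩
  obtain ⟨i, hi⟩ := h x hx hR p hp h1
  exact hi.trans ((summable_gt hF hd hx).le_tsum i fun j _ => gt_nonneg (hF.nn j) _ _ _)

lemma diag (w : ι → ℝ) (α β : ι → ℂ) {x : ℂ} (hx : x ∉ S) :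
    Complex.exp (-∑' i, ct (w i) (α i) (β i) (x, conj x)) = (fl w α β S x : ℝ) := by
  simp only [ct_diag, fl, indicator_of_mem (show x ∈ Sᶜ from hx)]
  push_cast
  rfl

lemma pp_fl (hF : Fam w α β S) (hd : Ds S d) : PP S d fun x => (fl w α β S x : ℝ) := by
  refine ⟨fun x hx => ?_, 1 / 100, fun q => Complex.exp (-∑' i, ct (w i) (α i) (β i) q),
    by norm_num, fun x hx => ⟨(G_hol hF hd hx).neg.cexp, diag w α β hx⟩, fun N R => ?_⟩
  · simp [fl, hx]
  obtain ⟨c, hc, h⟩ := G_big hF hd R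
  refine ⟨4 ^ N + N.factorial * (4 / c) ^ N, by positivity, fun x hx hR q hq => ?_⟩
  have h0 := hd.pos x hx
  have h1 := G_re hF hd hx hq
  have h2 : 0 ≤ ∑' i, gt (w i) (α i) (β i) x := tsum_nonneg fun i => gt_nonneg (hF.nn i) _ _ _
  rw [Complex.norm_exp, Complex.neg_re, add_mul]
  rcases hd.alt x hx with e | ⟨p, hp, e⟩
  · have h3 : (4 : ℝ) ^ N * d x ^ N = 1 := by rw [e, ← mul_pow]; norm_num
    have h4 : Real.exp (-(∑' i, ct (w i) (α i) (β i) q).re) ≤ 1 :=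
      Real.exp_le_one_iff.2 (by linarith)
    have h5 : 0 ≤ N.factorial * (4 / c) ^ N * d x ^ N := by positivity
    linarith
  · have h3 := h x hx hR p hp (by linarith [hd.le x])
    have h4 : 0 < ‖x - p‖ := h0.trans_le (hd.le' x p hp)
    have h5 : c / (2 * d x) ≤ c / ‖x - p‖ := div_le_div_of_nonneg_left hc.le h4 e
    have h6 : c / (4 * d x) = c / (2 * d x) / 2 := by ring
    have h7 := Real.pow_div_factorial_le_exp (c / (4 * d x)) (by positivity) N
    have h8 : Real.exp (-(∑' i, ct (w i) (α i) (β i) q).re) ≤ Real.exp (-(c / (4 * d x))) :=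
      Real.exp_le_exp.2 (by linarith)
    have h9 : Real.exp (-(c / (4 * d x))) ≤ N.factorial * (4 / c) ^ N * d x ^ N := by
      rw [Real.exp_neg]
      refine (inv_anti₀ (by positivity) h7).trans (le_of_eq ?_)
      rw [mul_assoc, ← mul_pow, inv_div, div_eq_mul_inv, ← inv_pow, inv_div]
      congr 2
      ring
    have h10 : 0 ≤ (4 : ℝ) ^ N * d x ^ N := by positivity
    linarith

end FlX

open FlX in
theorem fl_main (h : AN) : FL := by
  intro ι w α β S hS hF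
  obtain ⟨d, hd⟩ := exists_ds hS
  refine ⟨Complex.reCLM.contDiff.comp ((pp_fl hF hd).contDiff hS hd), fun x hx => ?_,
    fun p hp => ?_⟩
  · have h1 := (h _ _ isOpen_ball (G_hol hF hd hx).neg.cexp) _
      (mem_ball_self (by have := hd.pos x hx; positivity))
    have h2 : AnalyticAt ℝ (fun y : ℂ => ((y, conj y) : C2)) x :=
      ((ContinuousLinearMap.id ℝ ℂ).prod (Complex.conjCLE : ℂ →L[ℝ] ℂ)).analyticAt x
    have h3 := (Complex.reCLM.analyticAt _).comp
      (AnalyticAt.comp (f := fun y : ℂ => ((y, conj y) : C2)) h1.restrictScalars h2)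
    refine h3.congr ?_
    filter_upwards [hS.isOpen_compl.mem_nhds hx] with y hy
    exact congrArg Complex.re (diag w α β hy)
  · obtain ⟨c, hc, h1⟩ := G_big hF hd (‖p‖ + 1)
    refine ⟨c, hc, ?_⟩
    filter_upwards [ball_mem_nhds p one_pos] with x hx
    rw [mem_ball, dist_eq_norm] at hx
    by_cases hxS : x ∈ S
    · simp [fl, hxS, (Real.exp_pos _).le]
    · rw [fl, indicator_of_mem (show x ∈ Sᶜ from hxS), abs_of_pos (Real.exp_pos _)]
      exact Real.exp_le_exp.2 (neg_le_neg (h1 x hxS (by linarith [norm_sub_norm_le x p]) p hp hx))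

end Pool.Agent.MP_6c43ae_an.Ct
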