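import Pool.Agent.MP_6c43ae_an.Defs

/-! Real analyticity of a Hermitian metric and of a volume form at one point. -/

set_option autoImplicit false

open scoped Topology

namespace Pool.Agent.MP_6c43ae_an

variable {M : Type} [TopologicalSpace M] [ChartedSpace ℂ M] {ι : Type}

/-- Each `h (e i, e i)` with `x` in the domain of the frame `e i` is real analytic at `x`, read in
a holomorphic chart at `x`. -/
def IsAnalyticMetricAt (L : VectorBundleCore ℂ M ℂ ι) (h : ι → M → ℝ) (x : M) : Prop :=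
  ∀ i, x ∈ L.baseSet i → AnalyticAt ℝ (fun y : ℂ => h i ((chartAt ℂ x).symm y)) (chartAt ℂ x x)

/-- Near `x` the measure `μ` has a real analytic density in a holomorphic chart at `x`. -/
def IsAnalyticVolumeAt [MeasurableSpace M] (μ : MeasureTheory.Measure M) (x : M) : Prop :=
  ∃ ρ : ℂ → ℝ, AnalyticAt ℝ ρ (chartAt ℂ x x) ∧ ∃ U ∈ 𝓝 (chartAt ℂ x x),
    ∀ A : Set ℂ, MeasurableSet A → A ⊆ U → A ⊆ (chartAt ℂ x).target →
      μ ((chartAt ℂ x).symm '' A) = ∫⁻ y in A, ENNReal.ofReal (ρ y)

end Pool.Agent.MP_6c43ae_an
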