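import Mathlib

/-! Holomorphic functions of two variables (proofs copied from the library of MP_54e5d7_al). -/

set_option autoImplicit false

open scoped ComplexConjugate ContDiff Topology
open Set MeasureTheory Filter Metric

namespace Pool.Agent.MP_6c43ae_an.Ct

abbrev C2 : Type := ℂ × ℂ

section General

variable {E : Type*} [NormedAddCommGroup E] [NormedSpace ℂ E]

/-- first order Schwarz estimate -/
theorem schwarz1 {f : E → ℂ} {c z : E} {R M : ℝ} (hf : DifferentiableOn ℂ f (ball c R))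
    (hM : ∀ w ∈ ball c R, ‖f w‖ ≤ M) (hz : z ∈ ball c R) :
    ‖f z - f c‖ ≤ 2 * M / R * ‖z - c‖ := by
  have hR : 0 < R := nonempty_ball.mp ⟨_, hz⟩
  have h := Complex.dist_le_div_mul_dist_of_mapsTo_ball (R₂ := 2 * M) hf (fun w hw => ?_) hz
  · simpa [dist_eq_norm] using h
  · rw [mem_closedBall, dist_eq_norm]
    have := norm_sub_le (f w) (f c)
    linarith [hM w hw, hM c (mem_ball_self hR)]

/-- Cauchy estimate -/
theorem cauchy {f : E → ℂ} {y : E} {R M : ℝ} (hR : 0 < R)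
    (hf : DifferentiableOn ℂ f (ball y R)) (hM : ∀ z ∈ ball y R, ‖f z‖ ≤ M) :
    ‖fderiv ℂ f y‖ ≤ M / R := by
  have hM0 : 0 ≤ M := (norm_nonneg _).trans (hM y (mem_ball_self hR))
  have hd : DifferentiableAt ℂ f y := hf.differentiableAt (ball_mem_nhds y hR)
  refine ContinuousLinearMap.opNorm_le_of_unit_norm (by positivity) fun w hw => ?_
  have hmem : ∀ t : ℂ, ‖t‖ < R → y + t • w ∈ ball y R := fun t ht => by
    simpa [norm_smul, hw] using ht
  have hg : DifferentiableOn ℂ (fun t : ℂ => f (y + t • w)) (ball 0 R) :=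
    hf.comp (by fun_prop) fun t ht => hmem t (by simpa using ht)
  have hder : HasDerivAt (fun t : ℂ => f (y + t • w)) (fderiv ℂ f y w) 0 := by
    have h1 : HasDerivAt (fun t : ℂ => y + t • w) w 0 := by
      simpa using ((hasDerivAt_id (0 : ℂ)).smul_const w).const_add y
    exact HasFDerivAt.comp_hasDerivAt_of_eq (0 : ℂ) hd.hasFDerivAt h1 (by simp)
  have key : ∀ r ∈ Ioo 0 R, ‖fderiv ℂ f y w‖ ≤ M / r := by
    intro r hr
    rw [← hder.deriv]
    refine Complex.norm_deriv_le_of_forall_mem_sphere_norm_le hr.1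
      (hg.diffContOnCl_ball (closedBall_subset_ball hr.2)) fun t ht => hM _ (hmem t ?_)
    have : ‖t‖ = r := by simpa using ht
    rw [this]; exact hr.2
  have hlim : Tendsto (fun r => M / r) (𝓝[<] R) (𝓝 (M / R)) :=
    (tendsto_const_nhds.div tendsto_id hR.ne').mono_left nhdsWithin_le_nhds
  exact ge_of_tendsto hlim (by filter_upwards [Ioo_mem_nhdsLT hR] with r hr using key r hr)

/-- second order Schwarz estimate -/
theorem schwarz2 {f : E → ℂ} {c z : E} {R M : ℝ} (hf : DifferentiableOn ℂ f (ball c R))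
    (hM : ∀ w ∈ ball c R, ‖f w‖ ≤ M) (hz : z ∈ ball c R) :
    ‖f z - f c - fderiv ℂ f c (z - c)‖ ≤ 3 * M / R ^ 2 * ‖z - c‖ ^ 2 := by
  have hR : 0 < R := nonempty_ball.mp ⟨_, hz⟩
  have hd : DifferentiableAt ℂ f c := hf.differentiableAt (ball_mem_nhds c hR)
  have hM0 : 0 ≤ M := (norm_nonneg _).trans (hM c (mem_ball_self hR))
  have hL := cauchy hR hf hM
  have h := Complex.dist_le_mul_div_pow_of_mapsTo_ball_of_isLittleO (n := 1) (R₂ := 3 * M)
    (f := fun w => f w - f c - fderiv ℂ f c (w - c)) (c := c) (R₁ := R)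
    ((hf.sub_const _).sub (by fun_prop)) (fun w hw => ?_) ?_ hz
  · simp only [sub_self, map_zero, dist_eq_norm, sub_zero] at h
    refine h.trans_eq ?_
    rw [div_pow]
    ring
  · simp only [sub_self, map_zero, mem_closedBall, dist_eq_norm, sub_zero]
    have h1 := norm_sub_le (f w - f c) (fderiv ℂ f c (w - c))
    have h2 := norm_sub_le (f w) (f c)
    have h3 : ‖fderiv ℂ f c (w - c)‖ ≤ M / R * R :=
      ((fderiv ℂ f c).le_opNorm _).trans (mul_le_mul hL
        (by simpa [dist_eq_norm] using (mem_ball.1 hw).le) (norm_nonneg _) (by positivity))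
    rw [div_mul_cancel₀ _ hR.ne'] at h3
    linarith [hM w hw, hM c (mem_ball_self hR)]
  · simpa using hd.hasFDerivAt.isLittleO.norm_right

end General

theorem bdd_ball {V : Set C2} (hV : IsOpen V) {f : C2 → ℂ} (hc : ContinuousOn f V) {y : C2}
    (hy : y ∈ V) : ∃ R M : ℝ, 0 < R ∧ ball y R ⊆ V ∧ ∀ z ∈ ball y R, ‖f z‖ ≤ M := by
  have h1 : ∀ᶠ z in 𝓝 y, ‖f z‖ < ‖f y‖ + 1 :=
    (hc.continuousAt (hV.mem_nhds hy)).norm.eventually (gt_mem_nhds (lt_add_one _))
  obtain ⟨R, hR, h⟩ := Metric.eventually_nhds_iff_ball.1 (h1.and (hV.mem_nhds hy))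
  exact ⟨R, ‖f y‖ + 1, hR, fun z hz => (h z hz).2, fun z hz => (h z hz).1.le⟩

theorem mem_ball_prod {y : C2} {R : ℝ} {a b : ℂ} :
    (a, b) ∈ ball y R ↔ a ∈ ball y.1 R ∧ b ∈ ball y.2 R := by
  simp [Prod.dist_eq]



/-- Osgood -/
theorem osgood_bdd {V : Set C2} {f : C2 → ℂ}
    (hb : ∀ y ∈ V, ∃ R M : ℝ, 0 < R ∧ ball y R ⊆ V ∧ ∀ z ∈ ball y R, ‖f z‖ ≤ M)
    (h1 : ∀ z ∈ V, DifferentiableAt ℂ (fun u => f (u, z.2)) z.1)
    (h2 : ∀ z ∈ V, DifferentiableAt ℂ (fun u => f (z.1, u)) z.2) : DifferentiableOn ℂ f V := by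
  intro y hy
  obtain ⟨R, M, hR, hs, hM⟩ := hb y hy
  have hM0 : 0 ≤ M := (norm_nonneg _).trans (hM y (mem_ball_self hR))
  have d1 : ∀ b ∈ ball y.2 R, DifferentiableOn ℂ (fun u => f (u, b)) (ball y.1 R) :=
    fun b hb a ha => (h1 (a, b) (hs (mem_ball_prod.2 ⟨ha, hb⟩))).differentiableWithinAt
  have d2 : ∀ a ∈ ball y.1 R, DifferentiableOn ℂ (fun u => f (a, u)) (ball y.2 R) :=
    fun a ha b hb => (h2 (a, b) (hs (mem_ball_prod.2 ⟨ha, hb⟩))).differentiableWithinAt
  set L1 := fderiv ℂ (fun u => f (u, y.2)) y.1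
  set L2 := fderiv ℂ (fun u => f (y.1, u)) y.2
  set L : C2 →L[ℂ] ℂ := L1.comp (ContinuousLinearMap.fst ℂ ℂ ℂ) +
    L2.comp (ContinuousLinearMap.snd ℂ ℂ ℂ) with hL
  have est : ∀ z ∈ ball y R, ‖f z - f y - L (z - y)‖ ≤ 10 * M / R ^ 2 * ‖z - y‖ ^ 2 := by
    rintro ⟨a, b⟩ hz
    obtain ⟨ha, hb⟩ := mem_ball_prod.1 hz
    have hy1 : y.1 ∈ ball y.1 R := mem_ball_self hR
    have hy2 : y.2 ∈ ball y.2 R := mem_ball_self hR
    have na : ‖a - y.1‖ ≤ ‖(a, b) - y‖ := norm_fst_le ((a, b) - y)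
    have nb : ‖b - y.2‖ ≤ ‖(a, b) - y‖ := norm_snd_le ((a, b) - y)
    set N := ‖(a, b) - y‖
    have hN : 0 ≤ N := norm_nonneg _
    -- second order estimates along the two coordinate lines through `y`
    have e1 := schwarz2 (d1 _ hy2) (fun w hw => hM _ (mem_ball_prod.2 ⟨hw, hy2⟩)) ha
    have e2 := schwarz2 (d2 _ hy1) (fun w hw => hM _ (mem_ball_prod.2 ⟨hy1, hw⟩)) hb
    -- the mixed difference
    have e3 := schwarz1 (f := fun u => f (u, b) - f (u, y.2)) (M := 2 * M / R * ‖b - y.2‖)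
      ((d1 _ hb).sub (d1 _ hy2))
      (fun w hw => schwarz1 (d2 w hw) (fun v hv => hM _ (mem_ball_prod.2 ⟨hw, hv⟩)) hb) ha
    have e0 : f (a, b) - f y - L ((a, b) - y) =
        (f (a, y.2) - f (y.1, y.2) - L1 (a - y.1)) + (f (y.1, b) - f (y.1, y.2) - L2 (b - y.2)) +
          (f (a, b) - f (a, y.2) - (f (y.1, b) - f (y.1, y.2))) := by
      simp only [hL, add_apply, ContinuousLinearMap.comp_apply,
        ContinuousLinearMap.coe_fst', ContinuousLinearMap.coe_snd', Prod.fst_sub, Prod.snd_sub,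
        Prod.mk.eta]
      ring
    rw [e0]
    have s1 : 3 * M / R ^ 2 * ‖a - y.1‖ ^ 2 ≤ 3 * M / R ^ 2 * N ^ 2 := by gcongr
    have s2 : 3 * M / R ^ 2 * ‖b - y.2‖ ^ 2 ≤ 3 * M / R ^ 2 * N ^ 2 := by gcongr
    have s3 : 2 * (2 * M / R * ‖b - y.2‖) / R * ‖a - y.1‖ ≤ 2 * (2 * M / R * N) / R * N := by
      gcongr
    have s4 : 10 * M / R ^ 2 * N ^ 2 = 3 * M / R ^ 2 * N ^ 2 + 3 * M / R ^ 2 * N ^ 2 +
        2 * (2 * M / R * N) / R * N := by
      field_simp
      ring
    refine norm_add₃_le.trans ?_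
    rw [s4]
    exact add_le_add (add_le_add (e1.trans s1) (e2.trans s2)) (e3.trans s3)
  have hO : (fun z => f z - f y - L (z - y)) =O[𝓝 y] fun z => ‖z - y‖ ^ 2 := by
    refine Asymptotics.IsBigO.of_bound (10 * M / R ^ 2) ?_
    filter_upwards [ball_mem_nhds y hR] with z hz
    simpa using est z hz
  have hF : HasFDerivAt f L y := by
    rw [hasFDerivAt_iff_isLittleO]
    exact hO.trans_isLittleO (Asymptotics.isLittleO_pow_sub_sub y one_lt_two)
  exact hF.differentiableAt.differentiableWithinAt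

theorem osgood {V : Set C2} (hV : IsOpen V) {f : C2 → ℂ} (hc : ContinuousOn f V)
    (h1 : ∀ z ∈ V, DifferentiableAt ℂ (fun u => f (u, z.2)) z.1)
    (h2 : ∀ z ∈ V, DifferentiableAt ℂ (fun u => f (z.1, u)) z.2) : DifferentiableOn ℂ f V :=
  osgood_bdd (fun _ hy => bdd_ball hV hc hy) h1 h2

/-- Cauchy estimate (the norm of `C2` is the sup norm) -/
theorem hol_cauchy {f : C2 → ℂ} {y : C2} {R M : ℝ} (hR : 0 < R)
    (hf : DifferentiableOn ℂ f (ball y R)) (hM : ∀ z ∈ ball y R, ‖f z‖ ≤ M) :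
    ‖fderiv ℂ f y‖ ≤ M / R := cauchy hR hf hM

/-- Weierstrass -/
theorem hol_limit {ι : Type*} {l : Filter ι} [l.NeBot] {V : Set C2} (hV : IsOpen V)
    {F : ι → C2 → ℂ} {f : C2 → ℂ} (hF : ∀ᶠ i in l, DifferentiableOn ℂ (F i) V)
    (h : TendstoLocallyUniformlyOn F f l V) : DifferentiableOn ℂ f V := by
  have line : ∀ (e : ℂ → C2), Differentiable ℂ e → ∀ t, e t ∈ V →
      DifferentiableAt ℂ (fun u => f (e u)) t := by
    intro e he t ht
    have ho : IsOpen (e ⁻¹' V) := hV.preimage he.continuous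
    have h1 := h.comp e (mapsTo_preimage e V) he.continuous.continuousOn
    have h2 := h1.differentiableOn
      (hF.mono fun i hi => hi.comp he.differentiableOn (mapsTo_preimage e V)) ho
    exact h2.differentiableAt (ho.mem_nhds ht)
  refine osgood hV (h.continuousOn (hF.mono fun i hi => hi.continuousOn).frequently)
    (fun z hz => ?_) fun z hz => ?_
  · exact line (fun u => (u, z.2)) (by fun_prop) z.1 hz
  · exact line (fun u => (z.1, u)) (by fun_prop) z.2 hz

theorem hol_tsum {ι : Type*} {V : Set C2} (hV : IsOpen V) {F : ι → C2 → ℂ} {u : ι → ℝ}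
    (hu : Summable u) (hF : ∀ i, DifferentiableOn ℂ (F i) V)
    (hb : ∀ i, ∀ z ∈ V, ‖F i z‖ ≤ u i) : DifferentiableOn ℂ (fun z => ∑' i, F i z) V :=
  hol_limit hV (Eventually.of_forall fun _ => DifferentiableOn.fun_sum fun i _ => hF i)
    (tendstoUniformlyOn_tsum hu hb).tendstoLocallyUniformlyOn

theorem hol_fderiv {V : Set C2} (hV : IsOpen V) {f : C2 → ℂ} (hf : DifferentiableOn ℂ f V)
    (w : C2) : DifferentiableOn ℂ (fun z => fderiv ℂ f z w) V := by
  intro y hy
  obtain ⟨R, M, hR, hs, hM⟩ := bdd_ball hV hf.continuousOn hy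
  have hM0 : 0 ≤ M := (norm_nonneg _).trans (hM y (mem_ball_self hR))
  have hR2 : 0 < R / 2 := by positivity
  have hsub : ∀ z ∈ ball y (R / 2), ball z (R / 2) ⊆ ball y R := fun z hz =>
    ball_subset_ball' (by linarith [mem_ball.1 hz])
  have hsm : ∀ᶠ t : ℂ in 𝓝[≠] 0, ‖t • w‖ < R / 2 := by
    have : Tendsto (fun t : ℂ => ‖t • w‖) (𝓝 0) (𝓝 0) := by
      simpa using (Continuous.tendsto (f := fun t : ℂ => ‖t • w‖) (by fun_prop) 0)
    exact (this.eventually (gt_mem_nhds hR2)).filter_mono nhdsWithin_le_nhds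
  have hmem : ∀ (z : C2) (t : ℂ), ‖t • w‖ < R / 2 → z + t • w ∈ ball z (R / 2) :=
    fun z t ht => by simpa using ht
  have hD : DifferentiableOn ℂ (fun z => fderiv ℂ f z w) (ball y (R / 2)) := by
    refine hol_limit (l := 𝓝[≠] (0 : ℂ)) isOpen_ball
      (F := fun t z => t⁻¹ * (f (z + t • w) - f z)) ?_
      (TendstoUniformlyOn.tendstoLocallyUniformlyOn ?_)
    · filter_upwards [hsm] with t ht
      refine DifferentiableOn.const_mul (DifferentiableOn.sub ?_ ?_) _
      · exact hf.comp (by fun_prop) fun z hz => hs (hsub z hz (hmem z t ht))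
      · exact hf.mono fun z hz => hs (hsub z hz (mem_ball_self hR2))
    · rw [Metric.tendstoUniformlyOn_iff]
      intro ε hε
      have hsm2 : ∀ᶠ t : ℂ in 𝓝[≠] 0, 3 * M / (R / 2) ^ 2 * ‖w‖ ^ 2 * ‖t‖ < ε := by
        have : Tendsto (fun t : ℂ => 3 * M / (R / 2) ^ 2 * ‖w‖ ^ 2 * ‖t‖) (𝓝 0) (𝓝 0) :=
          Continuous.tendsto' (by fun_prop) 0 0 (by simp)
        exact (this.eventually (gt_mem_nhds hε)).filter_mono nhdsWithin_le_nhds
      filter_upwards [hsm, hsm2, self_mem_nhdsWithin] with t ht ht2 ht0 z hz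
      have ht0' : t ≠ 0 := ht0
      have hn : 0 < ‖t‖ := norm_pos_iff.2 ht0'
      have e := schwarz2 (hf.mono ((hsub z hz).trans hs)) (fun v hv => hM v (hsub z hz hv))
        (hmem z t ht)
      rw [add_sub_cancel_left, map_smul, norm_smul, smul_eq_mul] at e
      have e' : t⁻¹ * (f (z + t • w) - f z) - fderiv ℂ f z w =
          t⁻¹ * (f (z + t • w) - f z - t * fderiv ℂ f z w) := by
        field_simp
      rw [dist_comm, dist_eq_norm, e', norm_mul, norm_inv]
      refine lt_of_le_of_lt ?_ ht2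
      rw [inv_mul_le_iff₀ hn]
      refine e.trans_eq ?_
      ring
  exact (hD.differentiableAt (ball_mem_nhds y hR2)).differentiableWithinAt

theorem hol_contDiffOn {V : Set C2} (hV : IsOpen V) {f : C2 → ℂ} (hf : DifferentiableOn ℂ f V) :
    ContDiffOn ℂ ∞ f V := by
  rw [contDiffOn_infty]
  intro n
  induction n generalizing f with
  | zero => exact contDiffOn_zero.2 hf.continuousOn
  | succ n ih =>
    rw [Nat.cast_succ, contDiffOn_succ_iff_fderiv_of_isOpen hV]
    exact ⟨hf, by simp, contDiffOn_clm_apply.2 fun w => ih (hol_fderiv hV hf w)⟩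

theorem hol_contDiffOn_real {V : Set C2} (hV : IsOpen V) {f : C2 → ℂ}
    (hf : DifferentiableOn ℂ f V) : ContDiffOn ℝ ∞ f V :=
  (hol_contDiffOn hV hf).restrict_scalars ℝ

open Real in
/-- mean value property on a disc -/
theorem mean1 {g : ℂ → ℂ} {c : ℂ} {r : ℝ} (hr : 0 < r) (hc : ContinuousOn g (closedBall c r))
    (hd : DifferentiableOn ℂ g (ball c r)) :
    ∫ z in ball c r, g z = ((π * r ^ 2 : ℝ) : ℂ) * g c := by
  have pol : ∀ p : ℝ × ℝ, Complex.polarCoord.symm p = circleMap 0 p.1 p.2 := fun p => by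
    rw [Complex.polarCoord_symm_apply, circleMap_zero, Complex.exp_mul_I]
    simp
  have e1 : ∫ z in ball c r, g z = ∫ z, (ball (0 : ℂ) r).indicator (fun z => g (c + z)) z := by
    rw [← integral_indicator measurableSet_ball, ← integral_add_left_eq_self _ c]
    congr 1
    funext z
    by_cases hz : z ∈ ball (0 : ℂ) r
    · rw [indicator_of_mem hz, indicator_of_mem]
      simpa [dist_eq_norm] using hz
    · rw [indicator_of_notMem hz, indicator_of_notMem]
      simpa [dist_eq_norm] using hz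
  rw [e1, ← Complex.integral_comp_polarCoord_symm, polarCoord_target]
  have e2 : ∫ p in Ioi (0 : ℝ) ×ˢ Ioo (-π) π,
      p.1 • (ball (0 : ℂ) r).indicator (fun z => g (c + z)) (Complex.polarCoord.symm p) =
      ∫ p in Ioo (0 : ℝ) r ×ˢ Ioo (-π) π, p.1 • g (circleMap c p.1 p.2) := by
    have hm : MeasurableSet {p : ℝ × ℝ | p.1 < r} :=
      measurableSet_lt measurable_fst measurable_const
    have : Ioo (0 : ℝ) r ×ˢ Ioo (-π) π =
        (Ioi (0 : ℝ) ×ˢ Ioo (-π) π) ∩ {p : ℝ × ℝ | p.1 < r} := by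
      ext p; simp only [mem_prod, mem_Ioo, mem_inter_iff, mem_Ioi, mem_ofPred_eq]; tauto
    rw [this, ← setIntegral_indicator hm]
    refine setIntegral_congr_fun (measurableSet_Ioi.prod measurableSet_Ioo) fun p hp => ?_
    have hp1 : 0 < p.1 := hp.1
    simp only [pol]
    by_cases h : p.1 < r
    · rw [indicator_of_mem (s := {p : ℝ × ℝ | p.1 < r}) h, indicator_of_mem]
      · simp [circleMap]
      · simpa [abs_of_pos hp1] using h
    · rw [indicator_of_notMem (s := {p : ℝ × ℝ | p.1 < r}) h, indicator_of_notMem]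
      · simp
      · simpa [abs_of_pos hp1] using h
  rw [e2]
  have hint : IntegrableOn (fun p : ℝ × ℝ => p.1 • g (circleMap c p.1 p.2))
      (Ioo (0 : ℝ) r ×ˢ Ioo (-π) π) (volume.prod volume) := by
    have hc' : ContinuousOn (fun p : ℝ × ℝ => p.1 • g (circleMap c p.1 p.2))
        (Icc (0 : ℝ) r ×ˢ Icc (-π) π) := by
      refine continuousOn_fst.smul (hc.comp circleMap.continuous.continuousOn fun p hp => ?_)
      exact closedBall_subset_closedBall hp.1.2 (circleMap_mem_closedBall c hp.1.1 _)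
    exact (hc'.integrableOn_compact (isCompact_Icc.prod isCompact_Icc)).mono_set
      (prod_mono Ioo_subset_Icc_self Ioo_subset_Icc_self)
  have inner : ∀ s ∈ Ioo (0 : ℝ) r,
      ∫ θ in Ioo (-π) π, s • g (circleMap c s θ) = s • ((2 * π) • g c) := by
    intro s hs
    have h1 : circleAverage g c s = g c := by
      apply DiffContOnCl.circleAverage
      rw [abs_of_pos hs.1]
      exact hd.diffContOnCl_ball (closedBall_subset_ball hs.2)
    rw [circleAverage_eq_integral_add (-π),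
      intervalIntegral.integral_comp_add_right (fun θ => g (circleMap c s θ))] at h1
    rw [integral_smul, ← integral_Ioc_eq_integral_Ioo,
      ← intervalIntegral.integral_of_le (by linarith [pi_pos]), ← h1, smul_smul (2 * π),
      mul_inv_cancel₀ (by positivity), one_smul, zero_add, show 2 * π + -π = π by ring]
  rw [Measure.volume_eq_prod, setIntegral_prod _ hint,
    setIntegral_congr_fun measurableSet_Ioo inner, integral_smul_const,
    ← integral_Ioc_eq_integral_Ioo, ← intervalIntegral.integral_of_le hr.le, integral_id,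
    smul_smul, Complex.real_smul]
  congr 2
  ring

lemma deriv_fst {f : C2 → ℂ} {q : C2} (hf : DifferentiableAt ℂ f q) :
    HasDerivAt (fun u => f (u, q.2)) (fderiv ℂ f q (1, 0)) q.1 :=
  HasFDerivAt.comp_hasDerivAt_of_eq q.1 hf.hasFDerivAt
    ((hasDerivAt_id q.1).prodMk (hasDerivAt_const q.1 q.2)) rfl

lemma deriv_snd {f : C2 → ℂ} {q : C2} (hf : DifferentiableAt ℂ f q) :
    HasDerivAt (fun u => f (q.1, u)) (fderiv ℂ f q (0, 1)) q.2 :=
  HasFDerivAt.comp_hasDerivAt_of_eq q.2 hf.hasFDerivAt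
    ((hasDerivAt_const q.2 q.1).prodMk (hasDerivAt_id q.2)) rfl

/-- the divided difference in the first variable -/
noncomputable def ds (H : C2 → ℂ) (q : C2) : ℂ := dslope (fun x => H (x, q.2)) 0 q.1

lemma mul_ds (H : C2 → ℂ) (q : C2) : q.1 * ds H q = H q - H (0, q.2) := by
  have := sub_smul_dslope (fun x => H (x, q.2)) 0 q.1
  simpa [ds] using this

lemma norm_ds_le {H : C2 → ℂ} {r M : ℝ} {q : C2} (hq : q.1 ∈ ball (0 : ℂ) r)
    (hH : DifferentiableOn ℂ (fun x => H (x, q.2)) (ball 0 r))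
    (hM : ∀ x ∈ ball (0 : ℂ) r, ‖H (x, q.2) - H (0, q.2)‖ ≤ M) : ‖ds H q‖ ≤ M / r :=
  Complex.norm_dslope_le_div_of_mapsTo_ball hH
    (fun x hx => by rw [mem_closedBall, dist_eq_norm]; exact hM x hx) hq

theorem differentiableOn_ds {H : C2 → ℂ} {r : ℝ} {T : Set ℂ} (hT : IsOpen T)
    (hH : DifferentiableOn ℂ H (ball 0 r ×ˢ T)) : DifferentiableOn ℂ (ds H) (ball 0 r ×ˢ T) := by
  have hV : IsOpen (ball (0 : ℂ) r ×ˢ T) := isOpen_ball.prod hT
  have hx : ∀ t ∈ T, DifferentiableOn ℂ (fun x => H (x, t)) (ball 0 r) := fun t ht =>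
    hH.comp (by fun_prop) fun x hx => ⟨hx, ht⟩
  have ht : ∀ x ∈ ball (0 : ℂ) r, DifferentiableOn ℂ (fun t => H (x, t)) T := fun x hx =>
    hH.comp (by fun_prop) fun t ht => ⟨hx, ht⟩
  refine osgood_bdd (fun y hy => ?_) (fun z hz => ?_) (fun z hz => ?_)
  · obtain ⟨r', h1, h2⟩ := exists_between (mem_ball_zero_iff.1 hy.1)
    obtain ⟨σ, hσ, hσT⟩ := nhds_basis_closedBall.mem_iff.1 (hT.mem_nhds hy.2)
    have hsub : closedBall (0 : ℂ) r' ×ˢ closedBall y.2 σ ⊆ ball 0 r ×ˢ T :=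
      prod_mono (closedBall_subset_ball h2) hσT
    obtain ⟨M, hM⟩ := ((isCompact_closedBall (0 : ℂ) r').prod
      (isCompact_closedBall y.2 σ)).exists_bound_of_continuousOn (hH.continuousOn.mono hsub)
    have hr' : 0 < r' := (norm_nonneg _).trans_lt h1
    have hm : ∀ z ∈ ball y (min (r' - ‖y.1‖) σ), z.1 ∈ ball (0 : ℂ) r' ∧ z.2 ∈ closedBall y.2 σ := by
      intro z hz
      obtain ⟨a, b⟩ := mem_ball_prod.1 (show (z.1, z.2) ∈ _ from hz)
      refine ⟨?_, ball_subset_closedBall (ball_subset_ball (min_le_right _ _) b)⟩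
      have := lt_of_lt_of_le (mem_ball.1 a) (min_le_left _ _)
      rw [mem_ball_zero_iff]
      rw [dist_eq_norm] at this
      linarith [norm_sub_norm_le z.1 y.1]
    refine ⟨min (r' - ‖y.1‖) σ, 2 * M / r', lt_min (by linarith) hσ,
      fun z hz => hsub ⟨ball_subset_closedBall (hm z hz).1, (hm z hz).2⟩, fun z hz => ?_⟩
    refine norm_ds_le (hm z hz).1 ((hx _ (hσT (hm z hz).2)).mono (ball_subset_ball h2.le))
      fun x hx => ?_
    have a := hM (x, z.2) ⟨ball_subset_closedBall hx, (hm z hz).2⟩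
    have b := hM (0, z.2) ⟨mem_closedBall_self hr'.le, (hm z hz).2⟩
    linarith [norm_sub_le (H (x, z.2)) (H (0, z.2))]
  · have h0 : ball (0 : ℂ) r ∈ 𝓝 (0 : ℂ) := ball_mem_nhds _ (nonempty_ball.1 ⟨_, hz.1⟩)
    exact ((Complex.differentiableOn_dslope h0).2 (hx _ hz.2)).differentiableAt
      (isOpen_ball.mem_nhds hz.1)
  · have h0 : (0 : ℂ) ∈ ball (0 : ℂ) r := mem_ball_self (nonempty_ball.1 ⟨_, hz.1⟩)
    by_cases h : z.1 = 0
    · have d : DifferentiableOn ℂ (fun t => fderiv ℂ H (0, t) (1, 0)) T :=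
        (hol_fderiv hV hH (1, 0)).comp (by fun_prop) fun t ht => ⟨h0, ht⟩
      refine (d.differentiableAt (hT.mem_nhds hz.2)).congr_of_eventuallyEq ?_
      filter_upwards [hT.mem_nhds hz.2] with t ht
      simp only [ds, h, dslope_same]
      exact (deriv_fst (q := (0, t)) (hH.differentiableAt (hV.mem_nhds ⟨h0, ht⟩))).deriv
    · have d : DifferentiableOn ℂ (fun t => (z.1)⁻¹ * (H (z.1, t) - H (0, t))) T :=
        ((ht _ hz.1).sub (ht _ h0)).const_mul _
      refine (d.differentiableAt (hT.mem_nhds hz.2)).congr_of_eventuallyEq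
        (Eventually.of_forall fun t => ?_)
      have := mul_ds H (z.1, t)
      simp only at this ⊢
      rw [← this, inv_mul_cancel_left₀ h]

end Pool.Agent.MP_6c43ae_an.Ct
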