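import Mathlib

/-! Wirtinger derivatives and the Cauchy-Pompeiu formula (the proof of the formula is copied from
the library of MP_8ac6f3_ag). -/

set_option autoImplicit false

open MeasureTheory Set Complex Filter Topology Metric
open scoped ComplexConjugate ContDiff

namespace Pool.Agent.MP_6c43ae_an.Ct

/-- the antiholomorphic Wirtinger derivative -/
noncomputable def dbar (φ : ℂ → ℂ) (x : ℂ) : ℂ := (fderiv ℝ φ x 1 + I * fderiv ℝ φ x I) / 2

lemma clm_apply_eq {E : Type*} [NormedAddCommGroup E] [NormedSpace ℝ E] (L : ℂ →L[ℝ] E) (v : ℂ) :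
    L v = v.re • L 1 + v.im • L I := by
  rw [← map_smul, ← map_smul, ← map_add]
  congr 1
  apply Complex.ext <;> simp

lemma continuous_dbar {φ : ℂ → ℂ} (hφ : ContDiff ℝ 1 φ) : Continuous (dbar φ) := by
  have := hφ.continuous_fderiv (by norm_num)
  unfold dbar
  fun_prop

lemma hasCompactSupport_dbar {φ : ℂ → ℂ} (hc : HasCompactSupport φ) : HasCompactSupport (dbar φ) := by
  refine (hc.fderiv (𝕜 := ℝ)).mono fun x hx => ?_
  intro h
  apply hx
  simp [dbar, h]

lemma integrable_dbar {φ : ℂ → ℂ} (hφ : ContDiff ℝ 1 φ) (hc : HasCompactSupport φ) :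
    Integrable (dbar φ) :=
  (continuous_dbar hφ).integrable_of_hasCompactSupport (hasCompactSupport_dbar hc)

/-- the unit vector of angle `θ` -/
noncomputable def ee (θ : ℝ) : ℂ := Real.cos θ + Real.sin θ * I

lemma norm_ee (θ : ℝ) : ‖ee θ‖ = 1 := by
  unfold ee
  rw [Complex.ofReal_cos, Complex.ofReal_sin, Complex.norm_cos_add_sin_mul_I]

lemma continuous_ee : Continuous ee := by unfold ee; fun_prop

lemma hasDerivAt_ee (θ : ℝ) : HasDerivAt ee (I * ee θ) θ := by
  have h := ((Real.hasDerivAt_cos θ).ofReal_comp).add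
    (((Real.hasDerivAt_sin θ).ofReal_comp).mul_const I)
  refine h.congr_deriv ?_
  unfold ee
  push_cast
  linear_combination (-Complex.sin θ) * I_mul_I

theorem pompeiu_zero {φ : ℂ → ℂ} (hφ : ContDiff ℝ 1 φ) (hc : HasCompactSupport φ) :
    ∫ x, dbar φ x * x⁻¹ = -Real.pi * φ 0 := by
  have hD := hφ.continuous_fderiv (by norm_num)
  have hd := hφ.differentiable (by norm_num)
  obtain ⟨R, hR, hR0⟩ := (hc.fderiv (𝕜 := ℝ)).exists_pos_le_norm
  obtain ⟨R', hR', hR0'⟩ := hc.exists_pos_le_norm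
  have hce := continuous_ee
  have hn : ∀ (r θ : ℝ), 0 ≤ r → ‖(r : ℂ) * ee θ‖ = r := fun r θ hr => by
    rw [norm_mul, norm_ee, mul_one, Complex.norm_real, Real.norm_eq_abs, abs_of_nonneg hr]
  have hint : ∀ w : ℝ → ℂ, Continuous w → IntegrableOn
      (fun p : ℝ × ℝ => fderiv ℝ φ (p.1 * ee p.2) (w p.2)) (Ioi 0 ×ˢ Ioo (-Real.pi) Real.pi)
      (volume.prod volume) := by
    intro w hw
    have h1 : IntegrableOn (fun p : ℝ × ℝ => fderiv ℝ φ (p.1 * ee p.2) (w p.2))
        (Icc 0 R ×ˢ Icc (-Real.pi) Real.pi) (volume.prod volume) :=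
      ContinuousOn.integrableOn_compact (isCompact_Icc.prod isCompact_Icc)
        (Continuous.continuousOn (by fun_prop))
    refine h1.of_forall_sdiff_eq_zero (measurableSet_Ioi.prod measurableSet_Ioo) fun p hp => ?_
    have h2 : R ≤ p.1 := by
      by_contra h3
      exact hp.2 ⟨⟨le_of_lt hp.1.1, (not_le.1 h3).le⟩, Ioo_subset_Icc_self hp.1.2⟩
    rw [hR0 _ (by rw [hn _ _ (le_of_lt hp.1.1)]; exact h2)]
    simp
  have i1 := hint ee hce
  have i2 := hint (fun θ => I * ee θ) (by fun_prop)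
  have a1 : ∫ p in Ioi (0 : ℝ) ×ˢ Ioo (-Real.pi) Real.pi, fderiv ℝ φ (p.1 * ee p.2) (ee p.2)
      ∂(volume.prod volume) = -(2 * Real.pi) * φ 0 := by
    have i1' := i1
    rw [IntegrableOn, ← Measure.prod_restrict] at i1'
    rw [← Measure.prod_restrict, integral_prod_symm _ i1']
    have : ∀ θ : ℝ, ∫ r in Ioi (0 : ℝ), fderiv ℝ φ (r * ee θ) (ee θ) = -φ 0 := by
      intro θ
      have b1 : ∀ r : ℝ, HasDerivAt (fun r : ℝ => φ (r * ee θ)) (fderiv ℝ φ (r * ee θ) (ee θ)) r := by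
        intro r
        have c1 : HasDerivAt (fun r : ℝ => (r : ℂ) * ee θ) (ee θ) r := by
          simpa using ((hasDerivAt_id r).ofReal_comp).mul_const (ee θ)
        exact (hd _).hasFDerivAt.comp_hasDerivAt r c1
      have b2 : IntegrableOn (fun r : ℝ => fderiv ℝ φ (r * ee θ) (ee θ)) (Ioi 0) := by
        have c1 : IntegrableOn (fun r : ℝ => fderiv ℝ φ (r * ee θ) (ee θ)) (Icc 0 R) :=
          Continuous.integrableOn_Icc (by fun_prop)
        refine c1.of_forall_sdiff_eq_zero measurableSet_Ioi fun r hr => ?_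
        have h2 : R ≤ r := by
          by_contra h3
          exact hr.2 ⟨le_of_lt hr.1, (not_le.1 h3).le⟩
        rw [hR0 _ (by rw [hn _ _ (le_of_lt hr.1)]; exact h2)]
        simp
      have b3 : Tendsto (fun r : ℝ => φ (r * ee θ)) atTop (𝓝 0) := by
        refine tendsto_const_nhds.congr' ?_
        filter_upwards [eventually_ge_atTop R'] with r hr
        rw [hR0' _ (by rw [hn _ _ (hR'.le.trans hr)]; exact hr)]
      simpa using integral_Ioi_of_hasDerivAt_of_tendsto' (fun r _ => b1 r) b2 b3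
    simp only [this, integral_const, Measure.real, Measure.restrict_apply MeasurableSet.univ,
      univ_inter, Real.volume_Ioo]
    rw [ENNReal.toReal_ofReal (by linarith [Real.pi_pos]), real_smul]
    push_cast
    ring
  have a2 : ∫ p in Ioi (0 : ℝ) ×ˢ Ioo (-Real.pi) Real.pi, fderiv ℝ φ (p.1 * ee p.2) (I * ee p.2)
      ∂(volume.prod volume) = 0 := by
    rw [setIntegral_prod _ i2]
    refine setIntegral_eq_zero_of_forall_eq_zero fun r hr => ?_
    have hr0 : (r : ℝ) ≠ 0 := ne_of_gt hr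
    have b1 : ∀ θ : ℝ, HasDerivAt (fun θ : ℝ => r⁻¹ • φ (r * ee θ))
        (fderiv ℝ φ (r * ee θ) (I * ee θ)) θ := by
      intro θ
      have c1 := ((hd _).hasFDerivAt.comp_hasDerivAt θ
        ((hasDerivAt_ee θ).const_mul (r : ℂ))).const_smul r⁻¹
      refine c1.congr_deriv ?_
      rw [← real_smul (z := I * ee θ), map_smul, smul_smul, inv_mul_cancel₀ hr0, one_smul]
    rw [← integral_Ioc_eq_integral_Ioo,
      ← intervalIntegral.integral_of_le (by linarith [Real.pi_pos]),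
      intervalIntegral.integral_eq_sub_of_hasDerivAt (fun θ _ => b1 θ)
        (Continuous.intervalIntegrable (by fun_prop) _ _)]
    simp [ee]
  rw [← Complex.integral_comp_polarCoord_symm, polarCoord_target, Measure.volume_eq_prod,
    setIntegral_congr_fun (measurableSet_Ioi.prod measurableSet_Ioo)
      (g := fun p : ℝ × ℝ => (fderiv ℝ φ (p.1 * ee p.2) (ee p.2) +
        I * fderiv ℝ φ (p.1 * ee p.2) (I * ee p.2)) / 2),
    integral_div, integral_add i1 (i2.const_mul I), integral_const_mul, a1, a2]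
  · ring
  · intro p hp
    have hr0 : (p.1 : ℂ) ≠ 0 := by exact_mod_cast ne_of_gt hp.1
    have e0 : Complex.polarCoord.symm p = p.1 * ee p.2 := by simp [ee]
    have e1 : (ee p.2)⁻¹ = Real.cos p.2 - Real.sin p.2 * I := by
      refine inv_eq_of_mul_eq_one_right ?_
      unfold ee
      have : (Real.cos p.2 : ℂ) ^ 2 + (Real.sin p.2 : ℂ) ^ 2 = 1 := by
        exact_mod_cast Real.cos_sq_add_sin_sq p.2
      linear_combination this - (Real.sin p.2 : ℂ) ^ 2 * I_mul_I
    simp only [e0]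
    rw [clm_apply_eq _ (ee p.2), clm_apply_eq _ (I * ee p.2), mul_inv, e1, dbar]
    simp only [ee, real_smul, add_re, ofReal_re, mul_re, I_re, mul_zero, ofReal_im, I_im, mul_one,
      sub_self, add_zero, add_im, mul_im, zero_add, zero_mul, one_mul, zero_sub, ofReal_neg]
    field_simp
    linear_combination (-(Real.sin p.2 : ℂ) *
      fderiv ℝ φ (p.1 * (Real.cos p.2 + Real.sin p.2 * I)) I) * I_mul_I

theorem pompeiu {φ : ℂ → ℂ} (hφ : ContDiff ℝ 1 φ) (hc : HasCompactSupport φ) (y : ℂ) :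
    ∫ x, dbar φ x * (x - y)⁻¹ = -Real.pi * φ y := by
  have h1 := pompeiu_zero (φ := fun x => φ (x + y)) (hφ.comp (by fun_prop))
    (hc.comp_homeomorph (Homeomorph.addRight y))
  rw [zero_add] at h1
  rw [← h1, ← integral_add_right_eq_self _ y]
  congr 1
  ext x
  simp only [dbar, fderiv_comp_add_right, add_sub_cancel_right]

lemma dbar_mul {f g : ℂ → ℂ} {z : ℂ} (hf : DifferentiableAt ℝ f z) (hg : DifferentiableAt ℝ g z) :
    dbar (fun w => f w * g w) z = dbar f z * g z + f z * dbar g z := by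
  unfold dbar
  rw [fderiv_fun_mul hf hg]
  simp only [add_apply, smul_apply, smul_eq_mul]
  ring

lemma dbar_congr {f g : ℂ → ℂ} {z : ℂ} (h : f =ᶠ[𝓝 z] g) : dbar f z = dbar g z := by
  unfold dbar
  rw [h.fderiv_eq]

lemma dbar_const (c z : ℂ) : dbar (fun _ => c) z = 0 := by simp [dbar]

lemma norm_dbar_le (f : ℂ → ℂ) (z : ℂ) : ‖dbar f z‖ ≤ ‖fderiv ℝ f z‖ := by
  have h1 := (fderiv ℝ f z).le_opNorm 1
  have h2 := (fderiv ℝ f z).le_opNorm I
  have h3 := norm_add_le (fderiv ℝ f z 1) (I * fderiv ℝ f z I)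
  rw [norm_mul, norm_I, one_mul] at h3
  rw [norm_one, mul_one] at h1
  rw [norm_I, mul_one] at h2
  rw [dbar, norm_div, Complex.norm_ofNat]
  linarith

/-- the holomorphic Wirtinger derivative -/
noncomputable def dz (φ : ℂ → ℂ) (x : ℂ) : ℂ := (fderiv ℝ φ x 1 - I * fderiv ℝ φ x I) / 2

lemma dz_mul {f g : ℂ → ℂ} {z : ℂ} (hf : DifferentiableAt ℝ f z) (hg : DifferentiableAt ℝ g z) :
    dz (fun w => f w * g w) z = dz f z * g z + f z * dz g z := by
  unfold dz
  rw [fderiv_fun_mul hf hg]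
  simp only [add_apply, smul_apply, smul_eq_mul]
  ring

lemma dz_congr {f g : ℂ → ℂ} {z : ℂ} (h : f =ᶠ[𝓝 z] g) : dz f z = dz g z := by
  unfold dz
  rw [h.fderiv_eq]

lemma dz_const (c z : ℂ) : dz (fun _ => c) z = 0 := by simp [dz]

lemma dbar_add {f g : ℂ → ℂ} {z : ℂ} (hf : DifferentiableAt ℝ f z) (hg : DifferentiableAt ℝ g z) :
    dbar (fun w => f w + g w) z = dbar f z + dbar g z := by
  unfold dbar
  rw [fderiv_fun_add hf hg]
  simp only [add_apply]
  ring

lemma dz_add {f g : ℂ → ℂ} {z : ℂ} (hf : DifferentiableAt ℝ f z) (hg : DifferentiableAt ℝ g z) :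
    dz (fun w => f w + g w) z = dz f z + dz g z := by
  unfold dz
  rw [fderiv_fun_add hf hg]
  simp only [add_apply]
  ring

lemma dbar_const_mul (c : ℂ) {f : ℂ → ℂ} {z : ℂ} (hf : DifferentiableAt ℝ f z) :
    dbar (fun w => c * f w) z = c * dbar f z := by
  rw [dbar_mul (differentiableAt_const c) hf, dbar_const]; ring

lemma dz_const_mul (c : ℂ) {f : ℂ → ℂ} {z : ℂ} (hf : DifferentiableAt ℝ f z) :
    dz (fun w => c * f w) z = c * dz f z := by
  rw [dz_mul (differentiableAt_const c) hf, dz_const]; ring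

/-- a real derivative in terms of the two Wirtinger derivatives -/
lemma fderiv_eq_dz_dbar (f : ℂ → ℂ) (z v : ℂ) :
    fderiv ℝ f z v = dz f z * v + dbar f z * conj v := by
  rw [clm_apply_eq (fderiv ℝ f z) v, dz, dbar]
  have h1 : (v.re : ℂ) = (v + conj v) / 2 := by rw [Complex.add_conj]; push_cast; ring
  have h2 : (v.im : ℂ) = (v - conj v) / (2 * I) := by
    rw [Complex.sub_conj]; push_cast; field_simp
  rw [real_smul, real_smul, h1, h2]
  field_simp
  linear_combination (fderiv ℝ f z I * (v - conj v)) * I_mul_I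

lemma fderiv_real_of_hol {f : ℂ → ℂ} {z : ℂ} (hf : DifferentiableAt ℂ f z) (v : ℂ) :
    fderiv ℝ f z v = deriv f z * v := by
  rw [(hf.hasDerivAt.hasFDerivAt.restrictScalars ℝ).fderiv]
  simp [mul_comm]

lemma dbar_hol {f : ℂ → ℂ} {z : ℂ} (hf : DifferentiableAt ℂ f z) : dbar f z = 0 := by
  rw [dbar, fderiv_real_of_hol hf, fderiv_real_of_hol hf]
  linear_combination (deriv f z / 2) * I_mul_I

lemma dz_hol {f : ℂ → ℂ} {z : ℂ} (hf : DifferentiableAt ℂ f z) : dz f z = deriv f z := by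
  rw [dz, fderiv_real_of_hol hf, fderiv_real_of_hol hf]
  linear_combination (-deriv f z / 2) * I_mul_I

lemma fderiv_conj (f : ℂ → ℂ) (z v : ℂ) :
    fderiv ℝ (fun w => conj (f w)) z v = conj (fderiv ℝ f z v) := by
  have := conjCLE.comp_fderiv (f := f) (x := z)
  exact congrArg (fun L : ℂ →L[ℝ] ℂ => L v) this

lemma dbar_conj (f : ℂ → ℂ) (z : ℂ) : dbar (fun w => conj (f w)) z = conj (dz f z) := by
  simp [dbar, dz, fderiv_conj, map_ofNat]

lemma dz_conj (f : ℂ → ℂ) (z : ℂ) : dz (fun w => conj (f w)) z = conj (dbar f z) := by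
  simp [dbar, dz, fderiv_conj, map_ofNat, sub_eq_add_neg]

/-- chain rule, outer function holomorphic -/
lemma dbar_hol_comp {g f : ℂ → ℂ} {z : ℂ} (hg : DifferentiableAt ℂ g (f z))
    (hf : DifferentiableAt ℝ f z) : dbar (fun w => g (f w)) z = deriv g (f z) * dbar f z := by
  have h : fderiv ℝ (fun w => g (f w)) z = _ :=
    ((hg.restrictScalars ℝ).hasFDerivAt.comp z hf.hasFDerivAt).fderiv
  simp only [dbar, h, ContinuousLinearMap.comp_apply, fderiv_real_of_hol hg]
  ring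

lemma dz_hol_comp {g f : ℂ → ℂ} {z : ℂ} (hg : DifferentiableAt ℂ g (f z))
    (hf : DifferentiableAt ℝ f z) : dz (fun w => g (f w)) z = deriv g (f z) * dz f z := by
  have h : fderiv ℝ (fun w => g (f w)) z = _ :=
    ((hg.restrictScalars ℝ).hasFDerivAt.comp z hf.hasFDerivAt).fderiv
  simp only [dz, h, ContinuousLinearMap.comp_apply, fderiv_real_of_hol hg]
  ring

/-- chain rule, inner function holomorphic -/
lemma dbar_comp_hol {g f : ℂ → ℂ} {z : ℂ} (hg : DifferentiableAt ℝ g (f z))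
    (hf : DifferentiableAt ℂ f z) :
    dbar (fun w => g (f w)) z = dbar g (f z) * conj (deriv f z) := by
  have h : fderiv ℝ (fun w => g (f w)) z = _ :=
    (hg.hasFDerivAt.comp z (hf.restrictScalars ℝ).hasFDerivAt).fderiv
  rw [dbar, h]
  simp only [ContinuousLinearMap.comp_apply, fderiv_real_of_hol hf, fderiv_eq_dz_dbar g, map_mul,
    conj_I, map_one]
  linear_combination ((dz g (f z) * deriv f z - dbar g (f z) * conj (deriv f z)) / 2) * I_mul_I

lemma dz_comp_hol {g f : ℂ → ℂ} {z : ℂ} (hg : DifferentiableAt ℝ g (f z))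
    (hf : DifferentiableAt ℂ f z) : dz (fun w => g (f w)) z = dz g (f z) * deriv f z := by
  have h : fderiv ℝ (fun w => g (f w)) z = _ :=
    (hg.hasFDerivAt.comp z (hf.restrictScalars ℝ).hasFDerivAt).fderiv
  rw [dz, h]
  simp only [ContinuousLinearMap.comp_apply, fderiv_real_of_hol hf, fderiv_eq_dz_dbar g, map_mul,
    conj_I, map_one]
  linear_combination ((-dz g (f z) * deriv f z + dbar g (f z) * conj (deriv f z)) / 2) * I_mul_I

lemma hasFDerivAt_slice (z : ℂ) : HasFDerivAt (fun w : ℂ => (w, conj w))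
    ((ContinuousLinearMap.id ℝ ℂ).prod (conjCLE : ℂ →L[ℝ] ℂ)) z :=
  (hasFDerivAt_id z).prodMk conjCLE.hasFDerivAt

lemma fderiv_slice {F : ℂ × ℂ → ℂ} {z : ℂ} (hF : DifferentiableAt ℂ F (z, conj z)) (v : ℂ) :
    fderiv ℝ (fun w => F (w, conj w)) z v
      = fderiv ℂ F (z, conj z) (1, 0) * v + fderiv ℂ F (z, conj z) (0, 1) * conj v := by
  have h : fderiv ℝ (fun w => F (w, conj w)) z = _ :=
    ((hF.hasFDerivAt.restrictScalars ℝ).comp z (hasFDerivAt_slice z)).fderiv
  rw [h]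
  have e : ((v, conj v) : ℂ × ℂ) = v • ((1, 0) : ℂ × ℂ) + conj v • ((0, 1) : ℂ × ℂ) := by simp
  change fderiv ℂ F (z, conj z) (v, conj v) = _
  rw [e, map_add, map_smul, map_smul, smul_eq_mul, smul_eq_mul]
  ring

/-- restriction of a holomorphic function of two variables to the antidiagonal -/
lemma dbar_slice {F : ℂ × ℂ → ℂ} {z : ℂ} (hF : DifferentiableAt ℂ F (z, conj z)) :
    dbar (fun w => F (w, conj w)) z = fderiv ℂ F (z, conj z) (0, 1) := by
  rw [dbar, fderiv_slice hF, fderiv_slice hF]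
  simp only [map_one, conj_I]
  linear_combination
    ((fderiv ℂ F (z, conj z) (1, 0) - fderiv ℂ F (z, conj z) (0, 1)) / 2) * I_mul_I

lemma dz_slice {F : ℂ × ℂ → ℂ} {z : ℂ} (hF : DifferentiableAt ℂ F (z, conj z)) :
    dz (fun w => F (w, conj w)) z = fderiv ℂ F (z, conj z) (1, 0) := by
  rw [dz, fderiv_slice hF, fderiv_slice hF]
  simp only [map_one, conj_I]
  linear_combination
    ((-fderiv ℂ F (z, conj z) (1, 0) + fderiv ℂ F (z, conj z) (0, 1)) / 2) * I_mul_I

lemma contDiffAt_fderiv_apply {f : ℂ → ℂ} {z : ℂ} {m n : WithTop ℕ∞} (hf : ContDiffAt ℝ n f z)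
    (h : m + 1 ≤ n) (v : ℂ) : ContDiffAt ℝ m (fun w => fderiv ℝ f w v) z :=
  (hf.fderiv_right h).clm_apply contDiffAt_const

lemma contDiffAt_dbar {f : ℂ → ℂ} {z : ℂ} {m n : WithTop ℕ∞} (hf : ContDiffAt ℝ n f z)
    (h : m + 1 ≤ n) : ContDiffAt ℝ m (dbar f) z :=
  ((contDiffAt_fderiv_apply hf h 1).add
    (contDiffAt_const.mul (contDiffAt_fderiv_apply hf h I))).div_const 2

lemma contDiffAt_dz {f : ℂ → ℂ} {z : ℂ} {m n : WithTop ℕ∞} (hf : ContDiffAt ℝ n f z)
    (h : m + 1 ≤ n) : ContDiffAt ℝ m (dz f) z :=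
  ((contDiffAt_fderiv_apply hf h 1).sub
    (contDiffAt_const.mul (contDiffAt_fderiv_apply hf h I))).div_const 2

lemma fderiv_fderiv_apply {f : ℂ → ℂ} {z : ℂ} (hf : ContDiffAt ℝ 2 f z) (v w : ℂ) :
    fderiv ℝ (fun x => fderiv ℝ f x v) z w = fderiv ℝ (fderiv ℝ f) z w v := by
  have h1 : DifferentiableAt ℝ (fderiv ℝ f) z :=
    (hf.fderiv_right (m := 1) le_rfl).differentiableAt one_ne_zero
  rw [fderiv_clm_apply h1 (differentiableAt_const v)]
  simp

lemma fderiv_dbar {f : ℂ → ℂ} {z : ℂ} (hf : ContDiffAt ℝ 2 f z) (w : ℂ) :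
    fderiv ℝ (dbar f) z w
      = (fderiv ℝ (fderiv ℝ f) z w 1 + I * fderiv ℝ (fderiv ℝ f) z w I) / 2 := by
  have d : ∀ v, DifferentiableAt ℝ (fun x => fderiv ℝ f x v) z := fun v =>
    (contDiffAt_fderiv_apply hf (m := 1) le_rfl v).differentiableAt one_ne_zero
  have h := (((d 1).hasFDerivAt.add ((d I).hasFDerivAt.const_mul I)).mul_const (2⁻¹ : ℂ)).fderiv
  have e : dbar f = fun x => (fderiv ℝ f x 1 + I * fderiv ℝ f x I) * 2⁻¹ := by
    ext x; rw [dbar, div_eq_mul_inv]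
  rw [e]
  erw [h]
  simp only [smul_apply, add_apply, smul_eq_mul, fderiv_fderiv_apply hf]
  ring

lemma fderiv_dz {f : ℂ → ℂ} {z : ℂ} (hf : ContDiffAt ℝ 2 f z) (w : ℂ) :
    fderiv ℝ (dz f) z w
      = (fderiv ℝ (fderiv ℝ f) z w 1 - I * fderiv ℝ (fderiv ℝ f) z w I) / 2 := by
  have d : ∀ v, DifferentiableAt ℝ (fun x => fderiv ℝ f x v) z := fun v =>
    (contDiffAt_fderiv_apply hf (m := 1) le_rfl v).differentiableAt one_ne_zero
  have h := (((d 1).hasFDerivAt.sub ((d I).hasFDerivAt.const_mul I)).mul_const (2⁻¹ : ℂ)).fderiv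
  have e : dz f = fun x => (fderiv ℝ f x 1 - I * fderiv ℝ f x I) * 2⁻¹ := by
    ext x; rw [dz, div_eq_mul_inv]
  rw [e]
  erw [h]
  simp only [smul_apply, sub_apply, smul_eq_mul, fderiv_fderiv_apply hf]
  ring

lemma dz_dbar {f : ℂ → ℂ} {z : ℂ} (hf : ContDiffAt ℝ 2 f z) :
    dz (dbar f) z = Laplacian.laplacian f z / 4 := by
  have hs := hf.isSymmSndFDerivAt (by simp)
  rw [dz, fderiv_dbar hf, fderiv_dbar hf, InnerProductSpace.laplacian_eq_iteratedFDeriv_complexPlane]
  simp only [iteratedFDeriv_two_apply, Matrix.cons_val_zero, Matrix.cons_val_one]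
  rw [hs.eq I 1]
  linear_combination (-fderiv ℝ (fderiv ℝ f) z I I / 4) * I_mul_I

lemma dbar_dz {f : ℂ → ℂ} {z : ℂ} (hf : ContDiffAt ℝ 2 f z) :
    dbar (dz f) z = Laplacian.laplacian f z / 4 := by
  have hs := hf.isSymmSndFDerivAt (by simp)
  rw [dbar, fderiv_dz hf, fderiv_dz hf, InnerProductSpace.laplacian_eq_iteratedFDeriv_complexPlane]
  simp only [iteratedFDeriv_two_apply, Matrix.cons_val_zero, Matrix.cons_val_one]
  rw [hs.eq I 1]
  linear_combination (-fderiv ℝ (fderiv ℝ f) z I I / 4) * I_mul_I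

lemma laplacian_ofReal {φ : ℂ → ℝ} {z : ℂ} (hφ : ContDiffAt ℝ 2 φ z) :
    Laplacian.laplacian (fun w => (φ w : ℂ)) z = (Laplacian.laplacian φ z : ℝ) :=
  hφ.laplacian_CLM_comp_left (l := ofRealCLM)

lemma continuous_dz {φ : ℂ → ℂ} (hφ : ContDiff ℝ 1 φ) : Continuous (dz φ) := by
  have := hφ.continuous_fderiv (by norm_num)
  unfold dz
  fun_prop

lemma hasCompactSupport_dz {φ : ℂ → ℂ} (hc : HasCompactSupport φ) : HasCompactSupport (dz φ) := by
  refine (hc.fderiv (𝕜 := ℝ)).mono fun x hx => ?_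
  intro h
  apply hx
  simp [dz, h]

lemma integral_fderiv_eq_zero {φ : ℂ → ℂ} (hφ : ContDiff ℝ 1 φ) (hc : HasCompactSupport φ)
    (v : ℂ) : ∫ x, fderiv ℝ φ x v = 0 := by
  have h1 : Integrable (fun x => fderiv ℝ φ x v) := by
    have := hφ.continuous_fderiv (by norm_num)
    exact Continuous.integrable_of_hasCompactSupport (by fun_prop) (hc.fderiv_apply ℝ v)
  have := integral_mul_fderiv_eq_neg_fderiv_mul_of_integrable (μ := (volume : Measure ℂ))
    (f := fun _ : ℂ => (1 : ℂ)) (g := φ) (v := v) (by simp) (by simpa using h1)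
    (by simpa using hφ.continuous.integrable_of_hasCompactSupport hc)
    (fun _ _ => differentiableAt_const _) (fun x _ => hφ.differentiable one_ne_zero x)
  simpa using this

lemma integral_dbar_eq_zero {φ : ℂ → ℂ} (hφ : ContDiff ℝ 1 φ) (hc : HasCompactSupport φ) :
    ∫ x, dbar φ x = 0 := by
  have hD := hφ.continuous_fderiv (by norm_num)
  have h1 : ∀ v, Integrable (fun x => fderiv ℝ φ x v) := fun v =>
    Continuous.integrable_of_hasCompactSupport (by fun_prop) (hc.fderiv_apply ℝ v)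
  simp only [dbar]
  rw [integral_div, integral_add (h1 1) ((h1 I).const_mul I), integral_const_mul,
    integral_fderiv_eq_zero hφ hc, integral_fderiv_eq_zero hφ hc]
  simp

lemma integral_dz_eq_zero {φ : ℂ → ℂ} (hφ : ContDiff ℝ 1 φ) (hc : HasCompactSupport φ) :
    ∫ x, dz φ x = 0 := by
  have hD := hφ.continuous_fderiv (by norm_num)
  have h1 : ∀ v, Integrable (fun x => fderiv ℝ φ x v) := fun v =>
    Continuous.integrable_of_hasCompactSupport (by fun_prop) (hc.fderiv_apply ℝ v)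
  simp only [dz]
  rw [integral_div, integral_sub (h1 1) ((h1 I).const_mul I), integral_const_mul,
    integral_fderiv_eq_zero hφ hc, integral_fderiv_eq_zero hφ hc]
  simp

/-- integration by parts -/
lemma integral_dbar_mul {f g : ℂ → ℂ} (hf : ContDiff ℝ 1 f) (hg : ContDiff ℝ 1 g)
    (hc : HasCompactSupport f) : ∫ x, dbar f x * g x = -∫ x, f x * dbar g x := by
  have h := integral_dbar_eq_zero (hf.mul hg) hc.mul_right
  simp only [dbar_mul (hf.differentiable one_ne_zero _) (hg.differentiable one_ne_zero _)] at h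
  rw [integral_add] at h
  · exact eq_neg_of_add_eq_zero_left h
  · exact ((continuous_dbar hf).mul hg.continuous).integrable_of_hasCompactSupport
      (hasCompactSupport_dbar hc).mul_right
  · exact (hf.continuous.mul (continuous_dbar hg)).integrable_of_hasCompactSupport hc.mul_right

lemma integral_dz_mul {f g : ℂ → ℂ} (hf : ContDiff ℝ 1 f) (hg : ContDiff ℝ 1 g)
    (hc : HasCompactSupport f) : ∫ x, dz f x * g x = -∫ x, f x * dz g x := by
  have h := integral_dz_eq_zero (hf.mul hg) hc.mul_right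
  simp only [dz_mul (hf.differentiable one_ne_zero _) (hg.differentiable one_ne_zero _)] at h
  rw [integral_add] at h
  · exact eq_neg_of_add_eq_zero_left h
  · exact ((continuous_dz hf).mul hg.continuous).integrable_of_hasCompactSupport
      (hasCompactSupport_dz hc).mul_right
  · exact (hf.continuous.mul (continuous_dz hg)).integrable_of_hasCompactSupport hc.mul_right

/-- a family of smooth cut-off functions -/
lemma exists_chi : ∃ C : ℝ, 0 < C ∧ ∀ ρ : ℝ, 0 < ρ → ∃ χ : ℂ → ℂ, ContDiff ℝ ∞ χ ∧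
    (∀ w, ‖w‖ < 2 * ρ → χ w = 1) ∧ (∀ w, 3 * ρ ≤ ‖w‖ → χ w = 0) ∧ (∀ w, ‖χ w‖ ≤ 1) ∧
    (∀ w, conj (χ w) = χ w) ∧ ∀ w, ‖dbar χ w‖ ≤ C / ρ := by
  let b : ContDiffBump (0 : ℂ) := ⟨2, 3, by norm_num, by norm_num⟩
  have hb : ContDiff ℝ ∞ (fun w => (b w : ℂ)) := ofRealCLM.contDiff.comp b.contDiff
  have hc : HasCompactSupport (fun w => (b w : ℂ)) :=
    b.hasCompactSupport.comp_left (g := fun x : ℝ => (x : ℂ)) ofReal_zero
  obtain ⟨C, hC⟩ := (hb.continuous_fderiv (by simp)).bounded_above_of_compact_support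
    (hc.fderiv ℝ)
  refine ⟨C + 1, by linarith [(norm_nonneg _).trans (hC 0)], fun ρ hρ => ?_⟩
  have hn : ∀ w : ℂ, ‖ρ⁻¹ • w‖ = ‖w‖ / ρ := fun w => by
    rw [norm_smul, norm_inv, Real.norm_of_nonneg hρ.le, div_eq_inv_mul]
  refine ⟨fun w => (b (ρ⁻¹ • w) : ℂ), hb.comp (contDiff_id.const_smul _), fun w hw => ?_,
    fun w hw => ?_, fun w => ?_, fun w => conj_ofReal _, fun w => ?_⟩
  · show (b _ : ℂ) = 1
    rw [b.one_of_mem_closedBall, ofReal_one]
    rw [mem_closedBall_zero_iff, hn, div_le_iff₀ hρ]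
    exact hw.le
  · show (b _ : ℂ) = 0
    rw [b.zero_of_le_dist, ofReal_zero]
    rw [dist_zero_right, hn, le_div_iff₀ hρ]
    exact hw
  · show ‖(b _ : ℂ)‖ ≤ 1
    rw [norm_real, Real.norm_of_nonneg b.nonneg]
    exact b.le_one
  · refine (norm_dbar_le _ _).trans ?_
    have h1 : HasFDerivAt (fun w : ℂ => ρ⁻¹ • w) (ρ⁻¹ • ContinuousLinearMap.id ℝ ℂ) w :=
      (hasFDerivAt_id (𝕜 := ℝ) w).const_smul ρ⁻¹
    have h2 := ((hb.differentiable (by simp)) (ρ⁻¹ • w)).hasFDerivAt.comp w h1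
    have h3 : fderiv ℝ (fun w => (b (ρ⁻¹ • w) : ℂ)) w = _ := h2.fderiv
    rw [h3]
    refine (ContinuousLinearMap.opNorm_comp_le _ _).trans ?_
    rw [norm_smul, ContinuousLinearMap.norm_id, norm_inv, Real.norm_of_nonneg hρ.le, mul_one,
      div_eq_mul_inv]
    have := hC (ρ⁻¹ • w)
    gcongr
    linarith

end Pool.Agent.MP_6c43ae_an.Ct
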