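import Mathlib
import Pool.Agent.MP_6c43ae_an.Decay
import Pool.Agent.MP_6c43ae_an.ct.Defs
import Pool.Agent.MP_6c43ae_an.ct.Hol
import Pool.Agent.MP_6c43ae_an.ct.Wirt

/-! Project CANTOR: shared definitions, small shared lemmas and the list of statements. -/

set_option autoImplicit false

open MeasureTheory Set Filter Topology Metric
open scoped ComplexConjugate ContDiff

namespace Pool.Agent.MP_6c43ae_an.Ct

abbrev S2 : Type := OnePoint ℂ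

/-- the weight of the `k`-th inner product in the affine chart -/
noncomputable def wt (φ ρ : ℂ → ℝ) (k : ℕ) (x : ℂ) : ℝ := Real.exp (-(k * φ x)) * ρ x

/-- the data read in the affine chart -/
structure PD (φ ρ : ℂ → ℝ) : Prop where
  sφ : ContDiff ℝ ∞ φ
  sρ : ContDiff ℝ ∞ ρ
  lap : ∀ x, 0 < Laplacian.laplacian φ x
  pos : ∀ x, 0 < ρ x
  gφ : ∃ C, ∀ x, |φ x - Real.log (1 + ‖x‖ ^ 2)| ≤ C
  gρ : ∃ C, ∀ x, ρ x * (1 + ‖x‖ ^ 2) ^ 2 ≤ C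

/-- the link between the data on the sphere and the data in the affine chart -/
structure Lk (h : Bool → S2 → ℝ) (μ : Measure S2) (φ ρ : ℂ → ℝ) : Prop where
  met : IsPositiveMetric LL h
  vol : IsSmoothVolume μ
  pd : PD φ ρ
  hφ : ∀ x : ℂ, h false x = Real.exp (-φ x)
  hμ : μ = (volume.withDensity fun x => ENNReal.ofReal (ρ x)).map (fun z : ℂ => (z : S2))

def IsPoly (k : ℕ) (g : ℂ → ℂ) : Prop :=
  ∃ c : ℕ → ℂ, ∀ x, g x = ∑ j ∈ Finset.range (k + 1), c j * x ^ j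

/-- continuous functions of growth at most `k` -/
def Gr (k : ℕ) (a : ℂ → ℂ) : Prop := Continuous a ∧ ∃ C, ∀ x, ‖a x‖ ≤ C * (1 + ‖x‖) ^ k

/-- square of the pointwise norm of a section -/
noncomputable def pn (h : Bool → S2 → ℝ) (k : ℕ) (s : Bool → S2 → ℂ) (x : S2) : ℝ :=
  ‖s (LL.indexAt x) x‖ ^ 2 * h (LL.indexAt x) x ^ k

/-- the normalized kernel section with pole `x` -/
noncomputable def ker (h : Bool → S2 → ℝ) (k N : ℕ) (s : Fin N → Bool → S2 → ℂ) (x : S2) :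
    Bool → S2 → ℂ :=
  fun i y => ∑ a, ((√(h (LL.indexAt x) x) ^ k : ℝ) * conj (s a (LL.indexAt x) x)) * s a i y

/-- exponential decay on a set of pairs -/
def Dec (h : Bool → S2 → ℝ) (μ : Measure S2) (T : Set (S2 × S2)) : Prop :=
  ∃ c₁ c₂ : ℝ, 0 < c₁ ∧ 0 < c₂ ∧ ∀ k : ℕ, 1 ≤ k → ∀ (N : ℕ) (s : Fin N → Bool → S2 → ℂ),
    IsOrthonormalBasis LL h μ k N s → ∀ p ∈ T,
      bergmanNorm LL h k N s p.1 p.2 ≤ c₁ * Real.exp (-c₂ * k)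

/-- a cut-off function equal to one near `z`, zero near `w` and locally constant near `Z` -/
def Cut (Z : Set S2) (z w : S2) : Prop :=
  ∃ (χ : ℂ → ℝ) (S : Set ℂ) (Vz Vw : Set S2), ContDiff ℝ ∞ χ ∧ HasCompactSupport χ ∧
    (∀ x, 0 ≤ χ x) ∧ IsCompact S ∧ (∀ x, x ∉ S → fderiv ℝ χ x = 0) ∧
    (∀ y ∈ S, (y : S2) ∉ Z ∧ (y : S2) ∉ Vw) ∧ Vz ∈ 𝓝 z ∧ (∀ x : ℂ, (x : S2) ∈ Vz → χ x = 1) ∧
    IsClosed Vw ∧ Vw ∈ 𝓝 w ∧ ∀ x : ℂ, (x : S2) ∈ Vw → χ x = 0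

/-- one term of the potential -/
noncomputable def gt (w : ℝ) (α β x : ℂ) : ℝ := w * ((1 + ‖x‖ ^ 2) / ‖β * x - α‖ ^ 2) ^ 4

/-- a family of weighted points of `S` whose potential blows up at `S` -/
structure Fam {ι : Type} (w : ι → ℝ) (α β : ι → ℂ) (S : Set ℂ) : Prop where
  sum : Summable w
  nn : ∀ i, 0 ≤ w i
  nrm : ∀ i, ‖α i‖ ≤ 1 ∧ ‖β i‖ ≤ 1 ∧ 1 ≤ ‖α i‖ + ‖β i‖
  mem : ∀ i, w i ≠ 0 → ∀ x, β i * x = α i → x ∈ S
  big : ∀ R : ℝ, ∃ c : ℝ, 0 < c ∧ ∀ x, x ∉ S → ‖x‖ < R → ∀ p ∈ S, ‖x - p‖ < 1 →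
    ∃ i, c / ‖x - p‖ ≤ gt (w i) (α i) (β i) x

/-- the flat function -/
noncomputable def fl {ι : Type} (w : ι → ℝ) (α β : ι → ℂ) (S : Set ℂ) : ℂ → ℝ :=
  Sᶜ.indicator fun x => Real.exp (-∑' i, gt (w i) (α i) (β i) x)

/-! ### shared lemmas -/

lemma PD.wt_pos {φ ρ : ℂ → ℝ} (H : PD φ ρ) (k : ℕ) (x : ℂ) : 0 < wt φ ρ k x :=
  mul_pos (Real.exp_pos _) (H.pos x)

lemma PD.contDiff_wt {φ ρ : ℂ → ℝ} (H : PD φ ρ) (k : ℕ) : ContDiff ℝ ∞ (wt φ ρ k) :=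
  ((contDiff_const.mul H.sφ).neg.exp).mul H.sρ

lemma PD.wt_le {φ ρ : ℂ → ℝ} (H : PD φ ρ) (k : ℕ) :
    ∃ C, ∀ x, wt φ ρ k x * (1 + ‖x‖) ^ (2 * k + 4) ≤ C := by
  obtain ⟨A, hA⟩ := H.gφ
  obtain ⟨B, hB⟩ := H.gρ
  refine ⟨Real.exp (k * A) * 2 ^ (k + 2) * B, fun x => ?_⟩
  have h0 : 0 < 1 + ‖x‖ ^ 2 := by positivity
  have h1 : Real.exp (-(k * φ x)) * (1 + ‖x‖ ^ 2) ^ k ≤ Real.exp (k * A) := by
    rw [← Real.exp_log (pow_pos h0 k), ← Real.exp_add, Real.log_pow]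
    refine Real.exp_le_exp.2 ?_
    have := (abs_le.1 (hA x)).1
    have hk : (0 : ℝ) ≤ k := Nat.cast_nonneg k
    nlinarith
  have h2 : (1 + ‖x‖) ^ (2 * k + 4) ≤ 2 ^ (k + 2) * ((1 + ‖x‖ ^ 2) ^ k * (1 + ‖x‖ ^ 2) ^ 2) := by
    rw [← pow_add, ← mul_pow, show 2 * k + 4 = 2 * (k + 2) by ring, pow_mul]
    refine pow_le_pow_left₀ (by positivity) ?_ _
    nlinarith [sq_nonneg (‖x‖ - 1)]
  have h3 := H.pos x
  calc wt φ ρ k x * (1 + ‖x‖) ^ (2 * k + 4)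
      ≤ wt φ ρ k x * (2 ^ (k + 2) * ((1 + ‖x‖ ^ 2) ^ k * (1 + ‖x‖ ^ 2) ^ 2)) :=
        mul_le_mul_of_nonneg_left h2 (H.wt_pos k x).le
    _ = (Real.exp (-(k * φ x)) * (1 + ‖x‖ ^ 2) ^ k) * 2 ^ (k + 2) * (ρ x * (1 + ‖x‖ ^ 2) ^ 2) := by
        unfold wt; ring
    _ ≤ _ := by
        have := hB x
        gcongr

lemma gr_pow {k j : ℕ} (hj : j ≤ k) : Gr k (fun x => x ^ j) :=
  ⟨by fun_prop, 1, fun x => by
    rw [one_mul, norm_pow]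
    exact (pow_le_pow_left₀ (norm_nonneg _) (by linarith) j).trans
      (pow_le_pow_right₀ (by linarith [norm_nonneg x]) hj)⟩

lemma Gr.add {k : ℕ} {a b : ℂ → ℂ} (ha : Gr k a) (hb : Gr k b) : Gr k (fun x => a x + b x) := by
  obtain ⟨a1, A, hA⟩ := ha
  obtain ⟨b1, B, hB⟩ := hb
  exact ⟨a1.add b1, A + B, fun x => (norm_add_le _ _).trans (by linarith [hA x, hB x])⟩

lemma Gr.const_mul {k : ℕ} {a : ℂ → ℂ} (ha : Gr k a) (c : ℂ) : Gr k (fun x => c * a x) := by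
  obtain ⟨a1, A, hA⟩ := ha
  refine ⟨continuous_const.mul a1, ‖c‖ * A, fun x => ?_⟩
  rw [norm_mul, mul_assoc]
  exact mul_le_mul_of_nonneg_left (hA x) (norm_nonneg c)

lemma Gr.sub {k : ℕ} {a b : ℂ → ℂ} (ha : Gr k a) (hb : Gr k b) : Gr k (fun x => a x - b x) := by
  simpa [sub_eq_add_neg] using ha.add (hb.const_mul (-1))

lemma gr_sum {ι : Type} {k : ℕ} (t : Finset ι) {a : ι → ℂ → ℂ} (ha : ∀ i ∈ t, Gr k (a i)) :
    Gr k (fun x => ∑ i ∈ t, a i x) := by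
  classical
  induction t using Finset.induction_on with
  | empty => exact ⟨continuous_const, 0, fun x => by simp⟩
  | insert i t hi ih =>
    simp only [Finset.sum_insert hi]
    exact (ha i (Finset.mem_insert_self _ _)).add
      (ih fun j hj => ha j (Finset.mem_insert_of_mem hj))

lemma IsPoly.gr {k : ℕ} {g : ℂ → ℂ} (hg : IsPoly k g) : Gr k g := by
  obtain ⟨c, hc⟩ := hg
  rw [funext hc]
  exact gr_sum _ fun j hj => (gr_pow (Nat.lt_succ_iff.1 (Finset.mem_range.1 hj))).const_mul _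

lemma IsPoly.differentiable {k : ℕ} {g : ℂ → ℂ} (hg : IsPoly k g) : Differentiable ℂ g := by
  obtain ⟨c, hc⟩ := hg
  rw [funext hc]
  fun_prop

lemma isPoly_section {k : ℕ} {s : Bool → S2 → ℂ} (hs : IsHolSection LL k s) :
    IsPoly k (fun z : ℂ => s false z) := hs.exists_coeff

lemma gr_of_compact (k : ℕ) {v : ℂ → ℂ} (hv : Continuous v) (hc : HasCompactSupport v) :
    Gr k v := by
  obtain ⟨C, hC⟩ := hv.bounded_above_of_compact_support hc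
  refine ⟨hv, C, fun x => (hC x).trans ?_⟩
  exact le_mul_of_one_le_right ((norm_nonneg _).trans (hC x))
    (one_le_pow₀ (by linarith [norm_nonneg x]))

lemma hcs_of_ball {E : Type} [Zero E] {v : ℂ → E} {R : ℝ} (h : ∀ x, R ≤ ‖x‖ → v x = 0) :
    HasCompactSupport v :=
  HasCompactSupport.intro (isCompact_closedBall 0 R) fun x hx =>
    h x (by rw [mem_closedBall_zero_iff] at hx; exact (not_le.1 hx).le)

lemma PD.integrable_norm {φ ρ : ℂ → ℝ} (H : PD φ ρ) {k : ℕ} {a b : ℂ → ℂ} (ha : Gr k a)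
    (hb : Gr k b) : Integrable (fun x => ‖a x‖ * ‖b x‖ * wt φ ρ k x) := by
  obtain ⟨a1, A, hA⟩ := ha
  obtain ⟨b1, B, hB⟩ := hb
  obtain ⟨C, hC⟩ := H.wt_le k
  have hw := (H.contDiff_wt k).continuous
  have hi : Integrable (fun x : ℂ => (1 + ‖x‖) ^ (-(4 : ℝ))) :=
    integrable_one_add_norm (by rw [Complex.finrank_real_complex]; norm_num)
  refine (hi.const_mul (A * B * C)).mono' (Continuous.aestronglyMeasurable (by fun_prop))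
    (Eventually.of_forall fun x => ?_)
  have h1 : 0 < 1 + ‖x‖ := by positivity
  have hw0 := (H.wt_pos k x).le
  have hA0 : 0 ≤ A := by
    by_contra h
    linarith [mul_neg_of_neg_of_pos (not_le.1 h) (pow_pos h1 k), (norm_nonneg _).trans (hA x)]
  have hB0 : 0 ≤ B := by
    by_contra h
    linarith [mul_neg_of_neg_of_pos (not_le.1 h) (pow_pos h1 k), (norm_nonneg _).trans (hB x)]
  rw [Real.norm_of_nonneg (by positivity), Real.rpow_neg h1.le, ← div_eq_mul_inv,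
    le_div_iff₀ (by positivity), show (4 : ℝ) = (4 : ℕ) by norm_num, Real.rpow_natCast]
  calc ‖a x‖ * ‖b x‖ * wt φ ρ k x * (1 + ‖x‖) ^ 4
      ≤ (A * (1 + ‖x‖) ^ k) * (B * (1 + ‖x‖) ^ k) * wt φ ρ k x * (1 + ‖x‖) ^ 4 := by
        have := hA x
        have := hB x
        gcongr
    _ = A * B * (wt φ ρ k x * (1 + ‖x‖) ^ (2 * k + 4)) := by ring
    _ ≤ _ := mul_le_mul_of_nonneg_left (hC x) (by positivity)

lemma PD.integrable_sq {φ ρ : ℂ → ℝ} (H : PD φ ρ) {k : ℕ} {a : ℂ → ℂ} (ha : Gr k a) :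
    Integrable (fun x => ‖a x‖ ^ 2 * wt φ ρ k x) := by
  simpa [sq] using H.integrable_norm ha ha

lemma PD.integrable {φ ρ : ℂ → ℝ} (H : PD φ ρ) {k : ℕ} {a b : ℂ → ℂ} (ha : Gr k a)
    (hb : Gr k b) : Integrable (fun x => a x * conj (b x) * (wt φ ρ k x : ℂ)) := by
  have hw := (H.contDiff_wt k).continuous
  have a1 := ha.1
  have b1 := hb.1
  refine (H.integrable_norm ha hb).mono' (Continuous.aestronglyMeasurable (by fun_prop))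
    (Eventually.of_forall fun x => ?_)
  simp [abs_of_pos (H.wt_pos k x)]

lemma Lk.integral {h : Bool → S2 → ℝ} {μ : Measure S2} {φ ρ : ℂ → ℝ} (H : Lk h μ φ ρ)
    {E : Type} [NormedAddCommGroup E] [NormedSpace ℝ E] (F : S2 → E) :
    ∫ x, F x ∂μ = ∫ z : ℂ, ρ z • F z := by
  rw [H.hμ, measurableEmbedding_coe.integral_map, integral_withDensity_eq_integral_toReal_smul
    (H.pd.sρ.continuous.measurable.ennreal_ofReal) (by simp)]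
  refine integral_congr_ae (Eventually.of_forall fun z => ?_)
  simp only [ENNReal.toReal_ofReal (H.pd.pos z).le]

lemma Lk.innerProd {h : Bool → S2 → ℝ} {μ : Measure S2} {φ ρ : ℂ → ℝ} (H : Lk h μ φ ρ) (k : ℕ)
    (s t : Bool → S2 → ℂ) :
    innerProd LL h μ k s t = ∫ z : ℂ, s false z * conj (t false z) * (wt φ ρ k z : ℂ) := by
  unfold Pool.Agent.MP_6c43ae_an.innerProd
  rw [H.integral]
  refine integral_congr_ae (Eventually.of_forall fun z => ?_)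
  simp only [LL_indexAt_coe, H.hφ, wt, Complex.real_smul]
  rw [← Complex.ofReal_pow, ← Real.exp_nat_mul, mul_neg]
  push_cast
  ring

lemma isHolSection_sum {N k : ℕ} {s : Fin N → Bool → S2 → ℂ} (hs : ∀ a, IsHolSection LL k (s a))
    (c : Fin N → ℂ) : IsHolSection LL k (fun i y => ∑ a, c a * s a i y) where
  hol i := by
    have key : ∀ t : Finset (Fin N), MDifferentiableOn (modelWithCornersSelf ℂ ℂ)
        (modelWithCornersSelf ℂ ℂ) (fun y => ∑ a ∈ t, c a * s a i y) (LL.baseSet i) := by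
      intro t
      induction t using Finset.induction_on with
      | empty => simpa using mdifferentiableOn_const
      | insert a t ha ih =>
        simp only [Finset.sum_insert ha]
        exact (mdifferentiableOn_const.mul ((hs a).hol i)).add ih
    exact key _
  compat i j x hx := by
    rw [Finset.mul_sum]
    refine Finset.sum_congr rfl fun a _ => ?_
    rw [(hs a).compat i j x hx]; ring

/-! ### the statements -/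

/-- the basic estimate of Hormander in one variable -/
def AP : Prop := ∀ (φ : ℂ → ℝ) (W : ℂ → ℂ), ContDiff ℝ 2 φ → ContDiff ℝ 2 W →
  HasCompactSupport W →
  ∫ x, Laplacian.laplacian φ x / 4 * ‖W x‖ ^ 2 * Real.exp (φ x)
    ≤ ∫ x, ‖dbar W x‖ ^ 2 * Real.exp (φ x)

/-- the Cauchy transform of a function with vanishing moments -/
def CT : Prop := ∀ (F : ℂ → ℂ) (m : ℕ) (C : ℝ), ContDiff ℝ 2 F →
  (∀ x, ‖F x‖ * (1 + ‖x‖) ^ (m + 3) ≤ C) → (∀ j < m, ∫ x, F x * x ^ j = 0) →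
  ∃ V : ℂ → ℂ, ContDiff ℝ 2 V ∧ (∀ x, dbar V x = F x) ∧ ∃ C' : ℝ, ∀ x, ‖V x‖ * ‖x‖ ^ m ≤ C'

/-- distance to the polynomials -/
def HO : Prop := ∀ φ ρ : ℂ → ℝ, PD φ ρ → ∀ R : ℝ, ∃ C : ℝ, 0 < C ∧ ∀ k : ℕ, 1 ≤ k →
  ∀ (v g : ℂ → ℂ) (Q : ℝ), ContDiff ℝ ∞ v → (∀ x, R ≤ ‖x‖ → v x = 0) →
    (∀ x, ‖dbar v x‖ ≤ Q * Real.exp (k * φ x / 2)) → IsPoly k g →
    (∀ j ≤ k, ∫ x, (v x - g x) * conj (x ^ j) * (wt φ ρ k x : ℂ) = 0) →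
    ∫ x, ‖v x - g x‖ ^ 2 * wt φ ρ k x ≤ C * Q ^ 2

/-- complexification -/
def CX : Prop := ∀ (f : ℂ → ℝ) (y : ℂ), AnalyticAt ℝ f y → ∃ r : ℝ, 0 < r ∧ ∃ ψ : C2 → ℂ,
  DifferentiableOn ℂ ψ (ball (y, conj y) r) ∧ ∀ x ∈ ball y r, ψ (x, conj x) = f x

/-- holomorphic functions of two variables are analytic -/
def AN : Prop := ∀ (V : Set C2) (f : C2 → ℂ), IsOpen V → DifferentiableOn ℂ f V →
  AnalyticOnNhd ℂ f V

/-- the recursion for the amplitude -/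
def RC : Prop := ∀ (r σ b B k : ℝ) (θ ϱ : C2 → ℂ), 0 < r → 0 < σ → 0 < b → 0 < k →
  2 * ((1 + B / b) / (r * b)) ≤ k * σ → ∀ (n : ℕ) (s M : ℝ) (R : C2 → ℂ),
    DifferentiableOn ℂ θ (ball 0 r ×ˢ ball 0 (s + n * σ)) →
    DifferentiableOn ℂ ϱ (ball 0 r ×ˢ ball 0 (s + n * σ)) →
    DifferentiableOn ℂ R (ball 0 r ×ˢ ball 0 (s + n * σ)) →
    (∀ q ∈ ball (0 : ℂ) r ×ˢ ball (0 : ℂ) (s + n * σ),
      b ≤ ‖θ q‖ ∧ b ≤ ‖ϱ q‖ ∧ ‖ϱ q‖ ≤ B ∧ ‖R q‖ ≤ M) →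
    ∃ (W E : C2 → ℂ) (a : ℂ → ℂ), DifferentiableOn ℂ W (ball 0 r ×ˢ ball 0 s) ∧
      DifferentiableOn ℂ a (ball 0 s) ∧ ∀ q ∈ ball (0 : ℂ) r ×ˢ ball (0 : ℂ) s,
        ‖W q‖ ≤ 2 * ((1 + B / b) / (r * b)) * M / k ∧ ‖a q.2‖ ≤ 2 * M / b ∧ ‖E q‖ ≤ M / 2 ^ n ∧
        R q + k * q.1 * θ q * W q + fderiv ℂ W q (0, 1) = a q.2 * ϱ q + E q

/-- local analytic data -/
def LC : Prop := ∀ (φ ρ : ℂ → ℝ) (y₀ : ℂ), AnalyticAt ℝ φ y₀ → AnalyticAt ℝ ρ y₀ → 0 < ρ y₀ →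
  0 < Laplacian.laplacian φ y₀ → ∀ R : ℝ, 0 < R → ∃ r b B : ℝ, 0 < r ∧ r ≤ R ∧ 0 < b ∧
    ∀ y ∈ ball y₀ r, ∃ ψ θ ϱ : C2 → ℂ, DifferentiableOn ℂ ψ (ball 0 r) ∧
      DifferentiableOn ℂ θ (ball 0 r) ∧ DifferentiableOn ℂ ϱ (ball 0 r) ∧
      (∀ x ∈ ball (0 : ℂ) r, ψ (x, conj x) = φ (y + x) ∧ ϱ (x, conj x) = ρ (y + x) ∧
        2 * (ψ (0, conj x)).re - φ (y + x) - φ y ≤ -b * ‖x‖ ^ 2) ∧
      ∀ q ∈ ball (0 : C2) r, b ≤ ‖θ q‖ ∧ ‖θ q‖ ≤ B ∧ b ≤ ‖ϱ q‖ ∧ ‖ϱ q‖ ≤ B ∧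
        fderiv ℂ ψ (0, q.2) (0, 1) - fderiv ℂ ψ q (0, 1) = q.1 * θ q

/-- the local reproducing kernel modulo exponentially small errors -/
def LP : Prop := ∀ (φ ρ : ℂ → ℝ) (y₀ : ℂ), Continuous φ → Continuous ρ → AnalyticAt ℝ φ y₀ →
  AnalyticAt ℝ ρ y₀ → 0 < ρ y₀ → 0 < Laplacian.laplacian φ y₀ → ∀ R : ℝ, 0 < R →
    ∃ r c C : ℝ, 0 < r ∧ 0 < c ∧ 0 < C ∧ ∀ y ∈ ball y₀ r, ∀ k : ℕ, 1 ≤ k → ∃ v : ℂ → ℂ,
      ContDiff ℝ ∞ v ∧ (∀ x, x ∉ ball y₀ R → v x = 0) ∧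
      (∀ x, ‖dbar v x‖ ≤ C * Real.exp (-c * k) * Real.exp (k * φ y / 2) * Real.exp (k * φ x / 2)) ∧
      ∀ (u : ℂ → ℂ) (A : ℝ), Differentiable ℂ u → (∀ x, ‖u x‖ ≤ A * Real.exp (k * φ x / 2)) →
        ‖u y - ∫ x, u x * conj (v x) * (wt φ ρ k x : ℂ)‖
          ≤ C * Real.exp (-c * k) * Real.exp (k * φ y / 2) * A

/-- from the sphere to the affine chart -/
def SD : Prop := ∀ (h : Bool → S2 → ℝ) (μ : Measure S2), IsPositiveMetric LL h →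
  IsSmoothVolume μ → ∃ φ ρ : ℂ → ℝ, Lk h μ φ ρ ∧
    (∀ y : ℂ, IsAnalyticMetricAt LL h (y : S2) → AnalyticAt ℝ φ y) ∧
    ∀ y : ℂ, IsAnalyticVolumeAt μ (y : S2) → AnalyticAt ℝ ρ y

/-- the mean value inequality for sections -/
def SM : Prop := ∀ (h : Bool → S2 → ℝ) (μ : Measure S2) (φ ρ : ℂ → ℝ), Lk h μ φ ρ →
  ∀ (p : S2) (V : Set S2), V ∈ 𝓝 p → ∀ ε : ℝ, 0 < ε → ∃ U ∈ 𝓝 p, ∃ C : ℝ, 0 < C ∧
    ∀ (k : ℕ) (s : Bool → S2 → ℂ), IsHolSection LL k s → ∀ x ∈ U,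
      pn h k s x ≤ C * Real.exp (ε * k) *
        ∫ y in (fun z : ℂ => (z : S2)) ⁻¹' V, ‖s false y‖ ^ 2 * wt φ ρ k y

/-- orthonormal bases exist -/
def ON : Prop := ∀ (h : Bool → S2 → ℝ) (μ : Measure S2) (φ ρ : ℂ → ℝ), Lk h μ φ ρ → ∀ k : ℕ,
  ∃ (N : ℕ) (s : Fin N → Bool → S2 → ℂ), IsOrthonormalBasis LL h μ k N s

/-- separation -/
def SP : Prop := ∀ (Z : Set S2) (z w : S2), IsClosed Z → z ≠ w →
  (∀ C ⊆ Z, IsPreconnected C → z ∈ C → w ∉ C) → Cut Z z w ∨ Cut Z w z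

/-- subexponential bound of the kernel -/
def KB : Prop := ∀ (h : Bool → S2 → ℝ) (μ : Measure S2) (φ ρ : ℂ → ℝ), Lk h μ φ ρ →
  ∀ ε : ℝ, 0 < ε → ∃ C : ℝ, 0 < C ∧ ∀ (k N : ℕ) (s : Fin N → Bool → S2 → ℂ),
    IsOrthonormalBasis LL h μ k N s → ∀ x y : S2,
      bergmanNorm LL h k N s x y ≤ C * Real.exp (ε * k)

/-- pairing of the kernel with an almost holomorphic function that vanishes near the pole -/
def KL : Prop := ∀ (h : Bool → S2 → ℝ) (μ : Measure S2) (φ ρ : ℂ → ℝ), Lk h μ φ ρ →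
  ∀ (w : S2) (V : Set S2), V ∈ 𝓝 w → ∀ R ε : ℝ, 0 < ε → ∃ U ∈ 𝓝 w, ∃ C : ℝ, 0 < C ∧
    ∀ k : ℕ, 1 ≤ k → ∀ (N : ℕ) (s : Fin N → Bool → S2 → ℂ), IsOrthonormalBasis LL h μ k N s →
      ∀ x ∈ U, ∀ (v : ℂ → ℂ) (Q : ℝ), 0 ≤ Q → ContDiff ℝ ∞ v → (∀ y, R ≤ ‖y‖ → v y = 0) →
        (∀ y : ℂ, (y : S2) ∈ V → v y = 0) → (∀ y, ‖dbar v y‖ ≤ Q * Real.exp (k * φ y / 2)) →
        ‖∫ y, v y * conj (ker h k N s x false y) * (wt φ ρ k y : ℂ)‖ ≤ C * Real.exp (ε * k) * Q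

/-- gluing across an analytic shell -/
def MN : Prop := ∀ (h : Bool → S2 → ℝ) (μ : Measure S2) (φ ρ : ℂ → ℝ), Lk h μ φ ρ →
  ∀ (Z : Set S2) (z w : S2), (∀ y : ℂ, (y : S2) ∉ Z → AnalyticAt ℝ φ y ∧ AnalyticAt ℝ ρ y) →
    Cut Z z w → ∃ U ∈ 𝓝 z, ∃ V ∈ 𝓝 w, Dec h μ (U ×ˢ V)

/-- the flat function is smooth, analytic off `S` and flat at `S` -/
def FL : Prop := ∀ (ι : Type) (w : ι → ℝ) (α β : ι → ℂ) (S : Set ℂ), IsClosed S → Fam w α β S →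
  ContDiff ℝ ∞ (fl w α β S) ∧ (∀ x, x ∉ S → AnalyticAt ℝ (fl w α β S) x) ∧
    ∀ p ∈ S, ∃ c : ℝ, 0 < c ∧ ∀ᶠ x in 𝓝 p, |fl w α β S x| ≤ Real.exp (-(c / ‖x - p‖))

/-- a flat function that does not vanish off a totally disconnected set is not analytic -/
def NA : Prop := ∀ (f : ℂ → ℝ) (S : Set ℂ) (p : ℂ) (c : ℝ), IsTotallyDisconnected S →
  (∀ x, x ∉ S → f x ≠ 0) → 0 < c → (∀ᶠ x in 𝓝 p, |f x| ≤ Real.exp (-(c / ‖x - p‖))) →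
  ¬ AnalyticAt ℝ f p

/-- the grid family -/
def GR : Prop := ∀ Z : Set S2, ∃ (ι : Type) (w : ι → ℝ) (α β : ι → ℂ),
  Fam w α β ((fun z : ℂ => (z : S2)) ⁻¹' Z) ∧ Fam w β α (i1 ⁻¹' Z)

/-- the metric built from a smooth function on the sphere -/
def MT : Prop := ∀ χ₀ χ₁ : ℂ → ℝ, ContDiff ℝ ∞ χ₀ → ContDiff ℝ ∞ χ₁ →
  (∀ x : ℂ, x ≠ 0 → χ₁ x⁻¹ = χ₀ x) → ∃ h : Bool → S2 → ℝ, IsPositiveMetric LL h ∧
    (∀ z : ℂ, IsAnalyticMetricAt LL h (z : S2) ↔ AnalyticAt ℝ χ₀ z) ∧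
    (IsAnalyticMetricAt LL h OnePoint.infty ↔ AnalyticAt ℝ χ₁ 0)

end Pool.Agent.MP_6c43ae_an.Ct
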