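import Mathlib
import Pool.Agent.MP_6c43ae_an.ct.Spec

/-! Project CANTOR, rows NA and GR. -/

set_option autoImplicit false

open MeasureTheory Set Filter Topology Metric

namespace Pool.Agent.MP_6c43ae_an.Ct

namespace GrX

lemma sumN : Summable fun n : ℕ => 1 / ((n : ℝ) + 1) ^ 2 := by
  have h := (summable_nat_add_iff 1).2 (Real.summable_one_div_nat_pow.2 one_lt_two)
  simpa using h

lemma sumZ : Summable fun j : ℤ => 1 / (|(j : ℝ)| + 1) ^ 2 := by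
  refine Summable.of_nat_of_neg ?_ ?_
  · simpa using sumN
  · simpa using sumN

/-- the weight of a grid point -/
noncomputable def gw (i : ℕ × ℤ × ℤ) : ℝ :=
  1 / ((i.1 : ℝ) + 1) ^ 2 * (1 / (|(i.2.1 : ℝ)| + 1) ^ 2 * (1 / (|(i.2.2 : ℝ)| + 1) ^ 2))

/-- the grid point -/
noncomputable def ga (i : ℕ × ℤ × ℤ) : ℂ :=
  ((i.2.1 : ℂ) + (i.2.2 : ℂ) * Complex.I) / ((i.1 : ℂ) + 1)

lemma gw_pos (i : ℕ × ℤ × ℤ) : 0 < gw i := by unfold gw; positivity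

lemma gw_sum : Summable gw := by
  have h1 : Summable fun q : ℤ × ℤ =>
      1 / (|(q.1 : ℝ)| + 1) ^ 2 * (1 / (|(q.2 : ℝ)| + 1) ^ 2) :=
    sumZ.mul_of_nonneg sumZ (fun _ => by positivity) (fun _ => by positivity)
  exact sumN.mul_of_nonneg h1 (fun _ => by positivity) (fun _ => by positivity)

lemma floor_abs (N T y : ℝ) (hN : 1 ≤ N) (hy : |y| ≤ T) :
    |((⌊N * y⌋ : ℤ) : ℝ)| + 1 ≤ N * (T + 2) := by
  have h1 := Int.floor_le (N * y)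
  have h2 := Int.lt_floor_add_one (N * y)
  have h3 : |N * y| ≤ N * T := by
    rw [abs_mul, abs_of_nonneg (by linarith : (0 : ℝ) ≤ N)]
    exact mul_le_mul_of_nonneg_left hy (by linarith)
  have h4 := abs_le.1 h3
  have h5 : |((⌊N * y⌋ : ℤ) : ℝ)| ≤ N * T + 1 := abs_le.2 ⟨by linarith [h4.1], by linarith [h4.2]⟩
  nlinarith

lemma near (n : ℕ) (q : ℂ) :
    ‖ga (n, ⌊((n : ℝ) + 1) * q.re⌋, ⌊((n : ℝ) + 1) * q.im⌋) - q‖ ≤ 2 / ((n : ℝ) + 1) := by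
  have hN : (0 : ℝ) < (n : ℝ) + 1 := by positivity
  have hNc : ((n : ℂ) + 1) ≠ 0 := by exact_mod_cast hN.ne'
  have hn : ‖((n : ℂ) + 1)‖ = (n : ℝ) + 1 := by
    have : ((n : ℂ) + 1) = (((n : ℝ) + 1 : ℝ) : ℂ) := by push_cast; ring
    rw [this, Complex.norm_real, Real.norm_of_nonneg hN.le]
  set j := ⌊((n : ℝ) + 1) * q.re⌋ with hj
  set l := ⌊((n : ℝ) + 1) * q.im⌋ with hl
  have e : ga (n, j, l) - q = ((j : ℂ) + (l : ℂ) * Complex.I - ((n : ℂ) + 1) * q) / ((n : ℂ) + 1) := by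
    unfold ga
    field_simp
  rw [e, norm_div, hn]
  refine div_le_div_of_nonneg_right ?_ hN.le
  refine (Complex.norm_le_abs_re_add_abs_im _).trans ?_
  have r1 : ((j : ℂ) + (l : ℂ) * Complex.I - ((n : ℂ) + 1) * q).re = j - ((n : ℝ) + 1) * q.re := by
    simp
  have r2 : ((j : ℂ) + (l : ℂ) * Complex.I - ((n : ℂ) + 1) * q).im = l - ((n : ℝ) + 1) * q.im := by
    simp
  rw [r1, r2]
  have a1 := Int.floor_le (((n : ℝ) + 1) * q.re)
  have a2 := Int.lt_floor_add_one (((n : ℝ) + 1) * q.re)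
  have b1 := Int.floor_le (((n : ℝ) + 1) * q.im)
  have b2 := Int.lt_floor_add_one (((n : ℝ) + 1) * q.im)
  have c1 : |(j : ℝ) - ((n : ℝ) + 1) * q.re| ≤ 1 := abs_le.2 ⟨by linarith, by linarith⟩
  have c2 : |(l : ℝ) - ((n : ℝ) + 1) * q.im| ≤ 1 := abs_le.2 ⟨by linarith, by linarith⟩
  linarith

lemma arith (d N T e w : ℝ) (hd : 0 < d) (hd1 : d < 1) (hN : 0 < N) (hNd : N * d ≤ 2) (hT : 0 < T)
    (he : 0 < e) (hed : e ≤ 5 * d) (hw : 1 / N ^ 2 * (1 / (N * T) ^ 2 * (1 / (N * T) ^ 2)) ≤ w) :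
    1 / (64 * 5 ^ 8 * T ^ 4) / d ≤ w / e ^ 8 := by
  have h1 : e ^ 8 ≤ (5 * d) ^ 8 := pow_le_pow_left₀ he.le hed 8
  have h2 : (N * d) ^ 6 ≤ 2 ^ 6 := pow_le_pow_left₀ (by positivity) hNd 6
  have h3 : 1 / N ^ 2 * (1 / (N * T) ^ 2 * (1 / (N * T) ^ 2)) = 1 / (N ^ 6 * T ^ 4) := by
    field_simp
  rw [h3] at hw
  have h4 : 1 / (N ^ 6 * T ^ 4) / (5 * d) ^ 8 ≤ w / e ^ 8 :=
    div_le_div₀ (le_trans (by positivity) hw) hw (by positivity) h1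
  refine le_trans ?_ h4
  rw [div_div, div_div]
  refine one_div_le_one_div_of_le (by positivity) ?_
  have h5 : N ^ 6 * T ^ 4 * (5 * d) ^ 8 = (N * d) ^ 6 * (5 ^ 8 * T ^ 4 * d) * d := by ring
  have h6 : (0 : ℝ) < 5 ^ 8 * T ^ 4 * d := by positivity
  rw [h5]
  calc (N * d) ^ 6 * (5 ^ 8 * T ^ 4 * d) * d ≤ 2 ^ 6 * (5 ^ 8 * T ^ 4 * d) * 1 := by gcongr
    _ = _ := by ring

/-- the family in one chart -/
lemma one (S : Set ℂ) : ∃ (w : ℕ × ℤ × ℤ → ℝ) (p : ℕ × ℤ × ℤ → ℂ), Summable w ∧ (∀ i, 0 ≤ w i) ∧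
    (∀ i, w i ≠ 0 → p i ∈ S) ∧ ∀ R : ℝ, ∃ c : ℝ, 0 < c ∧ ∀ x, x ∉ S → ‖x‖ < R → ∀ q ∈ S,
      ‖x - q‖ < 1 → ∃ i, c / ‖x - q‖ ≤ w i / ‖x - p i‖ ^ 8 := by
  classical
  have hch : ∀ i : ℕ × ℤ × ℤ, ∃ p : ℂ, (∃ q ∈ S, ‖ga i - q‖ ≤ 2 / ((i.1 : ℝ) + 1)) →
      p ∈ S ∧ ‖ga i - p‖ ≤ 2 / ((i.1 : ℝ) + 1) := by
    intro i
    by_cases h : ∃ q ∈ S, ‖ga i - q‖ ≤ 2 / ((i.1 : ℝ) + 1)
    · obtain ⟨q, hq⟩ := h
      exact ⟨q, fun _ => hq⟩
    · exact ⟨0, fun h' => absurd h' h⟩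
  choose p hp using hch
  refine ⟨fun i => if ∃ q ∈ S, ‖ga i - q‖ ≤ 2 / ((i.1 : ℝ) + 1) then gw i else 0, p, ?_, ?_, ?_, ?_⟩
  · refine Summable.of_nonneg_of_le (fun i => ?_) (fun i => ?_) gw_sum
    · split_ifs
      · exact (gw_pos i).le
      · exact le_rfl
    · split_ifs
      · exact le_rfl
      · exact (gw_pos i).le
  · intro i
    dsimp only
    split_ifs
    · exact (gw_pos i).le
    · exact le_rfl
  · intro i hi
    dsimp only at hi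
    split_ifs at hi with h
    · exact (hp i h).1
    · exact absurd rfl hi
  · intro R
    refine ⟨1 / (64 * 5 ^ 8 * (|R| + 3) ^ 4), by positivity, fun x hx hR q hq hd1 => ?_⟩
    have hd : 0 < ‖x - q‖ := norm_pos_iff.2 (sub_ne_zero.2 fun h => hx (h ▸ hq))
    set d := ‖x - q‖ with hdd
    set n := ⌊1 / d⌋₊ with hn
    have hn1 : 1 / d < (n : ℝ) + 1 := Nat.lt_floor_add_one _
    have hn2 : (n : ℝ) ≤ 1 / d := Nat.floor_le (by positivity)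
    have hN : (0 : ℝ) < (n : ℝ) + 1 := by positivity
    have hN1 : (1 : ℝ) ≤ (n : ℝ) + 1 := by linarith [(Nat.cast_nonneg n : (0 : ℝ) ≤ n)]
    have hNd : ((n : ℝ) + 1) * d ≤ 2 := by
      rw [le_div_iff₀ hd] at hn2
      nlinarith
    have h2d : 2 / ((n : ℝ) + 1) ≤ 2 * d := by
      rw [div_lt_iff₀ hd] at hn1
      rw [div_le_iff₀ hN]
      nlinarith
    have hqn : ‖q‖ ≤ |R| + 1 := by
      have h1 : ‖q‖ ≤ ‖x‖ + ‖x - q‖ := by
        calc ‖q‖ = ‖x - (x - q)‖ := by simp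
          _ ≤ _ := norm_sub_le _ _
      linarith [le_abs_self R]
    set i : ℕ × ℤ × ℤ := (n, ⌊((n : ℝ) + 1) * q.re⌋, ⌊((n : ℝ) + 1) * q.im⌋) with hi
    have hex : ∃ q ∈ S, ‖ga i - q‖ ≤ 2 / ((i.1 : ℝ) + 1) := ⟨q, hq, near n q⟩
    refine ⟨i, ?_⟩
    dsimp only
    rw [if_pos hex]
    obtain ⟨hpS, hpn⟩ := hp i hex
    have he : 0 < ‖x - p i‖ := norm_pos_iff.2 (sub_ne_zero.2 fun h => hx (h ▸ hpS))
    have hed : ‖x - p i‖ ≤ 5 * d := by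
      have h1 : ‖x - p i‖ ≤ ‖x - q‖ + ‖ga i - q‖ + ‖ga i - p i‖ := by
        calc ‖x - p i‖ = ‖(x - q) - (ga i - q) + (ga i - p i)‖ := by congr 1; ring
          _ ≤ ‖(x - q) - (ga i - q)‖ + ‖ga i - p i‖ := norm_add_le _ _
          _ ≤ _ := by linarith [norm_sub_le (x - q) (ga i - q)]
      have h2 : ‖ga i - q‖ ≤ 2 / ((n : ℝ) + 1) := near n q
      have h3 : ‖ga i - p i‖ ≤ 2 / ((n : ℝ) + 1) := hpn
      linarith
    refine arith d ((n : ℝ) + 1) (|R| + 3) _ _ hd hd1 hN hNd (by positivity) he hed ?_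
    have f1 := floor_abs ((n : ℝ) + 1) (|R| + 1) q.re hN1 ((Complex.abs_re_le_norm q).trans hqn)
    have f2 := floor_abs ((n : ℝ) + 1) (|R| + 1) q.im hN1 ((Complex.abs_im_le_norm q).trans hqn)
    rw [show |R| + 1 + 2 = |R| + 3 by ring] at f1 f2
    unfold gw
    gcongr

/-- the normalizing factor -/
noncomputable def nm (p : ℂ) : ℂ := ((max 1 ‖p‖ : ℝ) : ℂ)⁻¹

lemma nm_ne (p : ℂ) : nm p ≠ 0 := by
  unfold nm
  have : (0 : ℝ) < max 1 ‖p‖ := lt_of_lt_of_le one_pos (le_max_left _ _)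
  exact inv_ne_zero (by exact_mod_cast this.ne')

lemma norm_nm (p : ℂ) : ‖nm p‖ = (max 1 ‖p‖)⁻¹ := by
  unfold nm
  have : (0 : ℝ) < max 1 ‖p‖ := lt_of_lt_of_le one_pos (le_max_left _ _)
  rw [norm_inv, Complex.norm_real, Real.norm_of_nonneg this.le]

lemma nm_nrm (p : ℂ) : ‖nm p * p‖ ≤ 1 ∧ ‖nm p‖ ≤ 1 ∧ 1 ≤ ‖nm p * p‖ + ‖nm p‖ := by
  have h0 : (0 : ℝ) < max 1 ‖p‖ := lt_of_lt_of_le one_pos (le_max_left _ _)
  rw [norm_mul, norm_nm]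
  refine ⟨?_, inv_le_one_of_one_le₀ (le_max_left _ _), ?_⟩
  · rw [inv_mul_le_iff₀ h0, mul_one]; exact le_max_right _ _
  · rw [← mul_add_one, le_inv_mul_iff₀ h0, mul_one]
    exact max_le (by linarith [norm_nonneg p]) (by linarith)

lemma le_gt (w : ℝ) (hw : 0 ≤ w) (p x : ℂ) : w / ‖x - p‖ ^ 8 ≤ gt w (nm p * p) (nm p) x := by
  unfold gt
  rw [← mul_sub, norm_mul]
  rcases eq_or_lt_of_le (norm_nonneg (x - p)) with h | h
  · rw [← h]; simp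
  · have h1 : 0 < ‖nm p‖ := norm_pos_iff.2 (nm_ne p)
    have h2 := (nm_nrm p).2.1
    have h3 : w / ‖x - p‖ ^ 8 = w * (1 / (1 * ‖x - p‖) ^ 2) ^ 4 := by field_simp
    rw [h3]
    gcongr
    nlinarith [sq_nonneg ‖x‖]

end GrX

open GrX

theorem gr : GR := by
  intro Z
  obtain ⟨w0, p0, s0, n0, m0, b0⟩ := one ((fun z : ℂ => (z : S2)) ⁻¹' Z)
  obtain ⟨w1, p1, s1, n1, m1, b1⟩ := one (i1 ⁻¹' Z)
  have hs : Summable (Sum.elim w0 w1) := Summable.sum _ s0 s1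
  have hn : ∀ i, 0 ≤ Sum.elim w0 w1 i := by
    rintro (i | i)
    · exact n0 i
    · exact n1 i
  have can : ∀ p x : ℂ, nm p * x = nm p * p → x = p := fun p x h => mul_left_cancel₀ (nm_ne p) h
  have can' : ∀ p x : ℂ, nm p * p * x = nm p → p * x = 1 := fun p x h =>
    mul_left_cancel₀ (nm_ne p) (by rw [← mul_assoc, h, mul_one])
  refine ⟨(ℕ × ℤ × ℤ) ⊕ (ℕ × ℤ × ℤ), Sum.elim w0 w1,
    Sum.elim (fun i => nm (p0 i) * p0 i) (fun i => nm (p1 i)),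
    Sum.elim (fun i => nm (p0 i)) (fun i => nm (p1 i) * p1 i), ⟨hs, hn, ?_, ?_, ?_⟩,
    ⟨hs, hn, ?_, ?_, ?_⟩⟩
  · rintro (i | i)
    · exact nm_nrm (p0 i)
    · obtain ⟨a, b, c⟩ := nm_nrm (p1 i)
      exact ⟨b, a, by rw [add_comm] at c; exact c⟩
  · rintro (i | i) hi x hx
    · rw [can _ _ hx]; exact m0 i hi
    · have h1 := can' _ _ hx
      have h2 : p1 i ≠ 0 := left_ne_zero_of_mul (h1 ▸ one_ne_zero)
      have h3 := m1 i hi
      rw [mem_preimage, i1_of_ne h2] at h3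
      rw [eq_inv_of_mul_eq_one_right h1]
      exact h3
  · intro R
    obtain ⟨c, hc, h⟩ := b0 R
    refine ⟨c, hc, fun x hx hR q hq hd => ?_⟩
    obtain ⟨i, hi⟩ := h x hx hR q hq hd
    exact ⟨Sum.inl i, hi.trans (le_gt _ (n0 i) _ _)⟩
  · rintro (i | i)
    · obtain ⟨a, b, c⟩ := nm_nrm (p0 i)
      exact ⟨b, a, by rw [add_comm] at c; exact c⟩
    · exact nm_nrm (p1 i)
  · rintro (i | i) hi x hx
    · have h1 := can' _ _ hx
      have h2 : x ≠ 0 := right_ne_zero_of_mul (h1 ▸ one_ne_zero)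
      have h3 := m0 i hi
      rw [mem_preimage, i1_of_ne h2, ← eq_inv_of_mul_eq_one_left h1]
      exact h3
    · rw [can _ _ hx]; exact m1 i hi
  · intro R
    obtain ⟨c, hc, h⟩ := b1 R
    refine ⟨c, hc, fun x hx hR q hq hd => ?_⟩
    obtain ⟨i, hi⟩ := h x hx hR q hq hd
    exact ⟨Sum.inr i, hi.trans (le_gt _ (n1 i) _ _)⟩

theorem na : NA := by
  intro f S p c hS hf hc hfl han
  have hl : AnalyticAt ℝ (fun t : ℝ => p + (t : ℂ)) 0 :=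
    analyticAt_const.add (Complex.ofRealCLM.analyticAt 0)
  have hg : AnalyticAt ℝ (fun t : ℝ => f (p + (t : ℂ))) 0 :=
    AnalyticAt.comp (g := f) (f := fun t : ℝ => p + (t : ℂ)) (by simpa using han) hl
  by_cases hz : ∀ᶠ t : ℝ in 𝓝 0, f (p + (t : ℂ)) = 0
  · obtain ⟨ε, hε, hb⟩ := Metric.eventually_nhds_iff_ball.1 hz
    have hsub : (fun t : ℝ => p + (t : ℂ)) '' ball 0 ε ⊆ S := by
      rintro _ ⟨t, ht, rfl⟩
      by_contra h
      exact hf _ h (hb t ht)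
    have hpre : IsPreconnected ((fun t : ℝ => p + (t : ℂ)) '' ball 0 ε) :=
      (convex_ball (0 : ℝ) ε).isPreconnected.image _ (by fun_prop)
    have h1 := hS _ hsub hpre ⟨0, mem_ball_self hε, rfl⟩
      ⟨ε / 2, by rw [mem_ball_zero_iff, Real.norm_of_nonneg (by linarith)]; linarith, rfl⟩
    have h2 : ((0 : ℝ) : ℂ) = ((ε / 2 : ℝ) : ℂ) := add_left_cancel h1
    have h3 : (0 : ℝ) = ε / 2 := by exact_mod_cast h2
    linarith
  · obtain ⟨n, u, hu, hu0, he⟩ := hg.exists_eventuallyEq_pow_smul_nonzero_iff.2 hz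
    have ht : Tendsto (fun t : ℝ => p + (t : ℂ)) (𝓝 0) (𝓝 p) := by
      simpa using hl.continuousAt.tendsto
    have h1 : Tendsto (fun t : ℝ => c / t) (𝓝[>] 0) atTop := by
      simpa [div_eq_mul_inv] using tendsto_inv_nhdsGT_zero.const_mul_atTop hc
    have h2 : Tendsto (fun t : ℝ => (c ^ n)⁻¹ * ((c / t) ^ n * Real.exp (-(c / t)))) (𝓝[>] 0)
        (𝓝 0) := by
      simpa using ((Real.tendsto_pow_mul_exp_neg_atTop_nhds_zero n).comp h1).const_mul (c ^ n)⁻¹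
    have h3 : Tendsto (fun t : ℝ => |u t|) (𝓝[>] 0) (𝓝 |u 0|) :=
      (hu.continuousAt.tendsto.mono_left nhdsWithin_le_nhds).abs
    have h4 : |u 0| ≤ 0 := by
      refine le_of_tendsto_of_tendsto h3 h2 ?_
      filter_upwards [self_mem_nhdsWithin, nhdsWithin_le_nhds he,
        nhdsWithin_le_nhds (ht.eventually hfl)] with t ht0 h5 h6
      have ht0' : 0 < t := ht0
      rw [h5, add_sub_cancel_left, Complex.norm_real, Real.norm_of_nonneg ht0'.le, sub_zero,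
        smul_eq_mul, abs_mul, abs_of_pos (pow_pos ht0' n)] at h6
      have h7 : (c ^ n)⁻¹ * ((c / t) ^ n * Real.exp (-(c / t))) =
          Real.exp (-(c / t)) / t ^ n := by
        rw [div_pow]; field_simp
      rw [h7, le_div_iff₀ (pow_pos ht0' n), mul_comm]
      exact h6
    exact hu0 (abs_nonpos_iff.1 h4)

end Pool.Agent.MP_6c43ae_an.Ct
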