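import Pool.Agent.MP_6c43ae_an.ct.Spec

/-! Project CANTOR: the distance of an almost holomorphic function to the polynomials. -/

set_option autoImplicit false

open MeasureTheory Set Filter Topology Metric
open scoped ComplexConjugate ContDiff

namespace Pool.Agent.MP_6c43ae_an.Ct

namespace HoX

lemma two_le : (2 : WithTop ℕ∞) ≤ ∞ := WithTop.coe_le_coe.2 (le_top : (2 : ℕ∞) ≤ ⊤)

lemma continuous_lap {φ : ℂ → ℝ} (h : ContDiff ℝ 2 φ) : Continuous (Laplacian.laplacian φ) := by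
  rw [InnerProductSpace.laplacian_eq_iteratedFDeriv_complexPlane]
  have := h.continuous_iteratedFDeriv (m := 2) le_rfl
  fun_prop

lemma dbar_eq_zero {f : ℂ → ℂ} {c x : ℂ} {U : Set ℂ} (hU : IsOpen U) (hx : x ∈ U)
    (h : ∀ y ∈ U, f y = c) : dbar f x = 0 := by
  rw [dbar_congr (g := fun _ => c) (eventually_of_mem (hU.mem_nhds hx) h), dbar_const]

/-- the error term of the cut-off, pointwise -/
lemma err_le {φ : ℂ → ℝ} {V χ : ℂ → ℂ} {k : ℕ} {A C C' T : ℝ}
    (hA : ∀ x, |φ x - Real.log (1 + ‖x‖ ^ 2)| ≤ A) (hV : ∀ x, ‖V x‖ * ‖x‖ ^ (k + 1) ≤ C')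
    (hT : 1 ≤ T) (h1 : ∀ w, ‖w‖ < 2 * T → χ w = 1) (h0 : ∀ w, 3 * T ≤ ‖w‖ → χ w = 0)
    (hd : ∀ w, ‖dbar χ w‖ ≤ C / T) (x : ℂ) :
    ‖dbar χ x‖ ^ 2 * ‖V x‖ ^ 2 * Real.exp (k * φ x)
      ≤ (16 * C ^ 2 * Real.exp (k * A) * 2 ^ k * C' ^ 2) / T * (1 + ‖x‖) ^ (-(3 : ℝ)) := by
  have hT0 : 0 < T := by linarith
  have hx1 : 0 < 1 + ‖x‖ := by positivity
  by_cases ha : ‖x‖ < 2 * T
  · rw [dbar_eq_zero (U := {w | ‖w‖ < 2 * T}) (isOpen_lt continuous_norm continuous_const) ha h1]
    simp only [norm_zero, ne_eq, OfNat.ofNat_ne_zero, not_false_eq_true, zero_pow, zero_mul]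
    positivity
  by_cases hb : 3 * T < ‖x‖
  · rw [dbar_eq_zero (U := {w | 3 * T < ‖w‖}) (isOpen_lt continuous_const continuous_norm) hb
      fun w hw => h0 w (le_of_lt hw)]
    simp only [norm_zero, ne_eq, OfNat.ofNat_ne_zero, not_false_eq_true, zero_pow, zero_mul]
    positivity
  push Not at ha hb
  have h2 : 0 < 1 + ‖x‖ ^ 2 := by positivity
  have e1 : Real.exp (k * φ x) ≤ Real.exp (k * A) * (2 * ‖x‖ ^ 2) ^ k := by
    calc Real.exp (k * φ x) ≤ Real.exp (k * A) * (1 + ‖x‖ ^ 2) ^ k := by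
          rw [← Real.exp_log (pow_pos h2 k), ← Real.exp_add, Real.log_pow]
          refine Real.exp_le_exp.2 ?_
          have := (abs_le.1 (hA x)).2
          have hk : (0 : ℝ) ≤ k := Nat.cast_nonneg k
          nlinarith
      _ ≤ _ := by
          have : 1 + ‖x‖ ^ 2 ≤ 2 * ‖x‖ ^ 2 := by nlinarith
          gcongr
  have e2 : ‖dbar χ x‖ ^ 2 * (1 + ‖x‖) ≤ 4 * C ^ 2 / T := by
    calc ‖dbar χ x‖ ^ 2 * (1 + ‖x‖) ≤ (C / T) ^ 2 * (4 * T) := by
          have := hd x
          have : 1 + ‖x‖ ≤ 4 * T := by linarith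
          gcongr
      _ = _ := by field_simp
  have e3 : (1 + ‖x‖) ^ 2 ≤ 4 * ‖x‖ ^ 2 := by nlinarith
  have e4 : (‖V x‖ * ‖x‖ ^ (k + 1)) ^ 2 ≤ C' ^ 2 := by
    have := hV x
    gcongr
  rw [Real.rpow_neg hx1.le, ← div_eq_mul_inv, le_div_iff₀ (by positivity),
    show (3 : ℝ) = (3 : ℕ) by norm_num, Real.rpow_natCast]
  calc ‖dbar χ x‖ ^ 2 * ‖V x‖ ^ 2 * Real.exp (k * φ x) * (1 + ‖x‖) ^ 3
      = (‖dbar χ x‖ ^ 2 * (1 + ‖x‖)) * ‖V x‖ ^ 2 * Real.exp (k * φ x) * (1 + ‖x‖) ^ 2 := by ring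
    _ ≤ (4 * C ^ 2 / T) * ‖V x‖ ^ 2 * (Real.exp (k * A) * (2 * ‖x‖ ^ 2) ^ k) * (4 * ‖x‖ ^ 2) := by
        gcongr
    _ = (16 * C ^ 2 * Real.exp (k * A) * 2 ^ k) / T * (‖V x‖ * ‖x‖ ^ (k + 1)) ^ 2 := by
        rw [mul_pow 2]; ring
    _ ≤ (16 * C ^ 2 * Real.exp (k * A) * 2 ^ k) / T * C' ^ 2 := by gcongr
    _ = _ := by ring

/-- the estimate of Hormander for a function that decays at infinity -/
lemma key (h1 : AP) {φ : ℂ → ℝ} (hφ : ContDiff ℝ 2 φ) (hl : ∀ x, 0 < Laplacian.laplacian φ x)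
    {A : ℝ} (hA : ∀ x, |φ x - Real.log (1 + ‖x‖ ^ 2)| ≤ A) {k : ℕ} (hk : 1 ≤ k) {V : ℂ → ℂ}
    (hV : ContDiff ℝ 2 V) {C' : ℝ} (hC' : ∀ x, ‖V x‖ * ‖x‖ ^ (k + 1) ≤ C')
    (hI : Integrable fun x => ‖dbar V x‖ ^ 2 * Real.exp (k * φ x)) {R l : ℝ}
    (hR : ∀ x ∈ closedBall (0 : ℂ) R, l ≤ Laplacian.laplacian φ x / 4) :
    l * ∫ x in closedBall (0 : ℂ) R, ‖V x‖ ^ 2 * Real.exp (k * φ x)
      ≤ 2 * ∫ x, ‖dbar V x‖ ^ 2 * Real.exp (k * φ x) := by
  obtain ⟨C, -, hC⟩ := exists_chi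
  have hi : Integrable (fun x : ℂ => (1 + ‖x‖) ^ (-(3 : ℝ))) :=
    integrable_one_add_norm (by rw [Complex.finrank_real_complex]; norm_num)
  set K : ℝ := 16 * C ^ 2 * Real.exp (k * A) * 2 ^ k * C' ^ 2 with hK
  have hφc := hφ.continuous
  have hVc := hV.continuous
  have hlc := continuous_lap hφ
  have hk' : (1 : ℝ) ≤ k := by exact_mod_cast hk
  have lim : Tendsto (fun T : ℝ => 2 * (∫ x, ‖dbar V x‖ ^ 2 * Real.exp (k * φ x))
      + (2 * K * ∫ x : ℂ, (1 + ‖x‖) ^ (-(3 : ℝ))) / T) atTop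
      (𝓝 (2 * (∫ x, ‖dbar V x‖ ^ 2 * Real.exp (k * φ x)) + 0)) :=
    tendsto_const_nhds.add (tendsto_const_nhds.div_atTop tendsto_id)
  rw [add_zero] at lim
  refine ge_of_tendsto lim ?_
  filter_upwards [eventually_ge_atTop 1, eventually_gt_atTop R] with T hT hRT
  obtain ⟨χ, c1, c2, c3, c4, -, c6⟩ := hC T (by linarith)
  have c1' : ContDiff ℝ 2 χ := c1.of_le two_le
  have cs : HasCompactSupport fun x => χ x * V x :=
    hcs_of_ball (R := 3 * T) fun x hx => by rw [c3 x hx, zero_mul]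
  have cc := c1.continuous
  have h := h1 (fun x => k * φ x) (fun x => χ x * V x) (contDiff_const.mul hφ) (c1'.mul hV) cs
  have el : ∀ x, Laplacian.laplacian (fun x => k * φ x) x = k * Laplacian.laplacian φ x :=
    fun x => InnerProductSpace.laplacian_smul (k : ℝ) hφ.contDiffAt
  simp only [el] at h
  have i1 : Integrable fun x =>
      k * Laplacian.laplacian φ x / 4 * ‖χ x * V x‖ ^ 2 * Real.exp (k * φ x) :=
    Continuous.integrable_of_hasCompactSupport (by fun_prop)
      (hcs_of_ball (R := 3 * T) fun x hx => by simp [c3 x hx])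
  calc l * ∫ x in closedBall (0 : ℂ) R, ‖V x‖ ^ 2 * Real.exp (k * φ x)
      = ∫ x in closedBall (0 : ℂ) R, l * (‖V x‖ ^ 2 * Real.exp (k * φ x)) :=
        (integral_const_mul _ _).symm
    _ ≤ ∫ x in closedBall (0 : ℂ) R,
          k * Laplacian.laplacian φ x / 4 * ‖χ x * V x‖ ^ 2 * Real.exp (k * φ x) := by
        refine setIntegral_mono_on (ContinuousOn.integrableOn_compact (isCompact_closedBall _ _)
          (Continuous.continuousOn (by fun_prop))) i1.integrableOn measurableSet_closedBall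
          fun x hx => ?_
        have h3 := hR x hx
        have h4 := hl x
        rw [mem_closedBall_zero_iff] at hx
        rw [c2 x (by linarith), one_mul, mul_assoc (_ / 4)]
        refine mul_le_mul_of_nonneg_right ?_ (by positivity)
        nlinarith
    _ ≤ ∫ x, k * Laplacian.laplacian φ x / 4 * ‖χ x * V x‖ ^ 2 * Real.exp (k * φ x) :=
        setIntegral_le_integral i1 (Eventually.of_forall fun x => by
          have := hl x
          simp only [Pi.zero_apply]
          positivity)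
    _ ≤ ∫ x, ‖dbar (fun x => χ x * V x) x‖ ^ 2 * Real.exp (k * φ x) := h
    _ ≤ ∫ x, (2 * (‖dbar V x‖ ^ 2 * Real.exp (k * φ x))
          + 2 * K / T * (1 + ‖x‖) ^ (-(3 : ℝ))) := by
        refine integral_mono_of_nonneg (Eventually.of_forall fun x => by positivity)
          ((hI.const_mul 2).add (hi.const_mul _)) (Eventually.of_forall fun x => ?_)
        have e := err_le hA hC' hT c2 c3 c6 x
        rw [← hK] at e
        have n1 : ‖dbar (fun x => χ x * V x) x‖ ≤ ‖dbar χ x‖ * ‖V x‖ + ‖dbar V x‖ := by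
          rw [dbar_mul (c1'.differentiable two_ne_zero x) (hV.differentiable two_ne_zero x)]
          refine (norm_add_le _ _).trans ?_
          rw [norm_mul, norm_mul]
          have := mul_le_of_le_one_left (norm_nonneg (dbar V x)) (c4 x)
          linarith
        have n2 : ‖dbar (fun x => χ x * V x) x‖ ^ 2
            ≤ 2 * ‖dbar V x‖ ^ 2 + 2 * (‖dbar χ x‖ ^ 2 * ‖V x‖ ^ 2) := by
          refine (pow_le_pow_left₀ (norm_nonneg _) n1 2).trans ?_
          nlinarith [sq_nonneg (‖dbar χ x‖ * ‖V x‖ - ‖dbar V x‖)]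
        calc ‖dbar (fun x => χ x * V x) x‖ ^ 2 * Real.exp (k * φ x)
            ≤ (2 * ‖dbar V x‖ ^ 2 + 2 * (‖dbar χ x‖ ^ 2 * ‖V x‖ ^ 2)) * Real.exp (k * φ x) :=
              mul_le_mul_of_nonneg_right n2 (Real.exp_pos _).le
          _ = 2 * (‖dbar V x‖ ^ 2 * Real.exp (k * φ x))
              + 2 * (‖dbar χ x‖ ^ 2 * ‖V x‖ ^ 2 * Real.exp (k * φ x)) := by ring
          _ ≤ 2 * (‖dbar V x‖ ^ 2 * Real.exp (k * φ x))
              + 2 * (K / T * (1 + ‖x‖) ^ (-(3 : ℝ))) := by gcongr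
          _ = _ := by ring
    _ = _ := by
        rw [integral_add (hI.const_mul 2) (hi.const_mul _), integral_const_mul, integral_const_mul]
        ring

end HoX

open HoX in
theorem ho (h1 : AP) (h2 : CT) : HO := by
  intro φ ρ H R
  have hφ : ContDiff ℝ 2 φ := H.sφ.of_le two_le
  have hφc := hφ.continuous
  obtain ⟨A, hA⟩ := H.gφ
  obtain ⟨P, hP⟩ := H.gρ
  have hP' : ∀ x, ρ x ≤ P := fun x =>
    (le_mul_of_one_le_right (H.pos x).le (one_le_pow₀ (by nlinarith [sq_nonneg ‖x‖]))).trans (hP x)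
  have hP0 : 0 < P := (H.pos 0).trans_le (hP' 0)
  obtain ⟨x₀, -, hx₀⟩ := (isCompact_closedBall (0 : ℂ) |R|).exists_isMinOn
    ⟨0, mem_closedBall_self (abs_nonneg R)⟩ (continuous_lap hφ).continuousOn
  set l : ℝ := Laplacian.laplacian φ x₀ / 4 with hl
  have hl0 : 0 < l := by have := H.lap x₀; positivity
  have hR : ∀ x ∈ closedBall (0 : ℂ) |R|, l ≤ Laplacian.laplacian φ x / 4 := fun x hx => by
    have : Laplacian.laplacian φ x₀ ≤ Laplacian.laplacian φ x := hx₀ hx
    linarith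
  set W : ℝ := (volume : Measure ℂ).real (closedBall (0 : ℂ) |R|) with hW
  have hW0 : 0 ≤ W := measureReal_nonneg
  refine ⟨2 * W * P / l + 1, by positivity, fun k hk v g Q hv hv0 hQ hg hm => ?_⟩
  have hvs : HasCompactSupport v := hcs_of_ball hv0
  have gv : Gr k v := gr_of_compact k hv.continuous hvs
  have gr : Gr k fun x => v x - g x := gv.sub hg.gr
  have hw := H.contDiff_wt k
  set F : ℂ → ℂ := fun x => conj (v x - g x) * (wt φ ρ k x : ℂ) with hF
  have hgs : ContDiff ℝ 2 g := (hg.differentiable.contDiff (n := 2)).restrict_scalars ℝ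
  have hv2 : ContDiff ℝ 2 v := hv.of_le two_le
  have hFs : ContDiff ℝ 2 F :=
    (Complex.conjCLE.contDiff.comp (hv2.sub hgs)).mul
      (Complex.ofRealCLM.contDiff.comp (hw.of_le two_le))
  have nF : ∀ x, ‖F x‖ = ‖v x - g x‖ * wt φ ρ k x := fun x => by
    rw [hF]
    simp only [norm_mul, RCLike.norm_conj, Complex.norm_real]
    rw [Real.norm_of_nonneg (H.wt_pos k x).le]
  have mom : ∀ j < k + 1, ∫ x, F x * x ^ j = 0 := fun j hj => by
    have h := congrArg conj (hm j (Nat.lt_succ_iff.1 hj))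
    rw [← integral_conj, map_zero] at h
    rw [← h]
    refine integral_congr_ae (Eventually.of_forall fun x => ?_)
    simp only [hF, map_mul, Complex.conj_conj, Complex.conj_ofReal]
    ring
  obtain ⟨B, hB⟩ := gr.2
  obtain ⟨D, hD⟩ := H.wt_le k
  have hB0 : 0 ≤ B := by simpa using (norm_nonneg _).trans (hB 0)
  obtain ⟨V, hV, hVF, C', hC'⟩ := h2 F (k + 1) (B * D) hFs (fun x => by
    rw [nF]
    calc ‖v x - g x‖ * wt φ ρ k x * (1 + ‖x‖) ^ (k + 1 + 3)
        ≤ B * (1 + ‖x‖) ^ k * wt φ ρ k x * (1 + ‖x‖) ^ (k + 1 + 3) := by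
          have := hB x
          have := (H.wt_pos k x).le
          gcongr
      _ = B * (wt φ ρ k x * (1 + ‖x‖) ^ (2 * k + 4)) := by ring
      _ ≤ _ := mul_le_mul_of_nonneg_left (hD x) hB0) mom
  have hVc := hV.continuous
  have iN := H.integrable_sq gr
  set N : ℝ := ∫ x, ‖v x - g x‖ ^ 2 * wt φ ρ k x with hN
  have pF : ∀ x, ‖dbar V x‖ ^ 2 * Real.exp (k * φ x) ≤ P * (‖v x - g x‖ ^ 2 * wt φ ρ k x) :=
    fun x => by
      have e : wt φ ρ k x * Real.exp (k * φ x) = ρ x := by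
        unfold wt
        rw [mul_right_comm, ← Real.exp_add, neg_add_cancel, Real.exp_zero, one_mul]
      rw [hVF, nF]
      calc (‖v x - g x‖ * wt φ ρ k x) ^ 2 * Real.exp (k * φ x)
          = (wt φ ρ k x * Real.exp (k * φ x)) * (‖v x - g x‖ ^ 2 * wt φ ρ k x) := by ring
        _ ≤ _ := by
          rw [e]
          exact mul_le_mul_of_nonneg_right (hP' x)
            (mul_nonneg (sq_nonneg _) (H.wt_pos k x).le)
  have cd := continuous_dbar (hV.of_le one_le_two)
  have hI : Integrable fun x => ‖dbar V x‖ ^ 2 * Real.exp (k * φ x) :=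
    (iN.const_mul P).mono' (Continuous.aestronglyMeasurable (by fun_prop))
      (Eventually.of_forall fun x => by
        rw [Real.norm_of_nonneg (by positivity)]
        exact pF x)
  have k1 := key h1 hφ H.lap hA hk hV hC' hI hR
  have k2 : ∫ x, ‖dbar V x‖ ^ 2 * Real.exp (k * φ x) ≤ P * N := by
    rw [hN, ← integral_const_mul]
    exact integral_mono hI (iN.const_mul P) pF
  set X : ℝ := ∫ x in closedBall (0 : ℂ) |R|, ‖V x‖ ^ 2 * Real.exp (k * φ x) with hX
  have iF : ∀ {a : ℂ → ℂ}, Gr k a → Integrable fun x => a x * F x := fun ha => by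
    simpa only [hF, mul_assoc] using H.integrable ha gr
  have g0 : ∫ x, g x * F x = 0 := by
    obtain ⟨c, hc⟩ := hg
    simp only [hc, Finset.sum_mul]
    rw [integral_finsetSum _ fun j hj =>
      iF ((gr_pow (Nat.lt_succ_iff.1 (Finset.mem_range.1 hj))).const_mul (c j))]
    refine Finset.sum_eq_zero fun j hj => ?_
    have := mom j (Finset.mem_range.1 hj)
    simp only [mul_assoc, integral_const_mul, mul_comm (_ ^ j) (F _), this, mul_zero]
  have e1 : (N : ℂ) = -∫ x, dbar v x * V x := by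
    rw [integral_dbar_mul (hv2.of_le one_le_two) (hV.of_le one_le_two) hvs, neg_neg]
    simp only [hVF]
    rw [← sub_zero (∫ x, v x * F x), ← g0, ← integral_sub (iF gv) (iF hg.gr), hN,
      ← integral_complex_ofReal]
    refine integral_congr_ae (Eventually.of_forall fun x => ?_)
    simp only [hF]
    rw [← sub_mul, ← mul_assoc, Complex.mul_conj, Complex.normSq_eq_norm_sq]
    simp
  have cv := continuous_dbar (hv2.of_le one_le_two)
  have k3 : N ≤ W * (P * Q ^ 2 / l) + l / (4 * P) * X := by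
    have iX : IntegrableOn (fun x => ‖V x‖ ^ 2 * Real.exp (k * φ x)) (closedBall (0 : ℂ) |R|) :=
      ContinuousOn.integrableOn_compact (isCompact_closedBall _ _)
        (Continuous.continuousOn (by fun_prop))
    have iC : IntegrableOn (fun _ : ℂ => P * Q ^ 2 / l) (closedBall (0 : ℂ) |R|) :=
      ContinuousOn.integrableOn_compact (isCompact_closedBall _ _) continuousOn_const
    calc N ≤ ‖(N : ℂ)‖ := by rw [Complex.norm_real]; exact le_abs_self N
      _ ≤ ∫ x, ‖dbar v x * V x‖ := by rw [e1, norm_neg]; exact norm_integral_le_integral_norm _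
      _ = ∫ x in closedBall (0 : ℂ) |R|, ‖dbar v x * V x‖ := by
          refine (setIntegral_eq_integral_of_forall_compl_eq_zero fun x hx => ?_).symm
          rw [mem_closedBall_zero_iff, not_le] at hx
          rw [dbar_eq_zero (U := {w | |R| < ‖w‖}) (isOpen_lt continuous_const continuous_norm) hx
            fun w hw => hv0 w ((le_abs_self R).trans (le_of_lt hw)), zero_mul, norm_zero]
      _ ≤ ∫ x in closedBall (0 : ℂ) |R|,
            (P * Q ^ 2 / l + l / (4 * P) * (‖V x‖ ^ 2 * Real.exp (k * φ x))) := by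
          refine setIntegral_mono_on (ContinuousOn.integrableOn_compact (isCompact_closedBall _ _)
            (Continuous.continuousOn (by fun_prop))) (iC.add (iX.const_mul _))
            measurableSet_closedBall fun x _ => ?_
          have e : Real.exp (k * φ x) = Real.exp (k * φ x / 2) ^ 2 := by
            rw [← Real.exp_nat_mul]; congr 1; push_cast; ring
          rw [norm_mul, e]
          refine (mul_le_mul_of_nonneg_right (hQ x) (norm_nonneg _)).trans ?_
          have : P * Q ^ 2 / l + l / (4 * P) * (‖V x‖ ^ 2 * Real.exp (k * φ x / 2) ^ 2)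
              - Q * Real.exp (k * φ x / 2) * ‖V x‖
              = (2 * P * Q - l * (‖V x‖ * Real.exp (k * φ x / 2))) ^ 2 / (4 * P * l) := by
            field_simp
            ring
          have h5 : 0 ≤ (2 * P * Q - l * (‖V x‖ * Real.exp (k * φ x / 2))) ^ 2 / (4 * P * l) := by
            positivity
          linarith
      _ = _ := by
          rw [integral_add iC (iX.const_mul _), integral_const_mul, setIntegral_const, smul_eq_mul]
  have k4 : l / (4 * P) * X ≤ N / 2 := by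
    rw [div_mul_eq_mul_div, div_le_iff₀ (by positivity)]
    linarith
  have k5 : (2 * W * P / l + 1) * Q ^ 2 = 2 * (W * (P * Q ^ 2 / l)) + Q ^ 2 := by ring
  rw [k5]
  linarith [sq_nonneg Q]

end Pool.Agent.MP_6c43ae_an.Ct
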