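import Pool.Agent.MP_6c43ae_an.ct.Mn

/-! The subexponential bound of the kernel and the pairing lemma. -/

set_option autoImplicit false

open MeasureTheory Set Filter Topology Metric
open scoped ComplexConjugate ContDiff

namespace Pool.Agent.MP_6c43ae_an.Ct

namespace Kl2X

open MnX

variable {h : Bool → S2 → ℝ} {μ : Measure S2} {φ ρ : ℂ → ℝ}

lemma pair_sum (H : Lk h μ φ ρ) {k N : ℕ} {s : Fin N → Bool → S2 → ℂ}
    (hs : ∀ a, IsHolSection LL k (s a)) {v : ℂ → ℂ} (hv : Gr k v) (c : Fin N → ℂ) :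
    ∫ y, v y * conj (∑ a, c a * s a false y) * (wt φ ρ k y : ℂ)
      = ∑ a, conj (c a) * ∫ y, v y * conj (s a false y) * (wt φ ρ k y : ℂ) := by
  have e : ∀ y : ℂ, v y * conj (∑ a, c a * s a false y) * (wt φ ρ k y : ℂ)
      = ∑ a, conj (c a) * (v y * conj (s a false y) * (wt φ ρ k y : ℂ)) := fun y => by
    rw [map_sum, Finset.mul_sum, Finset.sum_mul]
    exact Finset.sum_congr rfl fun a _ => by rw [map_mul]; ring
  simp only [e]
  rw [integral_finsetSum _ fun a _ => (H.pd.integrable hv (isPoly_section (hs a)).gr).const_mul _]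
  simp only [integral_const_mul]

lemma sum_pair (H : Lk h μ φ ρ) {k N : ℕ} {s : Fin N → Bool → S2 → ℂ}
    (hs : IsOrthonormalBasis LL h μ k N s) (c : Fin N → ℂ) (b : Fin N) :
    ∫ y : ℂ, (∑ a, c a * s a false y) * conj (s b false y) * (wt φ ρ k y : ℂ) = c b := by
  have e : ∀ y : ℂ, (∑ a, c a * s a false y) * conj (s b false y) * (wt φ ρ k y : ℂ)
      = ∑ a, c a * (s a false y * conj (s b false y) * (wt φ ρ k y : ℂ)) := fun y => by
    rw [Finset.sum_mul, Finset.sum_mul]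
    exact Finset.sum_congr rfl fun a _ => by ring
  simp only [e]
  rw [integral_finsetSum _ fun a _ => (H.pd.integrable (isPoly_section (hs.hol a)).gr
    (isPoly_section (hs.hol b)).gr).const_mul _]
  simp only [integral_const_mul, ← H.innerProd, hs.orthonormal]
  simp

lemma pair_ker (H : Lk h μ φ ρ) {k N : ℕ} {s : Fin N → Bool → S2 → ℂ}
    (hs : ∀ a, IsHolSection LL k (s a)) {v : ℂ → ℂ} (hv : Gr k v) (x : S2) :
    ‖∫ y, v y * conj (ker h k N s x false y) * (wt φ ρ k y : ℂ)‖ ^ 2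
      = pn h k (fun i y => ∑ a, (∫ y, v y * conj (s a false y) * (wt φ ρ k y : ℂ)) * s a i y) x := by
  unfold ker
  rw [pair_sum H hs hv, pn]
  have e : ∑ a, conj (((√(h (LL.indexAt x) x) ^ k : ℝ) : ℂ) * conj (s a (LL.indexAt x) x)) *
      ∫ y, v y * conj (s a false y) * (wt φ ρ k y : ℂ) = ((√(h (LL.indexAt x) x) ^ k : ℝ) : ℂ) *
      ∑ a, (∫ y, v y * conj (s a false y) * (wt φ ρ k y : ℂ)) * s a (LL.indexAt x) x := by
    rw [Finset.mul_sum]
    refine Finset.sum_congr rfl fun a _ => ?_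
    rw [map_mul, Complex.conj_conj, Complex.conj_ofReal]
    ring
  rw [e, norm_mul, mul_pow, Complex.norm_real, Real.norm_of_nonneg (by positivity), ← pow_mul,
    mul_comm k 2, pow_mul, Real.sq_sqrt (H.met.pos _ _ (LL.mem_baseSet_at x)).le, mul_comm]

lemma sq_int (u : ℂ → ℂ) (k : ℕ) : ∫ y, u y * conj (u y) * (wt φ ρ k y : ℂ)
    = ((∫ y, ‖u y‖ ^ 2 * wt φ ρ k y : ℝ) : ℂ) := by
  rw [← integral_complex_ofReal]
  refine integral_congr_ae (Eventually.of_forall fun y => ?_)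
  simp only
  rw [Complex.mul_conj, Complex.normSq_eq_norm_sq]
  push_cast
  ring

lemma global (h2 : SM) (H : Lk h μ φ ρ) {ε : ℝ} (hε : 0 < ε) : ∃ C : ℝ, 0 < C ∧
    ∀ (k : ℕ) (s : Bool → S2 → ℂ), IsHolSection LL k s → ∀ x,
      pn h k s x ≤ C * Real.exp (ε * k) * ∫ y : ℂ, ‖s false y‖ ^ 2 * wt φ ρ k y := by
  have key := isCompact_univ.induction_on (X := S2) (p := fun T => ∃ C : ℝ, 0 < C ∧
    ∀ (k : ℕ) (s : Bool → S2 → ℂ), IsHolSection LL k s → ∀ x ∈ T,
      pn h k s x ≤ C * Real.exp (ε * k) * ∫ y : ℂ, ‖s false y‖ ^ 2 * wt φ ρ k y)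
    ⟨1, one_pos, fun _ _ _ x hx => hx.elim⟩
    (fun T T' hT ⟨C, hC, H⟩ => ⟨C, hC, fun k s hs x hx => H k s hs x (hT hx)⟩) ?_ ?_
  · obtain ⟨C, hC, key⟩ := key
    exact ⟨C, hC, fun k s hs x => key k s hs x (mem_univ x)⟩
  · rintro T T' ⟨C, hC, H1⟩ ⟨C', hC', H2⟩
    refine ⟨max C C', lt_max_of_lt_left hC, fun k s hs x hx => ?_⟩
    have h0 : 0 ≤ ∫ y : ℂ, ‖s false y‖ ^ 2 * wt φ ρ k y :=
      integral_nonneg fun y => mul_nonneg (sq_nonneg _) (H.pd.wt_pos k y).le
    rcases hx with hx | hx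
    · exact (H1 k s hs x hx).trans (by gcongr; exact le_max_left _ _)
    · exact (H2 k s hs x hx).trans (by gcongr; exact le_max_right _ _)
  · intro p _
    obtain ⟨U, hU, C, hC, H1⟩ := h2 h μ φ ρ H p univ univ_mem ε hε
    exact ⟨U, mem_nhdsWithin_of_mem_nhds hU, C, hC, fun k s hs x hx => by
      simpa using H1 k s hs x hx⟩

end Kl2X

open Kl2X MnX

theorem kb2 (h2 : SM) : KB := by
  intro h μ φ ρ H ε hε
  obtain ⟨C, hC, hg⟩ := global h2 H hε
  refine ⟨C, hC, fun k N s hs x y => ?_⟩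
  have hf : IsHolSection LL k (ker h k N s y) := isHolSection_sum hs.hol _
  set J := ∫ z : ℂ, ‖ker h k N s y false z‖ ^ 2 * wt φ ρ k z with hJ
  have hJ0 : 0 ≤ J := integral_nonneg fun z => mul_nonneg (sq_nonneg _) (H.pd.wt_pos k z).le
  have e1 := pair_ker H hs.hol (isPoly_section hf).gr y
  rw [sq_int, Complex.norm_real, Real.norm_of_nonneg hJ0] at e1
  have e2 : (fun i z => ∑ a, (∫ y' : ℂ, ker h k N s y false y' * conj (s a false y') *
      (wt φ ρ k y' : ℂ)) * s a i z) = ker h k N s y := by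
    ext i z
    unfold ker
    simp only [sum_pair H hs]
  rw [e2] at e1
  have e3 := hg k _ hf y
  rw [← e1, ← hJ] at e3
  have hp : 0 < C * Real.exp (ε * k) := by positivity
  have e4 : J ≤ C * Real.exp (ε * k) := by
    by_contra hne
    nlinarith [not_le.1 hne]
  have e5 := hg k _ hf x
  rw [pn_ker H.met, ← hJ] at e5
  refine (abs_le_of_sq_le_sq' ?_ hp.le).2
  nlinarith

theorem kl2 (h1 : SM) (h2 : HO) : KL := by
  intro h μ φ ρ H w V hV R ε hε
  obtain ⟨U, hU, C, hC, hsm⟩ := h1 h μ φ ρ H w (interior V) (interior_mem_nhds.2 hV) (2 * ε)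
    (by positivity)
  obtain ⟨D, hD, hho⟩ := h2 φ ρ H.pd R
  refine ⟨U, hU, √(C * D), by positivity, fun k hk N s hs x hx v Q hQ v1 v2 v3 v4 => ?_⟩
  have hv : Gr k v := gr_of_compact k v1.continuous (hcs_of_ball v2)
  set c : Fin N → ℂ := fun a => ∫ y, v y * conj (s a false y) * (wt φ ρ k y : ℂ) with hc
  have hg : IsHolSection LL k (fun i y => ∑ a, c a * s a i y) := isHolSection_sum hs.hol c
  have hgp := isPoly_section hg
  have horth : ∀ j ≤ k, ∫ y : ℂ, (v y - ∑ a, c a * s a false y) * conj (y ^ j) *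
      (wt φ ρ k y : ℂ) = 0 := by
    intro j hj
    obtain ⟨b, hb⟩ := hs.span _ (isHolSection_mon hj 1)
    have e : ∀ y : ℂ, y ^ j = ∑ a, b a * s a false y := fun y => by
      rw [← hb false y (OnePoint.coe_ne_infty y)]; simp [mon]
    simp only [e]
    rw [pair_sum H hs.hol (hv.sub hgp.gr)]
    refine Finset.sum_eq_zero fun a _ => ?_
    have ha := (isPoly_section (hs.hol a)).gr
    simp only [sub_mul]
    rw [integral_sub (H.pd.integrable hv ha) (H.pd.integrable hgp.gr ha), sum_pair H hs]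
    simp [hc]
  have e1 := hho k hk v _ Q v1 v2 v4 hgp horth
  have e2 := hsm k _ hg x hx
  have hm : MeasurableSet ((fun z : ℂ => (z : S2)) ⁻¹' interior V) :=
    (isOpen_interior.preimage OnePoint.continuous_coe).measurableSet
  have e3 : ∫ y in (fun z : ℂ => (z : S2)) ⁻¹' interior V,
      ‖∑ a, c a * s a false y‖ ^ 2 * wt φ ρ k y
      ≤ ∫ y : ℂ, ‖v y - ∑ a, c a * s a false y‖ ^ 2 * wt φ ρ k y := by
    rw [setIntegral_congr_fun hm (g := fun y => ‖v y - ∑ a, c a * s a false y‖ ^ 2 * wt φ ρ k y)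
      fun y hy => by simp [v3 y (interior_subset hy)]]
    exact setIntegral_le_integral (H.pd.integrable_sq (hv.sub hgp.gr))
      (Eventually.of_forall fun y => mul_nonneg (sq_nonneg _) (H.pd.wt_pos k y).le)
  refine (abs_le_of_sq_le_sq' ?_ (by positivity)).2
  rw [pair_ker H hs.hol hv x]
  refine (e2.trans (mul_le_mul_of_nonneg_left (e3.trans e1) (by positivity))).trans_eq ?_
  rw [mul_pow, mul_pow, Real.sq_sqrt (by positivity), ← Real.exp_nat_mul]
  push_cast
  ring_nf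

end Pool.Agent.MP_6c43ae_an.Ct
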