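import Mathlib
import Pool.Agent.MP_6c43ae_an.ct.Spec

/-! Project CANTOR: the local analytic data (statement `LC`). -/

set_option autoImplicit false

open MeasureTheory Set Filter Topology Metric
open scoped ComplexConjugate ContDiff

namespace Pool.Agent.MP_6c43ae_an.Ct

namespace LcX

lemma diag_mem {y x : ℂ} {r : ℝ} (hx : x ∈ ball y r) :
    ((x, conj x) : C2) ∈ ball ((y, conj y) : C2) r :=
  mem_ball_prod.2 ⟨hx, by
    rw [mem_ball, Complex.dist_conj_conj]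
    exact hx⟩

lemma ev_eq {f : ℂ → ℝ} {ψ : C2 → ℂ} {y x : ℂ} {r : ℝ}
    (he : ∀ x ∈ ball y r, ψ (x, conj x) = f x) (hx : x ∈ ball y r) :
    (fun w => (f w : ℂ)) =ᶠ[𝓝 x] fun w => ψ (w, conj w) := by
  filter_upwards [isOpen_ball.mem_nhds hx] with w hw using (he w hw).symm

lemma dbar_eq {f : ℂ → ℝ} {ψ : C2 → ℂ} {y x : ℂ} {r : ℝ}
    (hψ : DifferentiableOn ℂ ψ (ball (y, conj y) r))
    (he : ∀ x ∈ ball y r, ψ (x, conj x) = f x) (hx : x ∈ ball y r) :
    dbar (fun w => (f w : ℂ)) x = fderiv ℂ ψ (x, conj x) (0, 1) := by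
  rw [dbar_congr (ev_eq he hx),
    dbar_slice (hψ.differentiableAt (isOpen_ball.mem_nhds (diag_mem hx)))]

lemma diff_at {f : ℂ → ℝ} {ψ : C2 → ℂ} {y x : ℂ} {r : ℝ}
    (hψ : DifferentiableOn ℂ ψ (ball (y, conj y) r))
    (he : ∀ x ∈ ball y r, ψ (x, conj x) = f x) (hx : x ∈ ball y r) :
    DifferentiableAt ℝ (fun w => (f w : ℂ)) x := by
  have h := hψ.differentiableAt (isOpen_ball.mem_nhds (diag_mem hx))
  have h2 : DifferentiableAt ℝ (fun w : ℂ => ψ (w, conj w)) x :=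
    ((h.hasFDerivAt.restrictScalars ℝ).comp x (hasFDerivAt_slice x)).differentiableAt
  exact h2.congr_of_eventuallyEq (ev_eq he hx)

lemma mixed {f : ℂ → ℝ} {ψ : C2 → ℂ} {y : ℂ} {r : ℝ} (hr : 0 < r) (hf : AnalyticAt ℝ f y)
    (hψ : DifferentiableOn ℂ ψ (ball (y, conj y) r))
    (he : ∀ x ∈ ball y r, ψ (x, conj x) = f x) :
    fderiv ℂ (fun q => fderiv ℂ ψ q (0, 1)) (y, conj y) (1, 0)
      = ((Laplacian.laplacian f y / 4 : ℝ) : ℂ) := by
  have hg := hol_fderiv isOpen_ball hψ (0, 1)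
  have h2 : ContDiffAt ℝ 2 f y := hf.contDiffAt
  have h3 : ContDiffAt ℝ 2 (fun w => (f w : ℂ)) y :=
    Complex.ofRealCLM.contDiff.contDiffAt.comp y h2
  rw [← dz_slice (hg.differentiableAt (ball_mem_nhds _ hr)),
    dz_congr (g := dbar fun w => (f w : ℂ)) ?_, dz_dbar h3, laplacian_ofReal h2]
  · push_cast; rfl
  · filter_upwards [ball_mem_nhds y hr] with w hw using (dbar_eq hψ he hw).symm

/-- the real derivative of a real function through `dbar` -/
lemma re_fderiv (f : ℂ → ℝ) (z v : ℂ) :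
    (fderiv ℝ (fun w => (f w : ℂ)) z v).re = 2 * (dbar (fun w => (f w : ℂ)) z * conj v).re := by
  have h := dz_conj (fun w => (f w : ℂ)) z
  simp only [Complex.conj_ofReal] at h
  rw [fderiv_eq_dz_dbar, h]
  simp only [Complex.add_re, Complex.mul_re, Complex.conj_re, Complex.conj_im]
  ring

lemma shift_mem {y₀ y : ℂ} {r : ℝ} (hy : y ∈ ball y₀ r) {q : C2} (hq : q ∈ ball (0 : C2) r) :
    (y, conj y) + q ∈ ball ((y₀, conj y₀) : C2) (2 * r) := by
  have h1 := diag_mem hy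
  rw [mem_ball, dist_eq_norm] at h1 ⊢
  rw [mem_ball_zero_iff] at hq
  have h2 := norm_add_le (((y, conj y) : C2) - (y₀, conj y₀)) q
  rw [add_sub_right_comm]
  linarith

/-- the divided difference stays near `-β` -/
lemma theta {G : C2 → ℂ} {r β : ℝ} (hr : 0 < r) (hβ : 0 < β)
    (hG : DifferentiableOn ℂ G (ball 0 r))
    (hb : ∀ q ∈ ball (0 : C2) r, ‖fderiv ℂ G q (1, 0) - β‖ ≤ β / 2) :
    ∃ θ : C2 → ℂ, DifferentiableOn ℂ θ (ball 0 r) ∧ ∀ q ∈ ball (0 : C2) r,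
      ‖θ q + β‖ ≤ β / 2 ∧ G (0, q.2) - G q = q.1 * θ q := by
  have hB : ball (0 : C2) r = ball 0 r ×ˢ ball 0 r := (ball_prod_same 0 0 r).symm
  have hH : DifferentiableOn ℂ (fun q : C2 => β * q.1 - G q) (ball 0 r) :=
    DifferentiableOn.sub (by fun_prop) hG
  refine ⟨fun q => ds (fun q : C2 => β * q.1 - G q) q - β, ?_, fun q hq => ⟨?_, ?_⟩⟩
  · rw [hB] at hH ⊢
    exact (differentiableOn_ds isOpen_ball hH).sub_const _
  · have hq' := hq
    rw [hB] at hq'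
    have hm : ∀ x ∈ ball (0 : ℂ) r, ((x, q.2) : C2) ∈ ball (0 : C2) r := fun x hx => by
      rw [hB]; exact ⟨hx, hq'.2⟩
    have hd : ∀ x ∈ ball (0 : ℂ) r, HasDerivAt (fun x : ℂ => β * x - G (x, q.2))
        (β - fderiv ℂ G (x, q.2) (1, 0)) x := fun x hx => by
      have h1 := deriv_fst (hG.differentiableAt (isOpen_ball.mem_nhds (hm x hx)))
      exact (((hasDerivAt_id x).const_mul (β : ℂ)).sub h1).congr_deriv (by rw [mul_one])
    have h := norm_ds_le (H := fun q : C2 => β * q.1 - G q) (M := β / 2 * r) hq'.1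
      (fun x hx => (hd x hx).differentiableAt.differentiableWithinAt) fun x hx => by
        have h2 := (convex_ball (0 : ℂ) r).norm_image_sub_le_of_norm_hasDerivWithin_le
          (C := β / 2) (fun x hx => (hd x hx).hasDerivWithinAt)
          (fun x hx => by rw [norm_sub_rev]; exact hb _ (hm x hx)) (mem_ball_self hr) hx
        rw [sub_zero] at h2
        exact h2.trans (mul_le_mul_of_nonneg_left (mem_ball_zero_iff.1 hx).le (by positivity))
    rw [mul_div_assoc, div_self hr.ne', mul_one] at h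
    simpa using h
  · rw [mul_sub, mul_ds]
    simp only [mul_zero]
    ring

/-- the quadratic decay along a ray -/
lemma ray {f : ℂ → ℝ} {ψ θ : C2 → ℂ} {y x : ℂ} {r β : ℝ}
    (hψ : DifferentiableOn ℂ ψ (ball 0 r)) (h0 : ψ 0 = f y)
    (hf : ∀ w ∈ ball (0 : ℂ) r, DifferentiableAt ℝ (fun w => (f w : ℂ)) (y + w) ∧
      dbar (fun w => (f w : ℂ)) (y + w) = fderiv ℂ ψ (w, conj w) (0, 1))
    (hθ : ∀ q ∈ ball (0 : C2) r, ‖θ q + β‖ ≤ β / 2 ∧
      fderiv ℂ ψ (0, q.2) (0, 1) - fderiv ℂ ψ q (0, 1) = q.1 * θ q)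
    (hx : x ∈ ball (0 : ℂ) r) :
    2 * (ψ (0, conj x)).re - f (y + x) - f y ≤ -(β / 2) * ‖x‖ ^ 2 := by
  have hr : 0 < r := nonempty_ball.1 ⟨_, hx⟩
  have hm : ∀ τ ∈ Icc (0 : ℝ) 1, (τ : ℂ) * x ∈ ball (0 : ℂ) r := fun τ hτ => by
    rw [mem_ball_zero_iff] at hx ⊢
    rw [norm_mul, Complex.norm_real, Real.norm_of_nonneg hτ.1]
    exact (mul_le_of_le_one_left (norm_nonneg x) hτ.2).trans_lt hx
  have hc : ∀ w ∈ ball (0 : ℂ) r, conj w ∈ ball (0 : ℂ) r := fun w hw => by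
    rw [mem_ball_zero_iff] at hw ⊢
    rwa [Complex.norm_conj]
  have hd : ∀ τ ∈ Icc (0 : ℝ) 1, ∃ d : ℝ, d ≤ 0 ∧ HasDerivAt
      (fun τ : ℝ => 2 * (ψ (0, τ * conj x)).re - f (y + τ * x) + β / 2 * ‖x‖ ^ 2 * τ ^ 2) d τ := by
    intro τ hτ
    have e : conj ((τ : ℂ) * x) = τ * conj x := by simp
    have m1 : ((0, τ * conj x) : C2) ∈ ball (0 : C2) r :=
      mem_ball_prod.2 ⟨mem_ball_self hr, e ▸ hc _ (hm τ hτ)⟩
    have m2 : ((τ * x, τ * conj x) : C2) ∈ ball (0 : C2) r :=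
      mem_ball_prod.2 ⟨hm τ hτ, e ▸ hc _ (hm τ hτ)⟩
    have l : ∀ v : ℂ, HasDerivAt (fun τ : ℝ => (τ : ℂ) * v) v τ := fun v => by
      simpa using (Complex.ofRealCLM.hasDerivAt (x := τ)).mul_const v
    have d1 : HasDerivAt (fun τ : ℝ => ψ (0, τ * conj x))
        (fderiv ℂ ψ (0, τ * conj x) (0, 1) * conj x) τ := by
      have h1 := deriv_snd (hψ.differentiableAt (isOpen_ball.mem_nhds m1))
      exact (h1.scomp τ (l (conj x))).congr_deriv (by rw [smul_eq_mul, mul_comm])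
    obtain ⟨f1, f2⟩ := hf _ (hm τ hτ)
    have d2 : HasDerivAt (fun τ : ℝ => (f (y + τ * x) : ℂ))
        (fderiv ℝ (fun w => (f w : ℂ)) (y + τ * x) x) τ :=
      f1.hasFDerivAt.comp_hasDerivAt τ ((l x).const_add y)
    have d3 := Complex.reCLM.hasFDerivAt.comp_hasDerivAt τ d1
    have d4 := Complex.reCLM.hasFDerivAt.comp_hasDerivAt τ d2
    have d5 := ((d3.const_mul 2).sub d4).add
      (((hasDerivAt_id τ).pow 2).const_mul (β / 2 * ‖x‖ ^ 2))
    refine ⟨_, ?_, d5⟩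
    obtain ⟨t1, t2⟩ := hθ _ m2
    have t3 : (θ (τ * x, τ * conj x)).re ≤ -(β / 2) := by
      have := (Complex.re_le_norm _).trans t1
      simp only [Complex.add_re, Complex.ofReal_re] at this
      linarith
    have t4 : (fderiv ℂ ψ (0, τ * conj x) (0, 1) * conj x).re
        - (fderiv ℂ ψ (τ * x, τ * conj x) (0, 1) * conj x).re
        = τ * ‖x‖ ^ 2 * (θ (τ * x, τ * conj x)).re := by
      rw [← Complex.sub_re, ← sub_mul, t2, mul_right_comm, mul_assoc (τ : ℂ), Complex.mul_conj,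
        Complex.normSq_eq_norm_sq, ← Complex.ofReal_mul, Complex.re_ofReal_mul]
    simp only [Complex.reCLM_apply, re_fderiv, f2, e, id]
    have t5 := mul_le_mul_of_nonneg_left t3 (mul_nonneg hτ.1 (sq_nonneg ‖x‖))
    rw [show 2 - 1 = 1 from rfl, pow_one, Nat.cast_ofNat]
    nlinarith
  have ha : AntitoneOn
      (fun τ : ℝ => 2 * (ψ (0, τ * conj x)).re - f (y + τ * x) + β / 2 * ‖x‖ ^ 2 * τ ^ 2)
      (Icc 0 1) := by
    refine antitoneOn_of_deriv_nonpos (convex_Icc 0 1) (fun τ hτ => ?_) (fun τ hτ => ?_)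
      fun τ hτ => ?_
    · obtain ⟨d, -, h⟩ := hd τ hτ
      exact h.continuousAt.continuousWithinAt
    · obtain ⟨d, -, h⟩ := hd τ (interior_subset hτ)
      exact h.differentiableAt.differentiableWithinAt
    · obtain ⟨d, h1, h⟩ := hd τ (interior_subset hτ)
      rwa [h.deriv]
  have h := ha (left_mem_Icc.2 zero_le_one) (right_mem_Icc.2 zero_le_one) zero_le_one
  have e0 : ((0, 0) : C2) = 0 := rfl
  simp only [Complex.ofReal_one, one_mul, Complex.ofReal_zero, zero_mul, add_zero, e0, h0,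
    Complex.ofReal_re] at h
  nlinarith

lemma two_sided {z c : ℂ} {a : ℝ} (hc : ‖c‖ = a) (h : ‖z - c‖ ≤ a / 2) :
    a / 2 ≤ ‖z‖ ∧ ‖z‖ ≤ 2 * a := by
  have h1 := abs_le.1 ((abs_norm_sub_norm_le z c).trans h)
  have h2 := norm_nonneg c
  constructor <;> linarith [h1.1, h1.2]

end LcX

open LcX in
theorem lc (h : CX) : LC := by
  intro φ ρ y₀ hφ hρ hρ0 hlap R hR
  obtain ⟨r₁, hr₁, ψ, hψ, eψ⟩ := h φ y₀ hφ
  obtain ⟨r₂, hr₂, ϱ, hϱ, eϱ⟩ := h ρ y₀ hρ
  have hg := hol_fderiv isOpen_ball hψ (0, 1)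
  have hg1 := hol_fderiv isOpen_ball hg (1, 0)
  have hmix := mixed hr₁ hφ hψ eψ
  set β : ℝ := Laplacian.laplacian φ y₀ / 4 with hβ
  have β0 : 0 < β := by positivity
  have c1 := (hg1.continuousOn.continuousAt (ball_mem_nhds _ hr₁)).eventually
    (closedBall_mem_nhds _ (half_pos β0))
  have c2 := (hϱ.continuousOn.continuousAt (ball_mem_nhds _ hr₂)).eventually
    (closedBall_mem_nhds _ (half_pos hρ0))
  obtain ⟨δ, δ0, hδ⟩ := Metric.eventually_nhds_iff_ball.1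
    ((c1.and c2).and (Filter.Eventually.and (ball_mem_nhds _ hr₁) (ball_mem_nhds _ hr₂)))
  have r0 : 0 < min (δ / 2) R := by positivity
  refine ⟨min (δ / 2) R, min (β / 2) (ρ y₀ / 2), max (2 * β) (2 * ρ y₀), r0, min_le_right _ _,
    by positivity, fun y hy => ?_⟩
  set r := min (δ / 2) R with hr
  have key : ∀ q ∈ ball (0 : C2) r, _ := fun q hq => hδ _ (ball_subset_ball
    (by linarith [min_le_left (δ / 2) R]) (shift_mem hy hq))
  have dm : ∀ x ∈ ball (0 : ℂ) r, ((x, conj x) : C2) ∈ ball (0 : C2) r := fun x hx => by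
    have := diag_mem hx
    rwa [map_zero] at this
  have ad : ∀ x : ℂ, ((y, conj y) : C2) + (x, conj x) = (y + x, conj (y + x)) := fun x => by simp
  have in1 : ∀ x ∈ ball (0 : ℂ) r, y + x ∈ ball y₀ r₁ := fun x hx => by
    have := (key _ (dm x hx)).2.1
    rw [ad] at this
    exact (mem_ball_prod.1 this).1
  have in2 : ∀ x ∈ ball (0 : ℂ) r, y + x ∈ ball y₀ r₂ := fun x hx => by
    have := (key _ (dm x hx)).2.2
    rw [ad] at this
    exact (mem_ball_prod.1 this).1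
  have sh : ∀ {F : C2 → ℂ} {s : ℝ}, DifferentiableOn ℂ F (ball (y₀, conj y₀) s) →
      (∀ q ∈ ball (0 : C2) r, (y, conj y) + q ∈ ball ((y₀, conj y₀) : C2) s) →
      DifferentiableOn ℂ (fun q => F ((y, conj y) + q)) (ball 0 r) := fun hF hm =>
    hF.comp (by fun_prop) hm
  have dψ := sh hψ fun q hq => (key q hq).2.1
  obtain ⟨θ, dθ, hθ⟩ := theta (G := fun q => fderiv ℂ ψ ((y, conj y) + q) (0, 1)) r0 β0
    (sh hg fun q hq => (key q hq).2.1) fun q hq => by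
      have h1 := (key q hq).1.1
      simp only [dist_eq_norm, hmix] at h1
      rwa [fderiv_comp_add_left (f := fun q => fderiv ℂ ψ q (0, 1))]
  have hθ' : ∀ q ∈ ball (0 : C2) r, ‖θ q + β‖ ≤ β / 2 ∧
      fderiv ℂ (fun q => ψ ((y, conj y) + q)) (0, q.2) (0, 1)
        - fderiv ℂ (fun q => ψ ((y, conj y) + q)) q (0, 1) = q.1 * θ q := fun q hq => by
    rw [fderiv_comp_add_left, fderiv_comp_add_left]
    exact hθ q hq
  refine ⟨fun q => ψ ((y, conj y) + q), θ, fun q => ϱ ((y, conj y) + q), dψ, dθ,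
    sh hϱ fun q hq => (key q hq).2.2, fun x hx => ⟨?_, ?_, ?_⟩, fun q hq => ?_⟩
  · simp only [ad]
    exact eψ _ (in1 x hx)
  · simp only [ad]
    exact eϱ _ (in2 x hx)
  · have h1 := LcX.ray (f := φ) (y := y) dψ
      (by simpa using eψ _ (in1 0 (mem_ball_self r0)))
      (fun w hw => ⟨diff_at hψ eψ (in1 w hw), by
        rw [fderiv_comp_add_left, ad, dbar_eq hψ eψ (in1 w hw)]⟩) hθ' hx
    refine h1.trans (mul_le_mul_of_nonneg_right (neg_le_neg (min_le_left _ _)) (sq_nonneg _))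
  · have h1 := two_sided (z := θ q) (c := -(β : ℂ)) (a := β)
      (by rw [norm_neg, Complex.norm_real, Real.norm_of_nonneg β0.le])
      (by rw [sub_neg_eq_add]; exact (hθ q hq).1)
    have h2 := two_sided (z := ϱ ((y, conj y) + q)) (c := (ρ y₀ : ℂ)) (a := ρ y₀)
      (by rw [Complex.norm_real, Real.norm_of_nonneg hρ0.le]) (by
        have h3 := (key q hq).1.2
        rwa [dist_eq_norm, eϱ _ (mem_ball_self hr₂)] at h3)
    exact ⟨(min_le_left _ _).trans h1.1, h1.2.trans (le_max_left _ _),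
      (min_le_right _ _).trans h2.1, h2.2.trans (le_max_right _ _), (hθ' q hq).2⟩

end Pool.Agent.MP_6c43ae_an.Ct
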