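import Pool.Agent.MP_6c43ae_an.ct.Spec

/-! Project CANTOR: the local reproducing kernel modulo exponentially small errors. -/

set_option autoImplicit false

open MeasureTheory Set Filter Topology Metric
open scoped ComplexConjugate ContDiff

namespace Pool.Agent.MP_6c43ae_an.Ct

namespace LpX

lemma cut {χ F : ℂ → ℂ} {s t : ℝ} (hst : s < t) (hχ : ContDiff ℝ ∞ χ)
    (h0 : ∀ w, s ≤ ‖w‖ → χ w = 0) (hF : ContDiffOn ℝ ∞ F (ball 0 t)) :
    ContDiff ℝ ∞ (fun x => χ x * F x) ∧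
      ∀ x, dbar (fun x => χ x * F x) x = dbar χ x * F x + χ x * dbar F x := by
  have ev : ∀ x : ℂ, s < ‖x‖ → χ =ᶠ[𝓝 x] fun _ => 0 := fun x hx => by
    filter_upwards [(isOpen_lt continuous_const continuous_norm).mem_nhds hx] with w hw
    exact h0 w (le_of_lt hw)
  have ev2 : ∀ x : ℂ, s < ‖x‖ → (fun x => χ x * F x) =ᶠ[𝓝 x] fun _ => 0 := fun x hx => by
    filter_upwards [ev x hx] with w hw
    rw [hw, zero_mul]
  have hin : ∀ x : ℂ, ‖x‖ < t → ContDiffAt ℝ ∞ F x := fun x hx =>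
    hF.contDiffAt (isOpen_ball.mem_nhds (mem_ball_zero_iff.2 hx))
  refine ⟨contDiff_iff_contDiffAt.2 fun x => ?_, fun x => ?_⟩
  · rcases lt_or_ge ‖x‖ t with hx | hx
    · exact hχ.contDiffAt.mul (hin x hx)
    · exact contDiffAt_const.congr_of_eventuallyEq (ev2 x (hst.trans_le hx))
  · rcases lt_or_ge ‖x‖ t with hx | hx
    · exact dbar_mul (hχ.differentiable (by simp) x) ((hin x hx).differentiableAt (by simp))
    · have h1 := hst.trans_le hx
      rw [dbar_congr (ev2 x h1), dbar_congr (ev x h1), dbar_const, h0 x h1.le]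
      ring

lemma dbar_zero_out {χ : ℂ → ℂ} {s : ℝ} (h0 : ∀ w, s ≤ ‖w‖ → χ w = 0) {x : ℂ} (hx : s < ‖x‖) :
    dbar χ x = 0 := by
  have ev : χ =ᶠ[𝓝 x] fun _ => 0 := by
    filter_upwards [(isOpen_lt continuous_const continuous_norm).mem_nhds hx] with w hw
    exact h0 w (le_of_lt hw)
  rw [dbar_congr ev, dbar_const]

lemma dbar_zero_in {χ : ℂ → ℂ} {s : ℝ} (h1 : ∀ w, ‖w‖ < s → χ w = 1) {x : ℂ} (hx : ‖x‖ < s) :
    dbar χ x = 0 := by
  have ev : χ =ᶠ[𝓝 x] fun _ => 1 := by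
    filter_upwards [(isOpen_lt continuous_norm continuous_const).mem_nhds hx] with w hw
    exact h1 w hw
  rw [dbar_congr ev, dbar_const]

lemma abs_step {T S : ℂ → ℂ} {w : ℂ} {r δ : ℝ} (hr : 0 < r) (hT : AEStronglyMeasurable T volume)
    (hS : Integrable S) (hin : ∀ x, x ≠ 0 → ‖x‖ < r → ‖T x + Real.pi * S x‖ ≤ δ)
    (hout : ∀ x, r ≤ ‖x‖ → T x + Real.pi * S x = 0) (hI : ∫ x, T x = -Real.pi * w) :
    ‖w - ∫ x, S x‖ ≤ δ * r ^ 2 := by
  have hg : Integrable ((ball (0 : ℂ) r).indicator fun _ => δ) :=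
    (integrable_indicator_iff measurableSet_ball).2 (integrableOn_const measure_ball_lt_top.ne)
  have hb : ∀ᵐ x : ℂ, ‖T x + Real.pi * S x‖ ≤ (ball (0 : ℂ) r).indicator (fun _ => δ) x := by
    filter_upwards [compl_mem_ae_iff.2 (measure_singleton (0 : ℂ))] with x hx
    rcases lt_or_ge ‖x‖ r with h | h
    · rw [indicator_of_mem (mem_ball_zero_iff.2 h)]
      exact hin x hx h
    · rw [indicator_of_notMem (by rw [mem_ball_zero_iff]; exact not_lt.2 h), hout x h, norm_zero]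
  have hS' : Integrable (fun x => (Real.pi : ℂ) * S x) := hS.const_mul _
  have h1 : Integrable (fun x => T x + Real.pi * S x) :=
    hg.mono' (hT.add hS'.aestronglyMeasurable) hb
  have h2 : Integrable T := by
    have := h1.sub hS'
    refine this.congr (Eventually.of_forall fun x => ?_)
    simp
  have h3 := norm_integral_le_of_norm_le hg hb
  rw [integral_add h2 hS', hI, integral_const_mul, integral_indicator measurableSet_ball,
    setIntegral_const, Measure.real, Complex.volume_ball] at h3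
  have e : -(Real.pi : ℂ) * w + Real.pi * ∫ x, S x = -(Real.pi : ℂ) * (w - ∫ x, S x) := by ring
  rw [e, norm_mul, norm_neg, Complex.norm_real, Real.norm_of_nonneg Real.pi_pos.le] at h3
  simp only [ENNReal.toReal_mul, ENNReal.toReal_pow, ENNReal.toReal_ofReal hr.le,
    ENNReal.coe_toReal, NNReal.coe_real_pi, smul_eq_mul] at h3
  have hp := Real.pi_pos
  have : Real.pi * ‖w - ∫ x, S x‖ ≤ Real.pi * (δ * r ^ 2) := by linarith
  exact le_of_mul_le_mul_left this hp

lemma mem2 {s : ℝ} {x : ℂ} (hx : ‖x‖ < s) : ((x, conj x) : C2) ∈ ball (0 : C2) s := by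
  rw [mem_ball_prod]
  simp [hx]

lemma mem0 {s : ℝ} {t : ℂ} (ht : ‖t‖ < s) : (((0 : ℂ), t) : C2) ∈ ball (0 : C2) s := by
  rw [mem_ball_prod]
  simp [ht, (norm_nonneg t).trans_lt ht]

/-- the derivative of the model function -/
lemma phi_deriv {s : ℝ} {k : ℂ} {U : ℂ → ℂ} {ψ θ W : C2 → ℂ} (hU : Differentiable ℂ U)
    (hψ : DifferentiableOn ℂ ψ (ball 0 s)) (hW : DifferentiableOn ℂ W (ball 0 s))
    (hθ : ∀ q ∈ ball (0 : C2) s,
      fderiv ℂ ψ (0, q.2) (0, 1) - fderiv ℂ ψ q (0, 1) = q.1 * θ q) :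
    DifferentiableOn ℂ (fun q : C2 => U q.1 * Complex.exp (k * (ψ (0, q.2) - ψ q)) *
      (1 + q.1 * W q)) (ball 0 s) ∧ ∀ q ∈ ball (0 : C2) s,
      fderiv ℂ (fun q : C2 => U q.1 * Complex.exp (k * (ψ (0, q.2) - ψ q)) * (1 + q.1 * W q)) q
        (0, 1) = q.1 * (U q.1 * Complex.exp (k * (ψ (0, q.2) - ψ q))) *
          (k * θ q + k * q.1 * θ q * W q + fderiv ℂ W q (0, 1)) := by
  have h0 : ∀ q ∈ ball (0 : C2) s, (((0 : ℂ), q.2) : C2) ∈ ball (0 : C2) s := fun q hq =>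
    mem0 ((norm_snd_le q).trans_lt (mem_ball_zero_iff.1 hq))
  have hψ0 : DifferentiableOn ℂ (fun q : C2 => ψ (0, q.2)) (ball 0 s) :=
    hψ.comp (by fun_prop) h0
  have hd : DifferentiableOn ℂ (fun q : C2 => U q.1 * Complex.exp (k * (ψ (0, q.2) - ψ q)) *
      (1 + q.1 * W q)) (ball 0 s) := by
    have hU' : DifferentiableOn ℂ (fun q : C2 => U q.1) (ball 0 s) :=
      (hU.comp differentiable_fst).differentiableOn
    exact (hU'.mul ((hψ0.sub hψ).const_mul k).cexp).mul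
      ((differentiableOn_const 1).add (differentiableOn_fst.mul hW))
  refine ⟨hd, fun q hq => ?_⟩
  have hn := isOpen_ball.mem_nhds hq
  have d0 := deriv_snd (hd.differentiableAt hn)
  have d1 := deriv_snd (hψ.differentiableAt hn)
  have d2 := deriv_snd (q := (0, q.2)) (hψ.differentiableAt (isOpen_ball.mem_nhds (h0 q hq)))
  have d3 := deriv_snd (hW.differentiableAt hn)
  have d4 := ((((d2.sub d1).const_mul k).cexp).const_mul (U q.1)).mul
    ((d3.const_mul q.1).const_add 1)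
  rw [d0.unique d4]
  simp only [Pi.sub_apply, Prod.mk.eta]
  rw [hθ q hq]
  ring

theorem core {φ ρ : ℂ → ℝ} (hφ : Continuous φ) (hρ : Continuous ρ) (y : ℂ) (k : ℕ)
    {r b D Wm Am Em : ℝ} (hr : 0 < r) (hb : 0 < b) {χ : ℂ → ℂ} (hχ : ContDiff ℝ ∞ χ)
    (c1 : ∀ w, ‖w‖ < r / 4 → χ w = 1) (c0 : ∀ w, 3 * r / 8 ≤ ‖w‖ → χ w = 0)
    (cn : ∀ w, ‖χ w‖ ≤ 1) (cc : ∀ w, conj (χ w) = χ w) (cD : ∀ w, ‖dbar χ w‖ ≤ D)
    {ψ θ ϱ W E : C2 → ℂ} {a : ℂ → ℂ} (hψ : DifferentiableOn ℂ ψ (ball 0 (r / 2)))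
    (hW : DifferentiableOn ℂ W (ball 0 (r / 2))) (ha : DifferentiableOn ℂ a (ball 0 (r / 2)))
    (hx : ∀ x ∈ ball (0 : ℂ) (r / 2), ψ (x, conj x) = φ (y + x) ∧ ϱ (x, conj x) = ρ (y + x) ∧
      2 * (ψ (0, conj x)).re - φ (y + x) - φ y ≤ -b * ‖x‖ ^ 2)
    (hθ : ∀ q ∈ ball (0 : C2) (r / 2),
      fderiv ℂ ψ (0, q.2) (0, 1) - fderiv ℂ ψ q (0, 1) = q.1 * θ q)
    (hq : ∀ q ∈ ball (0 : C2) (r / 2), ‖W q‖ ≤ Wm ∧ ‖a q.2‖ ≤ Am ∧ ‖E q‖ ≤ Em ∧
      k * θ q + k * q.1 * θ q * W q + fderiv ℂ W q (0, 1) = a q.2 * ϱ q + E q) :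
    ∃ v : ℂ → ℂ, ContDiff ℝ ∞ v ∧ (∀ x, r / 2 ≤ ‖x - y‖ → v x = 0) ∧
      (∀ x, ‖dbar v x‖ ≤ D * Am * Real.exp (-(k * (b * r ^ 2 / 32))) * Real.exp (k * φ y / 2) *
        Real.exp (k * φ x / 2)) ∧
      ∀ (u : ℂ → ℂ) (A : ℝ), Differentiable ℂ u → (∀ x, ‖u x‖ ≤ A * Real.exp (k * φ x / 2)) →
        ‖u y - ∫ x, u x * conj (v x) * (wt φ ρ k x : ℂ)‖ ≤
          (D * (1 + r * Wm) * (4 / r) * Real.exp (-(k * (b * r ^ 2 / 32))) + Em) * r ^ 2 *
            Real.exp (k * φ y / 2) * A := by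
  have hk : (0 : ℝ) ≤ k := Nat.cast_nonneg k
  have h00 := hq 0 (mem_ball_self (by positivity))
  have hD : 0 ≤ D := (norm_nonneg _).trans (cD 0)
  have hWm : 0 ≤ Wm := (norm_nonneg _).trans h00.1
  have hAm : 0 ≤ Am := (norm_nonneg _).trans h00.2.1
  have hEm : 0 ≤ Em := (norm_nonneg _).trans h00.2.2.1
  obtain ⟨g, hg⟩ : ∃ g : ℂ → ℂ, g = fun t => -(Real.pi : ℂ)⁻¹ * a t * Complex.exp (k * ψ (0, t)) :=
    ⟨_, rfl⟩
  have hgd : DifferentiableOn ℂ g (ball 0 (r / 2)) := by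
    rw [hg]
    have h1 : DifferentiableOn ℂ (fun t : ℂ => ψ (0, t)) (ball 0 (r / 2)) :=
      hψ.comp (by fun_prop) fun t ht => mem0 (mem_ball_zero_iff.1 ht)
    exact (ha.const_mul _).mul (h1.const_mul _).cexp
  have hHd : DifferentiableOn ℂ (fun x => conj (g (conj x))) (ball 0 (r / 2)) := by
    intro x hx'
    have h1 : conj x ∈ ball (0 : ℂ) (r / 2) := by
      rw [mem_ball_zero_iff] at hx' ⊢
      simpa using hx'
    have h2 := (hgd.differentiableAt (isOpen_ball.mem_nhds h1)).conj_conj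
    rw [Complex.conj_conj] at h2
    exact h2.differentiableWithinAt
  obtain ⟨hv1, hv2⟩ := cut (s := 3 * r / 8) (t := r / 2) (by linarith) hχ c0
    ((hHd.contDiffOn (n := ∞) isOpen_ball).restrict_scalars ℝ)
  -- the exponential factor
  have hexp : ∀ x : ℂ, ‖x‖ < r / 2 → ‖Complex.exp (k * ψ (0, conj x))‖ ≤
      Real.exp (-(k * (b * ‖x‖ ^ 2 / 2))) * Real.exp (k * φ y / 2) *
        Real.exp (k * φ (y + x) / 2) := by
    intro x h
    rw [Complex.norm_exp, ← Real.exp_add, ← Real.exp_add]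
    refine Real.exp_le_exp.2 ?_
    have h1 := (hx x (mem_ball_zero_iff.2 h)).2.2
    have h2 : ((k : ℂ) * ψ (0, conj x)).re = k * (ψ (0, conj x)).re := by simp
    rw [h2]
    nlinarith [mul_le_mul_of_nonneg_left h1 hk]
  have hη : ∀ x : ℂ, r / 4 ≤ ‖x‖ → Real.exp (-(k * (b * ‖x‖ ^ 2 / 2))) ≤
      Real.exp (-(k * (b * r ^ 2 / 32))) := by
    intro x h
    refine Real.exp_le_exp.2 (neg_le_neg (mul_le_mul_of_nonneg_left ?_ hk))
    have : (r / 4) ^ 2 ≤ ‖x‖ ^ 2 := by gcongr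
    nlinarith
  refine ⟨fun x => χ (x - y) * conj (g (conj (x - y))), hv1.comp (contDiff_id.sub contDiff_const),
    fun x h => ?_, fun x => ?_, fun u A hu hA => ?_⟩
  · show χ (x - y) * _ = 0
    rw [c0 _ (by linarith), zero_mul]
  · have e : dbar (fun x => χ (x - y) * conj (g (conj (x - y)))) x =
        dbar (fun x => χ x * conj (g (conj x))) (x - y) := by
      unfold dbar
      rw [fderiv_comp_sub (f := fun x => χ x * conj (g (conj x)))]
    rw [e, hv2]
    obtain ⟨z, rfl⟩ : ∃ z, x = y + z := ⟨x - y, by ring⟩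
    rw [add_sub_cancel_left]
    rcases lt_or_ge ‖z‖ (r / 2) with h | h
    · rw [dbar_hol (hHd.differentiableAt (isOpen_ball.mem_nhds (mem_ball_zero_iff.2 h))),
        mul_zero, add_zero]
      rcases lt_or_ge ‖z‖ (r / 4) with h' | h'
      · rw [dbar_zero_in c1 h', zero_mul, norm_zero]
        positivity
      · have h1 : ‖-(Real.pi : ℂ)⁻¹‖ ≤ 1 := by
          rw [norm_neg, norm_inv, Complex.norm_real, Real.norm_of_nonneg Real.pi_pos.le]
          exact inv_le_one_of_one_le₀ (by linarith [Real.pi_gt_three])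
        have h2 : ‖a (conj z)‖ ≤ Am := (hq _ (mem2 h)).2.1
        have h3 := hexp z h
        have h4 := hη z h'
        have h5 := cD z
        rw [norm_mul, RCLike.norm_conj, hg]
        simp only [norm_mul]
        calc ‖dbar χ z‖ * (‖-(Real.pi : ℂ)⁻¹‖ * ‖a (conj z)‖ * ‖Complex.exp (k * ψ (0, conj z))‖)
            ≤ D * (1 * Am * (Real.exp (-(k * (b * r ^ 2 / 32))) * Real.exp (k * φ y / 2) *
              Real.exp (k * φ (y + z) / 2))) := by
              refine mul_le_mul h5 (mul_le_mul (by gcongr) (h3.trans (by gcongr))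
                (norm_nonneg _) (by positivity)) (by positivity) hD
          _ = _ := by ring
    · rw [dbar_zero_out c0 (by linarith), c0 z (by linarith)]
      simp only [zero_mul, add_zero, norm_zero]
      positivity
  · have hA0 : 0 ≤ A := by
      have := (norm_nonneg _).trans (hA 0)
      exact nonneg_of_mul_nonneg_left this (Real.exp_pos _)
    obtain ⟨hΦ, hΦ'⟩ := phi_deriv (k := (k : ℂ)) (U := fun x => u (y + x)) (θ := θ)
      (hu.comp (by fun_prop)) hψ hW hθ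
    obtain ⟨Φ, hΦe⟩ : ∃ Φ : C2 → ℂ, Φ = fun q : C2 => u (y + q.1) *
      Complex.exp (k * (ψ (0, q.2) - ψ q)) * (1 + q.1 * W q) := ⟨_, rfl⟩
    rw [← hΦe] at hΦ hΦ'
    have hF : ContDiffOn ℝ ∞ (fun x : ℂ => Φ (x, conj x)) (ball 0 (r / 2)) :=
      (hol_contDiffOn_real isOpen_ball hΦ).comp
        (contDiff_id.prodMk Complex.conjCLE.contDiff).contDiffOn
        fun x h => mem2 (mem_ball_zero_iff.1 h)
    obtain ⟨hG1, hG2⟩ := cut (s := 3 * r / 8) (t := r / 2) (by linarith) hχ c0 hF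
    have hG1' : ContDiff ℝ 1 (fun x => χ x * Φ (x, conj x)) := hG1.of_le (by simp)
    have hGc : HasCompactSupport (fun x => χ x * Φ (x, conj x)) :=
      hcs_of_ball (R := 3 * r / 8) fun x h => by rw [c0 x h, zero_mul]
    have hP := pompeiu_zero hG1' hGc
    have hG0 : χ 0 * Φ (0, conj 0) = u y := by
      rw [c1 0 (by simpa using hr), hΦe]
      simp
    rw [hG0] at hP
    have hwc : Continuous (wt φ ρ k) := by unfold wt; fun_prop
    have hS : Integrable (fun x => u (y + x) * conj (χ x * conj (g (conj x))) *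
        (wt φ ρ k (y + x) : ℂ)) := by
      have h1 := hv1.continuous
      have h2 := hu.continuous
      refine Continuous.integrable_of_hasCompactSupport ?_
        (hcs_of_ball (R := 3 * r / 8) fun x h => by rw [c0 x h]; simp)
      exact ((h2.comp (by fun_prop)).mul (Complex.continuous_conj.comp h1)).mul
        (Complex.continuous_ofReal.comp (hwc.comp (by fun_prop)))
    have key := abs_step (r := r)
      (δ := (D * (1 + r * Wm) * (4 / r) * Real.exp (-(k * (b * r ^ 2 / 32))) + Em) *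
        (Real.exp (k * φ y / 2) * A)) hr
      ((continuous_dbar hG1').measurable.mul measurable_inv).aestronglyMeasurable hS ?_ ?_ hP
    · rw [← integral_add_left_eq_self _ y]
      simp only [add_sub_cancel_left]
      refine key.trans (le_of_eq ?_)
      ring
    · intro x hx0 _
      rcases lt_or_ge ‖x‖ (r / 2) with h | h
      · obtain ⟨e1, e2, -⟩ := hx x (mem_ball_zero_iff.2 h)
        obtain ⟨q1, -, q3, q4⟩ := hq _ (mem2 h)
        obtain ⟨P, hPe⟩ : ∃ P : ℂ, P = u (y + x) *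
          Complex.exp (k * (ψ (0, conj x) - ψ (x, conj x))) := ⟨_, rfl⟩
        have hPn : ‖P‖ ≤ Real.exp (-(k * (b * ‖x‖ ^ 2 / 2))) * (Real.exp (k * φ y / 2) * A) := by
          have h1 := hexp x h
          have h2 := hA (y + x)
          have h3 : ‖Complex.exp (-(k * (φ (y + x) : ℂ)))‖ = Real.exp (-(k * φ (y + x))) := by
            rw [Complex.norm_exp]; simp
          rw [hPe, e1, mul_sub, sub_eq_add_neg, Complex.exp_add, norm_mul, norm_mul, h3]
          calc ‖u (y + x)‖ * (‖Complex.exp (k * ψ (0, conj x))‖ * Real.exp (-(k * φ (y + x))))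
              ≤ (A * Real.exp (k * φ (y + x) / 2)) * ((Real.exp (-(k * (b * ‖x‖ ^ 2 / 2))) *
                Real.exp (k * φ y / 2) * Real.exp (k * φ (y + x) / 2)) *
                Real.exp (-(k * φ (y + x)))) := by gcongr
            _ = Real.exp (-(k * (b * ‖x‖ ^ 2 / 2))) * (Real.exp (k * φ y / 2) * A) *
                (Real.exp (k * φ (y + x) / 2) * Real.exp (k * φ (y + x) / 2) *
                Real.exp (-(k * φ (y + x)))) := by ring
            _ = _ := by
              rw [← Real.exp_add, ← Real.exp_add, show k * φ (y + x) / 2 + k * φ (y + x) / 2 +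
                -(k * φ (y + x)) = 0 by ring, Real.exp_zero, mul_one]
        have e3 : dbar (fun x => χ x * Φ (x, conj x)) x * x⁻¹ + Real.pi *
            (u (y + x) * conj (χ x * conj (g (conj x))) * (wt φ ρ k (y + x) : ℂ)) =
            dbar χ x * (1 + x * W (x, conj x)) * x⁻¹ * P + χ x * E (x, conj x) * P := by
          rw [hG2, dbar_slice (hΦ.differentiableAt (isOpen_ball.mem_nhds (mem2 h))),
            hΦ' _ (mem2 h), q4, map_mul, cc, Complex.conj_conj, hg, hΦe]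
          simp only [← hPe, e2]
          have e4 : P = u (y + x) * Complex.exp (k * ψ (0, conj x)) *
              (Real.exp (-(k * φ (y + x))) : ℂ) := by
            rw [hPe, e1, mul_sub, sub_eq_add_neg, Complex.exp_add]
            push_cast
            ring
          have hpi : (Real.pi : ℂ) ≠ 0 := by exact_mod_cast Real.pi_pos.ne'
          unfold wt
          rw [Complex.ofReal_mul, e4]
          field_simp
          ring
        simp only [Pi.mul_apply]
        rw [e3]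
        have hE : ‖χ x * E (x, conj x) * P‖ ≤ Em * (Real.exp (k * φ y / 2) * A) := by
          rw [norm_mul, norm_mul]
          have h1 : Real.exp (-(k * (b * ‖x‖ ^ 2 / 2))) ≤ 1 :=
            Real.exp_le_one_iff.2 (neg_nonpos.2 (by positivity))
          have h2 := cn x
          calc ‖χ x‖ * ‖E (x, conj x)‖ * ‖P‖ ≤ 1 * Em * (1 * (Real.exp (k * φ y / 2) * A)) :=
                mul_le_mul (by gcongr) (hPn.trans (by gcongr)) (norm_nonneg _) (by positivity)
            _ = _ := by ring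
        have hM : ‖dbar χ x * (1 + x * W (x, conj x)) * x⁻¹ * P‖ ≤
            D * (1 + r * Wm) * (4 / r) * Real.exp (-(k * (b * r ^ 2 / 32))) *
              (Real.exp (k * φ y / 2) * A) := by
          rcases lt_or_ge ‖x‖ (r / 4) with h' | h'
          · rw [dbar_zero_in c1 h']
            simp only [zero_mul, norm_zero]
            positivity
          · have h1 : ‖1 + x * W (x, conj x)‖ ≤ 1 + r * Wm := by
              refine (norm_add_le _ _).trans ?_
              rw [norm_one, norm_mul]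
              have : ‖x‖ ≤ r := by linarith
              gcongr
            have h2 : ‖x⁻¹‖ ≤ 4 / r := by
              rw [norm_inv, ← inv_div]
              exact inv_anti₀ (by positivity) h'
            have h3 := cD x
            have h4 := hη x h'
            rw [norm_mul, norm_mul, norm_mul, mul_assoc _ (Real.exp _)]
            exact mul_le_mul (by gcongr) (hPn.trans (by gcongr)) (norm_nonneg _) (by positivity)
        refine (norm_add_le _ _).trans ?_
        linarith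
      · simp only [Pi.mul_apply]
        rw [hG2, dbar_zero_out c0 (by linarith), c0 x (by linarith)]
        simp only [zero_mul, add_zero, map_zero, mul_zero, norm_zero]
        positivity
    · intro x h
      simp only [Pi.mul_apply]
      rw [hG2, dbar_zero_out c0 (by linarith), c0 x (by linarith)]
      simp

lemma absorb {c k : ℝ} (hc : 0 < c) : k * Real.exp (-(2 * c * k)) ≤ Real.exp (-c * k) / c := by
  have h1 : c * k ≤ Real.exp (c * k) := by linarith [Real.add_one_le_exp (c * k)]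
  have h2 : Real.exp (-c * k) = Real.exp (c * k) * Real.exp (-(2 * c * k)) := by
    rw [← Real.exp_add]; congr 1; ring
  rw [le_div_iff₀ hc, h2]
  nlinarith [Real.exp_pos (-(2 * c * k))]

lemma half_pow {x : ℝ} {n : ℕ} (h : x < n + 1) : 1 / (2 : ℝ) ^ n ≤ 2 * Real.exp (-(Real.log 2 * x)) := by
  have h2 : 0 < Real.log 2 := Real.log_pos (by norm_num)
  have h1 : Real.exp (-(Real.log 2 * (n + 1))) ≤ Real.exp (-(Real.log 2 * x)) :=
    Real.exp_le_exp.2 (by nlinarith)
  have h3 : Real.exp (-(Real.log 2 * (n + 1))) = 1 / (2 : ℝ) ^ (n + 1) := by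
    rw [Real.exp_neg, mul_comm, ← Nat.cast_succ, Real.exp_nat_mul, Real.exp_log (by norm_num),
      one_div]
  have h4 : 1 / (2 : ℝ) ^ n = 2 * (1 / (2 : ℝ) ^ (n + 1)) := by
    rw [pow_succ]; field_simp
  rw [h4, ← h3]
  linarith

end LpX

open LpX

theorem lp (h1 : LC) (h2 : RC) : LP := by
  intro φ ρ y₀ hφ hρ aφ aρ hρ0 hlap R hR
  obtain ⟨r, b, B, hr, hrR, hb, hL⟩ := h1 φ ρ y₀ aφ aρ hρ0 hlap (R / 2) (by positivity)
  have hB : 0 < B := by
    obtain ⟨ψ, θ, ϱ, -, -, -, -, h⟩ := hL y₀ (mem_ball_self hr)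
    have := h 0 (mem_ball_self hr)
    linarith [this.1, this.2.1]
  obtain ⟨C₀, hC₀, hχ⟩ := exists_chi
  obtain ⟨χ, χs, χ1, χ0, χn, χc, χD⟩ := hχ (r / 8) (by positivity)
  obtain ⟨A₀, hA₀⟩ : ∃ A₀ : ℝ, A₀ = (1 + B / b) / (r * b) := ⟨_, rfl⟩
  have hA : 0 < A₀ := by rw [hA₀]; positivity
  obtain ⟨D, hD⟩ : ∃ D : ℝ, D = C₀ / (r / 8) := ⟨_, rfl⟩
  have hD0 : 0 < D := by rw [hD]; positivity
  rw [← hD] at χD
  have hl2 : 0 < Real.log 2 := Real.log_pos (by norm_num)
  obtain ⟨c, hc0, hc1, hc2⟩ : ∃ c : ℝ, 0 < c ∧ 2 * c ≤ b * r ^ 2 / 32 ∧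
      2 * c ≤ Real.log 2 * (r / (4 * A₀)) :=
    ⟨min (b * r ^ 2 / 64) (Real.log 2 * (r / (4 * A₀)) / 2), lt_min (by positivity) (by positivity),
      by linarith [min_le_left (b * r ^ 2 / 64) (Real.log 2 * (r / (4 * A₀)) / 2)],
      by linarith [min_le_right (b * r ^ 2 / 64) (Real.log 2 * (r / (4 * A₀)) / 2)]⟩
  obtain ⟨C₁, hC₁⟩ : ∃ C₁ : ℝ, C₁ = D * (2 * B / b) / c := ⟨_, rfl⟩
  obtain ⟨C₂, hC₂⟩ : ∃ C₂ : ℝ,
    C₂ = (D * (1 + r * (2 * A₀ * B)) * (4 / r) + 2 * B) * r ^ 2 / c := ⟨_, rfl⟩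
  have hC1 : 0 < C₁ := by rw [hC₁]; positivity
  have hC2 : 0 < C₂ := by rw [hC₂]; positivity
  refine ⟨r, c, C₁ + C₂, hr, hc0, by positivity, fun y hy k hk => ?_⟩
  have hk1 : (1 : ℝ) ≤ k := by exact_mod_cast hk
  have hk0 : (0 : ℝ) < k := by linarith
  obtain ⟨ψ, θ, ϱ, dψ, dθ, dϱ, hx, hq⟩ := hL y hy
  obtain ⟨n, hn⟩ : ∃ n : ℕ, n = ⌊k * (r / (4 * A₀))⌋₊ := ⟨_, rfl⟩
  have hn1 : (n : ℝ) ≤ k * (r / (4 * A₀)) := hn ▸ Nat.floor_le (by positivity)
  have hn2 : k * (r / (4 * A₀)) < n + 1 := hn ▸ Nat.lt_floor_add_one _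
  have hnσ : r / 2 + n * (2 * A₀ / k) ≤ r := by
    have : (n : ℝ) * (2 * A₀ / k) ≤ k * (r / (4 * A₀)) * (2 * A₀ / k) := by gcongr
    have e : k * (r / (4 * A₀)) * (2 * A₀ / k) = r / 2 := by field_simp; ring
    linarith
  have hsub : ball (0 : ℂ) r ×ˢ ball (0 : ℂ) (r / 2 + n * (2 * A₀ / k)) ⊆ ball (0 : C2) r :=
    fun q hq' => mem_ball_prod.2 ⟨hq'.1, ball_subset_ball hnσ hq'.2⟩
  have hsub2 : ball (0 : C2) (r / 2) ⊆ ball (0 : ℂ) r ×ˢ ball (0 : ℂ) (r / 2) := fun q hq' =>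
    ⟨ball_subset_ball (by linarith) (mem_ball_prod.1 hq').1, (mem_ball_prod.1 hq').2⟩
  have hsub3 : ball (0 : C2) (r / 2) ⊆ ball (0 : C2) r := ball_subset_ball (by linarith)
  obtain ⟨W, E, a, dW, da, hWEa⟩ := h2 r (2 * A₀ / k) b B k θ ϱ hr (by positivity) hb hk0
    (by rw [← hA₀]; apply le_of_eq; field_simp) n (r / 2) (k * B) (fun q => k * θ q)
    (dθ.mono hsub) (dϱ.mono hsub) ((dθ.mono hsub).const_mul _) (fun q hq' => by
      obtain ⟨q1, q2, q3, q4, -⟩ := hq q (hsub hq')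
      refine ⟨q1, q3, q4, ?_⟩
      rw [norm_mul, Complex.norm_natCast]
      gcongr)
  obtain ⟨v, v1, v2, v3, v4⟩ := core hφ hρ y k (D := D) (Wm := 2 * A₀ * B) (Am := 2 * (k * B) / b)
    (Em := k * B / 2 ^ n) (θ := θ) (ϱ := ϱ) (E := E) hr hb χs
    (fun w hw => χ1 w (by linarith)) (fun w hw => χ0 w (by linarith)) χn χc χD (dψ.mono hsub3)
    (dW.mono hsub2) da (fun x hx' => hx x (ball_subset_ball (by linarith) hx'))
    (fun q hq' => (hq q (hsub3 hq')).2.2.2.2) (fun q hq' => by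
      obtain ⟨q1, q2, q3, q4⟩ := hWEa q (hsub2 hq')
      refine ⟨q1.trans (le_of_eq ?_), q2, q3, by simpa using q4⟩
      rw [← hA₀]
      field_simp)
  have hab := absorb (k := k) hc0
  have hη : Real.exp (-(k * (b * r ^ 2 / 32))) ≤ Real.exp (-(2 * c * k)) :=
    Real.exp_le_exp.2 (by nlinarith)
  have hpw : 1 / (2 : ℝ) ^ n ≤ 2 * Real.exp (-(2 * c * k)) := by
    refine (half_pow hn2).trans (mul_le_mul_of_nonneg_left (Real.exp_le_exp.2 ?_) (by norm_num))
    nlinarith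
  have he := Real.exp_pos (-(2 * c * k))
  have he' := Real.exp_pos (-c * k)
  refine ⟨v, v1, fun x hx' => v2 x ?_, fun x => (v3 x).trans ?_,
    fun u A hu hA' => (v4 u A hu hA').trans ?_⟩
  · rw [mem_ball, dist_eq_norm, not_lt] at hx'
    rw [mem_ball, dist_eq_norm] at hy
    have := norm_sub_le_norm_sub_add_norm_sub x y y₀
    linarith
  · have : D * (2 * (k * B) / b) * Real.exp (-(k * (b * r ^ 2 / 32))) ≤
        (C₁ + C₂) * Real.exp (-c * k) :=
      calc D * (2 * (k * B) / b) * Real.exp (-(k * (b * r ^ 2 / 32)))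
          ≤ D * (2 * (k * B) / b) * Real.exp (-(2 * c * k)) := by gcongr
        _ = D * (2 * B / b) * (k * Real.exp (-(2 * c * k))) := by ring
        _ ≤ D * (2 * B / b) * (Real.exp (-c * k) / c) := by gcongr
        _ = C₁ * Real.exp (-c * k) := by rw [hC₁]; ring
        _ ≤ _ := by nlinarith
    gcongr
  · have hA0 : 0 ≤ A := by
      have := (norm_nonneg _).trans (hA' 0)
      exact nonneg_of_mul_nonneg_left this (Real.exp_pos _)
    have a1 : Real.exp (-(k * (b * r ^ 2 / 32))) ≤ Real.exp (-c * k) / c := by nlinarith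
    have a2 : k * B / 2 ^ n ≤ 2 * B * (Real.exp (-c * k) / c) :=
      calc k * B / 2 ^ n = k * B * (1 / 2 ^ n) := by ring
        _ ≤ k * B * (2 * Real.exp (-(2 * c * k))) := by gcongr
        _ = 2 * B * (k * Real.exp (-(2 * c * k))) := by ring
        _ ≤ _ := by gcongr
    have : (D * (1 + r * (2 * A₀ * B)) * (4 / r) * Real.exp (-(k * (b * r ^ 2 / 32))) +
        k * B / 2 ^ n) * r ^ 2 ≤ (C₁ + C₂) * Real.exp (-c * k) :=
      calc (D * (1 + r * (2 * A₀ * B)) * (4 / r) * Real.exp (-(k * (b * r ^ 2 / 32))) +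
            k * B / 2 ^ n) * r ^ 2
          ≤ (D * (1 + r * (2 * A₀ * B)) * (4 / r) * (Real.exp (-c * k) / c) +
            2 * B * (Real.exp (-c * k) / c)) * r ^ 2 := by gcongr
        _ = C₂ * Real.exp (-c * k) := by rw [hC₂]; ring
        _ ≤ _ := by nlinarith
    gcongr

end Pool.Agent.MP_6c43ae_an.Ct
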