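import Pool.Agent.MP_6c43ae_an.ct.Spec

/-! Gluing across an analytic shell. -/

set_option autoImplicit false

open MeasureTheory Set Filter Topology Metric
open scoped ComplexConjugate ContDiff

namespace Pool.Agent.MP_6c43ae_an.Ct

namespace MnX

lemma norm_ker (h : Bool → S2 → ℝ) (k N : ℕ) (s : Fin N → Bool → S2 → ℂ) (x y : S2) :
    ‖ker h k N s x (LL.indexAt y) y‖ * √(h (LL.indexAt y) y) ^ k = bergmanNorm LL h k N s y x := by
  have e : ker h k N s x (LL.indexAt y) y = ((√(h (LL.indexAt x) x) ^ k : ℝ) : ℂ) *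
      ∑ a, s a (LL.indexAt y) y * conj (s a (LL.indexAt x) x) := by
    rw [ker, Finset.mul_sum]
    exact Finset.sum_congr rfl fun a _ => by ring
  rw [e, bergmanNorm, norm_mul, Complex.norm_real, Real.norm_of_nonneg (by positivity)]
  ring

lemma pn_ker {h : Bool → S2 → ℝ} (hh : IsPositiveMetric LL h) (k N : ℕ)
    (s : Fin N → Bool → S2 → ℂ) (x y : S2) :
    pn h k (ker h k N s x) y = bergmanNorm LL h k N s y x ^ 2 := by
  rw [← norm_ker, pn, mul_pow, ← pow_mul, mul_comm k 2, pow_mul,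
    Real.sq_sqrt (hh.pos _ _ (LL.mem_baseSet_at y)).le]

lemma norm_ker_coe {h : Bool → S2 → ℝ} {μ : Measure S2} {φ ρ : ℂ → ℝ} (H : Lk h μ φ ρ) (k N : ℕ)
    (s : Fin N → Bool → S2 → ℂ) (x : S2) (y : ℂ) :
    ‖ker h k N s x false y‖ = bergmanNorm LL h k N s y x * Real.exp (k * φ y / 2) := by
  rw [← norm_ker, LL_indexAt_coe, H.hφ, ← Real.exp_half, ← Real.exp_nat_mul, mul_assoc,
    ← Real.exp_add, show k * (-φ y / 2) + k * φ y / 2 = 0 by ring, Real.exp_zero, mul_one]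

/-- a reproducing function for the point `y` -/
def Par (φ ρ : ℂ → ℝ) (R : ℝ) (V : Set S2) (c C : ℝ) (y : ℂ) (k : ℕ) : Prop :=
  ∃ v : ℂ → ℂ, ContDiff ℝ ∞ v ∧ (∀ x, R ≤ ‖x‖ → v x = 0) ∧ (∀ x : ℂ, (x : S2) ∈ V → v x = 0) ∧
    (∀ x, ‖dbar v x‖ ≤ C * Real.exp (-c * k) * Real.exp (k * φ y / 2) * Real.exp (k * φ x / 2)) ∧
    ∀ (u : ℂ → ℂ) (A : ℝ), Differentiable ℂ u → (∀ x, ‖u x‖ ≤ A * Real.exp (k * φ x / 2)) →
      ‖u y - ∫ x, u x * conj (v x) * (wt φ ρ k x : ℂ)‖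
        ≤ C * Real.exp (-c * k) * Real.exp (k * φ y / 2) * A

lemma Par.mono {φ ρ : ℂ → ℝ} {R : ℝ} {V : Set S2} {c C c' C' : ℝ} {y : ℂ} {k : ℕ}
    (h : Par φ ρ R V c C y k) (hc : c' ≤ c) (hC0 : 0 ≤ C) (hC : C ≤ C') : Par φ ρ R V c' C' y k := by
  obtain ⟨v, h1, h2, h3, h4, h5⟩ := h
  have e : C * Real.exp (-c * k) ≤ C' * Real.exp (-c' * k) := by
    have : -c * k ≤ -c' * k := mul_le_mul_of_nonneg_right (by linarith) (Nat.cast_nonneg k)
    exact mul_le_mul hC (Real.exp_le_exp.2 this) (Real.exp_pos _).le (hC0.trans hC)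
  refine ⟨v, h1, h2, h3, fun x => (h4 x).trans (by gcongr), fun u A hu hA => ?_⟩
  have hA0 : 0 ≤ A := nonneg_of_mul_nonneg_left ((norm_nonneg _).trans (hA 0)) (Real.exp_pos _)
  exact (h5 u A hu hA).trans (by gcongr)

lemma shell (h1 : LP) {φ ρ : ℂ → ℝ} (H : PD φ ρ) {S : Set ℂ} (hS : IsCompact S) {V : Set S2}
    (hV : IsClosed V) {R : ℝ} (hR : ∀ y ∈ S, ‖y‖ + 1 ≤ R)
    (han : ∀ y ∈ S, AnalyticAt ℝ φ y ∧ AnalyticAt ℝ ρ y ∧ (y : S2) ∉ V) :
    ∃ c C : ℝ, 0 < c ∧ 0 < C ∧ ∀ y ∈ S, ∀ k : ℕ, 1 ≤ k → Par φ ρ R V c C y k := by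
  refine hS.induction_on
    (p := fun T => ∃ c C : ℝ, 0 < c ∧ 0 < C ∧ ∀ y ∈ T, ∀ k : ℕ, 1 ≤ k → Par φ ρ R V c C y k)
    ⟨1, 1, one_pos, one_pos, fun y hy => hy.elim⟩ ?_ ?_ ?_
  · rintro T T' hT ⟨c, C, hc, hC, h⟩
    exact ⟨c, C, hc, hC, fun y hy => h y (hT hy)⟩
  · rintro T T' ⟨c, C, hc, hC, h⟩ ⟨c', C', hc', hC', h'⟩
    refine ⟨min c c', max C C', lt_min hc hc', lt_max_of_lt_left hC, fun y hy k hk => ?_⟩
    rcases hy with hy | hy
    · exact (h y hy k hk).mono (min_le_left _ _) hC.le (le_max_left _ _)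
    · exact (h' y hy k hk).mono (min_le_right _ _) hC'.le (le_max_right _ _)
  · intro y₀ hy₀
    obtain ⟨a1, a2, a3⟩ := han y₀ hy₀
    have ho : IsOpen ((fun z : ℂ => (z : S2)) ⁻¹' Vᶜ) :=
      hV.isOpen_compl.preimage OnePoint.continuous_coe
    obtain ⟨η, hη, hb⟩ := Metric.isOpen_iff.1 ho y₀ a3
    obtain ⟨r, c, C, hr, hc, hC, h⟩ := h1 φ ρ y₀ H.sφ.continuous H.sρ.continuous a1 a2 (H.pos y₀)
      (H.lap y₀) (min η 1) (lt_min hη one_pos)
    refine ⟨ball y₀ r, mem_nhdsWithin_of_mem_nhds (ball_mem_nhds y₀ hr), c, C, hc, hC,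
      fun y hy k hk => ?_⟩
    obtain ⟨v, v1, v2, v3, v4⟩ := h y hy k hk
    refine ⟨v, v1, fun x hx => v2 x fun hx' => ?_, fun x hx => v2 x fun hx' => ?_, v3, v4⟩
    · have b1 := lt_of_lt_of_le (mem_ball.1 hx') (min_le_right _ _)
      rw [dist_eq_norm] at b1
      linarith [hR y₀ hy₀, norm_sub_norm_le x y₀]
    · exact hb (ball_subset_ball (min_le_left _ _) hx') hx

end MnX

open MnX

theorem mn (h1 : LP) (h2 : SM) (h3 : KB) (h4 : KL) : MN := by
  intro h μ φ ρ H Z z w han ⟨χ, S, Vz, Vw, hχ, hc, hχ0, hS, hS0, hSZ, hVz, hχ1, hVc, hVw, hχw⟩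
  obtain ⟨R₁, hR₁⟩ := (hS.union hc).isBounded.exists_norm_le
  set R := R₁ + 1 with hR
  obtain ⟨c, C, hc0, hC0, hpar⟩ := shell h1 H.pd hS hVc (R := R)
    (fun y hy => by linarith [hR₁ y (Or.inl hy)])
    fun y hy => ⟨(han y (hSZ y hy).1).1, (han y (hSZ y hy).1).2, (hSZ y hy).2⟩
  have hε : 0 < c / 5 := by positivity
  obtain ⟨C₁, hC₁, hkb⟩ := h3 h μ φ ρ H _ hε
  obtain ⟨Uw, hUw, C₂, hC₂, hkl⟩ := h4 h μ φ ρ H w Vw hVw R _ hε
  obtain ⟨Uz, hUz, C₃, hC₃, hsm⟩ := h2 h μ φ ρ H z (interior Vz) (interior_mem_nhds.2 hVz) _ hε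
  have hχc : ContDiff ℝ ∞ (fun x => (χ x : ℂ)) := Complex.ofRealCLM.contDiff.comp hχ
  have hcc : HasCompactSupport (fun x => (χ x : ℂ)) :=
    hc.comp_left (g := fun x : ℝ => (x : ℂ)) Complex.ofReal_zero
  obtain ⟨D₀, hD₀⟩ := (continuous_dbar (hχc.of_le (by simp))).bounded_above_of_compact_support
    (hasCompactSupport_dbar hcc)
  set D := D₀ + 1 with hD
  have hDp : 0 < D := by linarith [(norm_nonneg _).trans (hD₀ 0)]
  have hd0 : ∀ x, x ∉ S → dbar (fun x => (χ x : ℂ)) x = 0 := by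
    intro x hx
    have e : fderiv ℝ (fun x => (χ x : ℂ)) x = Complex.ofRealCLM.comp (fderiv ℝ χ x) :=
      (Complex.ofRealCLM.hasFDerivAt.comp x (hχ.differentiable (by simp) x).hasFDerivAt).fderiv
    simp [dbar, e, hS0 x hx]
  refine ⟨Uz, hUz, Uw, hUw, √(C₃ * C₂ * (D * (C * (C₁ + C₂)))), c / 5, by positivity, hε, ?_⟩
  rintro k hk N s hs ⟨x, x'⟩ ⟨hx, hx'⟩
  have hf : IsHolSection LL k (ker h k N s x') := isHolSection_sum hs.hol _
  set u : ℂ → ℂ := fun y => ker h k N s x' false y with hu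
  have hup : IsPoly k u := isPoly_section hf
  have hud := hup.differentiable
  have hA : ∀ y, ‖u y‖ ≤ C₁ * Real.exp (c / 5 * k) * Real.exp (k * φ y / 2) := fun y => by
    rw [hu]
    simp only
    rw [norm_ker_coe H]
    exact mul_le_mul_of_nonneg_right (hkb k N s hs _ _) (Real.exp_pos _).le
  have hshell : ∀ y ∈ S, ‖u y‖ ≤ C * (C₁ + C₂) * (Real.exp (-c * k) * Real.exp (c / 5 * k))
      * Real.exp (k * φ y / 2) := by
    intro y hy
    obtain ⟨v, v1, v2, v3, v4, v5⟩ := hpar y hy k hk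
    have b1 := v5 u _ hud hA
    have b2 := hkl k hk N s hs x' hx' v _ (by positivity) v1 v2 v3 v4
    have b3 : ∫ x, u x * conj (v x) * (wt φ ρ k x : ℂ)
        = conj (∫ x, v x * conj (u x) * (wt φ ρ k x : ℂ)) := by
      rw [← integral_conj]
      refine integral_congr_ae (Eventually.of_forall fun x => ?_)
      simp only [map_mul, Complex.conj_conj, Complex.conj_ofReal]
      ring
    have b4 : ‖∫ x, u x * conj (v x) * (wt φ ρ k x : ℂ)‖ ≤ C₂ * Real.exp (c / 5 * k) *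
        (C * Real.exp (-c * k) * Real.exp (k * φ y / 2)) := by
      rw [b3, Complex.norm_conj]; exact b2
    have b5 := norm_le_norm_sub_add (u y) (∫ x, u x * conj (v x) * (wt φ ρ k x : ℂ))
    refine b5.trans ((add_le_add b1 b4).trans_eq ?_)
    ring
  have hus : ContDiff ℝ ∞ u := (hud.contDiff (n := ∞)).restrict_scalars ℝ
  have key := hkl k hk N s hs x' hx' (fun y => (χ y : ℂ) * u y)
    (D * (C * (C₁ + C₂) * (Real.exp (-c * k) * Real.exp (c / 5 * k)))) (by positivity)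
    (hχc.mul hus)
    (fun y hy => by
      have : χ y = 0 := by
        by_contra hne
        linarith [hR₁ y (Or.inr (subset_tsupport _ hne))]
      simp [this])
    (fun y hy => by simp [hχw y hy])
    (fun y => by
      rw [dbar_mul (hχc.differentiable (by simp) y) (hus.differentiable (by simp) y),
        dbar_hol (hud y), mul_zero, add_zero]
      by_cases hy : y ∈ S
      · rw [norm_mul, mul_assoc]
        exact mul_le_mul (by linarith [hD₀ y]) (hshell y hy) (norm_nonneg _) hDp.le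
      · rw [hd0 y hy, zero_mul, norm_zero]
        positivity)
  have hint : Integrable (fun y => χ y * (‖u y‖ ^ 2 * wt φ ρ k y)) := by
    have hw := (H.pd.contDiff_wt k).continuous
    have hu' := hud.continuous
    have hχ' := hχ.continuous
    exact Continuous.integrable_of_hasCompactSupport (by fun_prop) hc.mul_right
  have e1 : ∫ y, (χ y : ℂ) * u y * conj (u y) * (wt φ ρ k y : ℂ)
      = ((∫ y, χ y * (‖u y‖ ^ 2 * wt φ ρ k y) : ℝ) : ℂ) := by
    rw [← integral_complex_ofReal]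
    refine integral_congr_ae (Eventually.of_forall fun y => ?_)
    simp only
    rw [mul_assoc (χ y : ℂ), Complex.mul_conj, Complex.normSq_eq_norm_sq]
    push_cast
    ring
  have e2 : ∫ y in (fun z : ℂ => (z : S2)) ⁻¹' interior Vz, ‖u y‖ ^ 2 * wt φ ρ k y
      ≤ ∫ y, χ y * (‖u y‖ ^ 2 * wt φ ρ k y) := by
    have hm : MeasurableSet ((fun z : ℂ => (z : S2)) ⁻¹' interior Vz) :=
      (isOpen_interior.preimage OnePoint.continuous_coe).measurableSet
    rw [setIntegral_congr_fun hm (g := fun y => χ y * (‖u y‖ ^ 2 * wt φ ρ k y))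
      fun y hy => by simp [hχ1 y (interior_subset hy)]]
    exact setIntegral_le_integral hint (Eventually.of_forall fun y =>
      mul_nonneg (hχ0 y) (mul_nonneg (sq_nonneg _) (H.pd.wt_pos k y).le))
  have e3 := hsm k _ hf x hx
  rw [pn_ker H.met] at e3
  change ‖∫ y, (χ y : ℂ) * u y * conj (u y) * (wt φ ρ k y : ℂ)‖ ≤ _ at key
  rw [e1, Complex.norm_real] at key
  have e4 := e3.trans (mul_le_mul_of_nonneg_left (e2.trans ((le_abs_self _).trans key))
    (by positivity))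
  have e5 : Real.exp (c / 5 * k) * Real.exp (c / 5 * k) * (Real.exp (-c * k) * Real.exp (c / 5 * k))
      = Real.exp (-(c / 5) * k) ^ 2 := by
    rw [← Real.exp_add, ← Real.exp_add, ← Real.exp_add, ← Real.exp_nat_mul]
    congr 1
    push_cast
    ring
  refine (abs_le_of_sq_le_sq' ?_ (by positivity)).2
  rw [mul_pow, Real.sq_sqrt (by positivity), ← e5]
  refine e4.trans_eq ?_
  ring

end Pool.Agent.MP_6c43ae_an.Ct
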