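import Pool.Agent.MP_6c43ae_an.ct.Spec

/-! The recursion for the amplitude. -/

set_option autoImplicit false

open Set Filter Topology Metric

namespace Pool.Agent.MP_6c43ae_an.Ct

namespace RcX

/-- one step of the recursion -/
lemma step {r b B k M : ℝ} {θ ϱ R : C2 → ℂ} {T : Set ℂ} (hT : IsOpen T) (hr : 0 < r) (hb : 0 < b)
    (hk : 0 < k) (hθ : DifferentiableOn ℂ θ (ball 0 r ×ˢ T))
    (hϱ : DifferentiableOn ℂ ϱ (ball 0 r ×ˢ T)) (hR : DifferentiableOn ℂ R (ball 0 r ×ˢ T))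
    (h : ∀ q ∈ ball (0 : ℂ) r ×ˢ T, b ≤ ‖θ q‖ ∧ b ≤ ‖ϱ q‖ ∧ ‖ϱ q‖ ≤ B ∧ ‖R q‖ ≤ M) :
    ∃ (W : C2 → ℂ) (a : ℂ → ℂ), DifferentiableOn ℂ W (ball 0 r ×ˢ T) ∧ DifferentiableOn ℂ a T ∧
      ∀ q ∈ ball (0 : ℂ) r ×ˢ T, ‖W q‖ ≤ (1 + B / b) / (r * b) * M / k ∧ ‖a q.2‖ ≤ M / b ∧
        R q + k * q.1 * θ q * W q = a q.2 * ϱ q := by
  have h0 : ∀ t ∈ T, ((0 : ℂ), t) ∈ ball (0 : ℂ) r ×ˢ T := fun t ht => ⟨mem_ball_self hr, ht⟩
  have hne : ∀ {z : ℂ}, b ≤ ‖z‖ → z ≠ 0 := fun hz => norm_pos_iff.1 (hb.trans_le hz)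
  have hk' : (k : ℂ) ≠ 0 := Complex.ofReal_ne_zero.2 hk.ne'
  let a : ℂ → ℂ := fun t => R (0, t) / ϱ (0, t)
  have ha : DifferentiableOn ℂ a T :=
    (hR.comp (by fun_prop) h0).div (hϱ.comp (by fun_prop) h0) fun t ht => hne (h _ (h0 t ht)).2.1
  have hab : ∀ t ∈ T, ‖a t‖ ≤ M / b := fun t ht => by
    obtain ⟨-, h2, -, h4⟩ := h _ (h0 t ht)
    rw [norm_div]
    exact div_le_div₀ ((norm_nonneg _).trans h4) h4 hb h2
  let H : C2 → ℂ := fun q => R q - a q.2 * ϱ q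
  have hH : DifferentiableOn ℂ H (ball 0 r ×ˢ T) :=
    hR.sub ((ha.comp differentiableOn_snd fun q hq => hq.2).mul hϱ)
  have hH0 : ∀ t ∈ T, H (0, t) = 0 := fun t ht => by
    simp only [H, a]
    rw [div_mul_cancel₀ _ (hne (h _ (h0 t ht)).2.1), sub_self]
  have hHb : ∀ q ∈ ball (0 : ℂ) r ×ˢ T, ‖H q‖ ≤ (1 + B / b) * M := fun q hq => by
    obtain ⟨-, -, h3, h4⟩ := h q hq
    have h5 := hab q.2 hq.2
    calc ‖H q‖ ≤ ‖R q‖ + ‖a q.2‖ * ‖ϱ q‖ := (norm_sub_le _ _).trans (by rw [norm_mul])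
      _ ≤ M + M / b * B := add_le_add h4
          (mul_le_mul h5 h3 (norm_nonneg _) ((norm_nonneg _).trans h5))
      _ = _ := by ring
  refine ⟨fun q => -ds H q / (k * θ q), a, ?_, ha, fun q hq => ⟨?_, hab _ hq.2, ?_⟩⟩
  · simp only [div_eq_mul_inv]
    exact (differentiableOn_ds hT hH).neg.mul
      ((hθ.const_mul _).inv fun q hq => mul_ne_zero hk' (hne (h q hq).1))
  · have h1 : ‖ds H q‖ ≤ (1 + B / b) * M / r :=
      norm_ds_le hq.1 (hH.comp (by fun_prop) fun x hx => ⟨hx, hq.2⟩) fun x hx => by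
        rw [hH0 _ hq.2, sub_zero]
        exact hHb _ ⟨hx, hq.2⟩
    rw [norm_div, norm_neg, norm_mul, Complex.norm_real, Real.norm_of_nonneg hk.le]
    refine (div_le_div₀ ((norm_nonneg _).trans h1) h1 (mul_pos hk hb)
      (mul_le_mul_of_nonneg_left (h q hq).1 hk.le)).trans (le_of_eq ?_)
    field_simp
  · have h1 := mul_ds H q
    rw [hH0 _ hq.2, sub_zero] at h1
    have h2 := hne (h q hq).1
    have h3 : k * q.1 * θ q * (-ds H q / (k * θ q)) = -(q.1 * ds H q) := by field_simp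
    rw [h3, h1]
    simp only [H]
    ring

/-- the Cauchy estimate in the second variable -/
lemma snd_le {r s σ N : ℝ} {W : C2 → ℂ} (hσ : 0 < σ)
    (hW : DifferentiableOn ℂ W (ball 0 r ×ˢ ball 0 (s + σ)))
    (hN : ∀ q ∈ ball (0 : ℂ) r ×ˢ ball (0 : ℂ) (s + σ), ‖W q‖ ≤ N) {q : C2}
    (hq : q ∈ ball (0 : ℂ) r ×ˢ ball (0 : ℂ) s) : ‖fderiv ℂ W q (0, 1)‖ ≤ N / σ := by
  have hsub : ball q.2 σ ⊆ ball (0 : ℂ) (s + σ) :=
    ball_subset_ball' (by linarith [mem_ball.1 hq.2])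
  have hd : DifferentiableAt ℂ W q :=
    hW.differentiableAt ((isOpen_ball.prod isOpen_ball).mem_nhds ⟨hq.1, hsub (mem_ball_self hσ)⟩)
  have h1 := cauchy (f := fun u => W (q.1, u)) hσ
    (hW.comp (by fun_prop) fun u hu => ⟨hq.1, hsub hu⟩) fun u hu => hN _ ⟨hq.1, hsub hu⟩
  rw [← (deriv_snd hd).deriv, norm_deriv_eq_norm_fderiv]
  exact h1

end RcX

open RcX in
theorem rc : RC := by
  intro r σ b B k θ ϱ hr hσ hb hk hA n
  induction n with
  | zero =>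
    intro s M R _ _ _ h
    refine ⟨fun _ => 0, R, fun _ => 0, differentiableOn_const _, differentiableOn_const _,
      fun q hq => ?_⟩
    obtain ⟨-, h2, h3, h4⟩ := h q (by simpa using hq)
    have hM := (norm_nonneg _).trans h4
    have hB := (norm_nonneg _).trans h3
    refine ⟨by rw [norm_zero]; positivity, by rw [norm_zero]; positivity, by simpa using h4, ?_⟩
    simp
  | succ n ih =>
    intro s M R hθ hϱ hR h
    have e1 : s + ((n + 1 : ℕ) : ℝ) * σ = s + n * σ + σ := by push_cast; ring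
    rw [e1] at hθ hϱ hR h
    have s1 : ball (0 : ℂ) r ×ˢ ball (0 : ℂ) (s + n * σ) ⊆
        ball (0 : ℂ) r ×ˢ ball (0 : ℂ) (s + n * σ + σ) :=
      prod_mono subset_rfl (ball_subset_ball (by linarith))
    have s2 : ball (0 : ℂ) s ⊆ ball (0 : ℂ) (s + n * σ + σ) :=
      ball_subset_ball (by have : 0 ≤ n * σ := by positivity
                           linarith)
    have s3 : ball (0 : ℂ) r ×ˢ ball (0 : ℂ) s ⊆ ball (0 : ℂ) r ×ˢ ball (0 : ℂ) (s + n * σ + σ) :=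
      prod_mono subset_rfl s2
    obtain ⟨W₀, a₀, hW₀, ha₀, h₀⟩ := step isOpen_ball hr hb hk hθ hϱ hR h
    obtain ⟨W₁, E, a₁, hW₁, ha₁, h₁⟩ := ih s (M / 2) (fun q => fderiv ℂ W₀ q (0, 1)) (hθ.mono s1)
      (hϱ.mono s1) ((hol_fderiv (isOpen_ball.prod isOpen_ball) hW₀ _).mono s1) fun q hq => by
        obtain ⟨h1, h2, h3, h4⟩ := h q (s1 hq)
        have hM := (norm_nonneg _).trans h4
        refine ⟨h1, h2, h3, (snd_le hσ hW₀ (fun q hq => (h₀ q hq).1) hq).trans ?_⟩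
        rw [div_div, div_le_div_iff₀ (mul_pos hk hσ) two_pos]
        nlinarith
    refine ⟨fun q => W₀ q + W₁ q, E, fun t => a₀ t + a₁ t, (hW₀.mono s3).add hW₁,
      (ha₀.mono s2).add ha₁, fun q hq => ?_⟩
    obtain ⟨b1, b2, b3⟩ := h₀ q (s3 hq)
    obtain ⟨c1, c2, c3, c4⟩ := h₁ q hq
    have hq' := (isOpen_ball.prod isOpen_ball).mem_nhds hq
    refine ⟨(norm_add_le _ _).trans ((add_le_add b1 c1).trans (le_of_eq (by ring))),
      (norm_add_le _ _).trans ((add_le_add b2 c2).trans (le_of_eq (by ring))),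
      c3.trans (le_of_eq (by ring)), ?_⟩
    rw [fderiv_fun_add ((hW₀.mono s3).differentiableAt hq') (hW₁.differentiableAt hq'),
      add_apply]
    linear_combination b3 + c4

end Pool.Agent.MP_6c43ae_an.Ct
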