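import Pool.Agent.MP_6c43ae_an.ct.Spec

/-! Project CANTOR: from the sphere to the affine chart; orthonormal bases exist. -/

set_option autoImplicit false

open MeasureTheory Set Filter Topology Metric
open scoped ComplexConjugate ContDiff

namespace Pool.Agent.MP_6c43ae_an.Ct

namespace SdX

lemma dens_eq {f g : ℂ → ℝ} {U : Set ℂ} (hU : IsOpen U) (hf : ContinuousOn f U)
    (hg : ContinuousOn g U) (hp : ∀ x ∈ U, 0 < f x)
    (H : ∀ A : Set ℂ, MeasurableSet A → A ⊆ U →
      ∫⁻ y in A, ENNReal.ofReal (f y) = ∫⁻ y in A, ENNReal.ofReal (g y)) :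
    ∀ x ∈ U, f x = g x := by
  have hf' : ContinuousOn (fun y => ENNReal.ofReal (f y)) U :=
    ENNReal.continuous_ofReal.comp_continuousOn hf
  have hg' : ContinuousOn (fun y => ENNReal.ofReal (g y)) U :=
    ENNReal.continuous_ofReal.comp_continuousOn hg
  have h1 : (fun y => ENNReal.ofReal (f y)) =ᵐ[volume.restrict U] fun y => ENNReal.ofReal (g y) := by
    refine ae_eq_of_forall_setLIntegral_eq_of_sigmaFinite₀ (hf'.aemeasurable hU.measurableSet)
      (hg'.aemeasurable hU.measurableSet) fun s hs _ => ?_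
    rw [Measure.restrict_restrict hs]
    exact H _ (hs.inter hU.measurableSet) inter_subset_right
  intro x hx
  have h2 : ENNReal.ofReal (f x) = ENNReal.ofReal (g x) :=
    Measure.eqOn_open_of_ae_eq h1 hU hf' hg' hx
  have h3 : 0 < g x := by
    rw [← ENNReal.ofReal_pos, ← h2, ENNReal.ofReal_pos]
    exact hp x hx
  exact (ENNReal.ofReal_eq_ofReal_iff (hp x hx).le h3.le).1 h2

lemma bdd_of_inv {F G : ℂ → ℝ} (hF : Continuous F) (hG : Continuous G)
    (h : ∀ x : ℂ, x ≠ 0 → F x = G x⁻¹) : ∃ C, ∀ x, |F x| ≤ C := by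
  obtain ⟨A, hA⟩ := (isCompact_closedBall (0 : ℂ) 1).exists_bound_of_continuousOn hF.continuousOn
  obtain ⟨B, hB⟩ := (isCompact_closedBall (0 : ℂ) 1).exists_bound_of_continuousOn hG.continuousOn
  refine ⟨max A B, fun x => ?_⟩
  by_cases hx : ‖x‖ ≤ 1
  · exact (hA x (mem_closedBall_zero_iff.2 hx)).trans (le_max_left _ _)
  · have h1 : 1 < ‖x‖ := not_le.1 hx
    have h0 : x ≠ 0 := by
      rintro rfl
      rw [norm_zero] at h1
      linarith
    rw [h x h0]
    refine (hB x⁻¹ (mem_closedBall_zero_iff.2 ?_)).trans (le_max_right _ _)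
    rw [norm_inv]
    exact inv_le_one_of_one_le₀ h1.le

lemma lintegral_inv (ρ : ℂ → ℝ) {A : Set ℂ} (hA : MeasurableSet A) (h0 : A ⊆ {0}ᶜ) :
    ∫⁻ y in (fun w : ℂ => w⁻¹) '' A, ENNReal.ofReal (ρ y)
      = ∫⁻ w in A, ENNReal.ofReal (((‖w‖ ^ 2) ^ 2)⁻¹ * ρ w⁻¹) := by
  rw [lintegral_image_eq_lintegral_abs_det_fderiv_mul volume hA
    (f' := fun w => (ContinuousLinearMap.toSpanSingleton ℂ (-(w ^ 2)⁻¹)).restrictScalars ℝ)
    (fun w hw => ((hasDerivAt_inv (h0 hw)).hasFDerivAt.restrictScalars ℝ).hasFDerivWithinAt)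
    (inv_injective.injOn)]
  refine setLIntegral_congr_fun hA fun w _ => ?_
  have hdet : ((ContinuousLinearMap.toSpanSingleton ℂ (-(w ^ 2)⁻¹)).restrictScalars ℝ).det
      = ((‖w‖ ^ 2) ^ 2)⁻¹ := by
    simp [ContinuousLinearMap.det, LinearMap.det_restrictScalars, Algebra.norm_complex_eq,
      Complex.normSq_eq_norm_sq]
  rw [hdet, ← ENNReal.ofReal_mul (abs_nonneg _), abs_of_nonneg (by positivity)]

lemma vol_data {μ : Measure S2} (hμ : IsSmoothVolume μ) :
    ∃ ρ : ℂ → ℝ, ContDiff ℝ ∞ ρ ∧ (∀ x, 0 < ρ x) ∧ (∃ C, ∀ x, ρ x * (1 + ‖x‖ ^ 2) ^ 2 ≤ C) ∧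
      μ = (volume.withDensity fun x => ENNReal.ofReal (ρ x)).map (fun z : ℂ => (z : S2)) ∧
      ∀ y : ℂ, IsAnalyticVolumeAt μ (y : S2) → AnalyticAt ℝ ρ y := by
  obtain ⟨ρ, s0, p0, m0⟩ := hμ ((0 : ℂ) : S2)
  obtain ⟨σ, s1, p1, m1⟩ := hμ OnePoint.infty
  have s0' : ContDiff ℝ ∞ ρ := contDiffOn_univ.1 s0
  have s1' : ContDiff ℝ ∞ σ := contDiffOn_univ.1 s1
  have p0' : ∀ x, 0 < ρ x := fun x => p0 x (mem_univ x)
  have p1' : ∀ x, 0 < σ x := fun x => p1 x (mem_univ x)
  have m0' : ∀ A : Set ℂ, MeasurableSet A →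
      μ ((fun z : ℂ => (z : S2)) '' A) = ∫⁻ y in A, ENNReal.ofReal (ρ y) :=
    fun A hA => m0 A hA (subset_univ A)
  have m1' : ∀ A : Set ℂ, MeasurableSet A → μ (i1 '' A) = ∫⁻ y in A, ENNReal.ofReal (σ y) :=
    fun A hA => m1 A hA (subset_univ A)
  have c0' := s0'.continuous
  have c1' := s1'.continuous
  have hinf : μ {OnePoint.infty} = 0 := by
    have := m1' {0} (measurableSet_singleton 0)
    rw [image_singleton, i1_zero] at this
    rw [this]
    exact setLIntegral_measure_zero _ _ (measure_singleton 0)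
  have hrel : ∀ w ∈ ({0}ᶜ : Set ℂ), σ w = ((‖w‖ ^ 2) ^ 2)⁻¹ * ρ w⁻¹ := by
    refine dens_eq isOpen_compl_singleton c1'.continuousOn ?_ (fun x _ => p1' x) fun A hA h0 => ?_
    · intro w hw
      have hw0 : w ≠ 0 := hw
      have hn : (‖w‖ ^ 2) ^ 2 ≠ 0 := by positivity
      refine ContinuousAt.continuousWithinAt (ContinuousAt.mul (ContinuousAt.inv₀ ?_ hn) ?_)
      · fun_prop
      · exact c0'.continuousAt.comp (continuousAt_inv₀ hw0)
    · have hm : MeasurableSet ((fun w : ℂ => w⁻¹) '' A) := by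
        rw [image_inv_eq_inv]
        exact hA.inv
      rw [← lintegral_inv ρ hA h0, ← m0' _ hm, ← m1' A hA, image_image]
      congr 1
      exact image_congr fun w hw => i1_of_ne (h0 hw)
  refine ⟨ρ, s0', p0', ?_, ?_, ?_⟩
  · obtain ⟨C, hC⟩ := bdd_of_inv (F := fun x => ρ x * (1 + ‖x‖ ^ 2) ^ 2)
      (G := fun x => σ x * (1 + ‖x‖ ^ 2) ^ 2) (by fun_prop) (by fun_prop) fun x hx => by
        have hn : ‖x‖ ≠ 0 := norm_ne_zero_iff.2 hx
        rw [hrel x⁻¹ (inv_ne_zero hx), inv_inv, norm_inv]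
        field_simp
        ring
    exact ⟨C, fun x => (le_abs_self _).trans (hC x)⟩
  · ext s hs
    have hs' : MeasurableSet ((fun z : ℂ => (z : S2)) ⁻¹' s) := measurableEmbedding_coe.measurable hs
    rw [measurableEmbedding_coe.map_apply, withDensity_apply _ hs', ← m0' _ hs',
      image_preimage_eq_inter_range]
    refine (measure_inter_conull ?_).symm
    rw [OnePoint.compl_range_coe]
    exact hinf
  · rintro y ⟨τ, hτ, U, hU, hm⟩
    have hτ' : AnalyticAt ℝ τ y := hτ
    have hU' : U ∈ 𝓝 y := hU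
    obtain ⟨V, hV, hVo, hy⟩ := _root_.mem_nhds_iff.1 (inter_mem hU' hτ'.eventually_analyticAt)
    have he := dens_eq (f := ρ) (g := τ) hVo c0'.continuousOn
      (fun x hx => (show AnalyticAt ℝ τ x from (hV hx).2).continuousAt.continuousWithinAt)
      (fun x _ => p0' x) fun A hA hAV => by
        rw [← m0' A hA]
        exact hm A hA (fun x hx => (hV (hAV hx)).1) (subset_univ A)
    refine hτ'.congr ?_
    filter_upwards [hVo.mem_nhds hy] with x hx
    exact (he x hx).symm

lemma met_data {h : Bool → S2 → ℝ} (H : IsPositiveMetric LL h) :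
    ContDiff ℝ ∞ (fun x : ℂ => -Real.log (h false x)) ∧
      ∃ C, ∀ x : ℂ, |-Real.log (h false x) - Real.log (1 + ‖x‖ ^ 2)| ≤ C := by
  have p0 : ∀ x : ℂ, 0 < h false x := fun x => H.pos false x (OnePoint.coe_ne_infty x)
  have hi : ∀ w : ℂ, i1 w ∈ UU true := fun w => chart1.map_target (mem_univ w)
  have p1 : ∀ w : ℂ, 0 < h true (i1 w) := fun w => H.pos true _ (hi w)
  have s0 : ContDiff ℝ ∞ (fun x : ℂ => h false x) := by
    rw [contDiff_iff_contDiffAt]
    intro x
    exact contMDiffAt_iff_chart.1 ((H.smooth false).contMDiffAt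
      ((isOpen_UU false).mem_nhds (OnePoint.coe_ne_infty x)))
  have c1' : Continuous (fun w : ℂ => h true (i1 w)) :=
    (H.smooth true).continuousOn.comp_continuous continuous_i1 hi
  have sφ : ContDiff ℝ ∞ (fun x : ℂ => -Real.log (h false x)) := (s0.log fun x => (p0 x).ne').neg
  refine ⟨sφ, bdd_of_inv (G := fun w => -Real.log (h true (i1 w)) - Real.log (1 + ‖w‖ ^ 2))
    (sφ.continuous.sub contDiff_log_one_add.continuous)
    ((c1'.log fun w => (p1 w).ne').neg.sub contDiff_log_one_add.continuous) fun x hx => ?_⟩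
  have hx1 : (x : S2) ∈ UU true := fun e => hx (OnePoint.coe_injective e)
  have e1 := H.compat false true x ⟨OnePoint.coe_ne_infty x, hx1⟩
  rw [LL_coord] at e1
  have e2 : h false x = (‖x‖ ^ 2)⁻¹ * h true x := by
    rw [e1]
    simp only [tr, c1_coe, norm_inv, inv_pow]
  have hn : 0 < ‖x‖ ^ 2 := by positivity
  have p2 : 0 < h true x := H.pos true _ hx1
  have e3 : 1 + (‖x‖ ^ 2)⁻¹ = (1 + ‖x‖ ^ 2) / ‖x‖ ^ 2 := by field_simp; ring
  rw [i1_of_ne (inv_ne_zero hx), inv_inv, norm_inv, inv_pow, e2, e3,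
    Real.log_div (by positivity) hn.ne', Real.log_mul (by positivity) p2.ne', Real.log_inv]
  ring

lemma exists_on {V : Type} [AddCommGroup V] [Module ℂ V] [FiniteDimensional ℂ V]
    (c : InnerProductSpace.Core ℂ V) :
    ∃ (N : ℕ) (b : Fin N → V), (∀ i j, c.inner (b i) (b j) = if i = j then 1 else 0) ∧
      ∀ v, ∃ γ : Fin N → ℂ, v = ∑ i, γ i • b i := by
  let : NormedAddCommGroup V := c.toNormedAddCommGroup
  let : InnerProductSpace ℂ V := InnerProductSpace.ofCore c.toCore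
  let b := stdOrthonormalBasis ℂ V
  refine ⟨_, b, fun i j => ?_, fun v => ⟨fun i => b.repr v i, (b.sum_repr v).symm⟩⟩
  exact orthonormal_iff_ite.1 b.orthonormal i j

/-- the polynomial with given coefficients -/
noncomputable def pol {k : ℕ} (c : Fin (k + 1) → ℂ) (z : ℂ) : ℂ := ∑ a, c a * z ^ (a : ℕ)

lemma gr_pol {k : ℕ} (c : Fin (k + 1) → ℂ) : Gr k (pol c) :=
  gr_sum _ fun a _ => (gr_pow (Nat.lt_succ_iff.1 a.2)).const_mul _

lemma pol_add {k : ℕ} (c d : Fin (k + 1) → ℂ) (z : ℂ) : pol (c + d) z = pol c z + pol d z := by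
  simp [pol, add_mul, Finset.sum_add_distrib]

lemma pol_smul {k : ℕ} (r : ℂ) (c : Fin (k + 1) → ℂ) (z : ℂ) : pol (r • c) z = r * pol c z := by
  simp [pol, Finset.mul_sum, mul_assoc]

lemma pol_sum {k N : ℕ} (γ : Fin N → ℂ) (b : Fin N → Fin (k + 1) → ℂ) (z : ℂ) :
    pol (∑ i, γ i • b i) z = ∑ i, γ i * pol (b i) z := by
  simp only [pol, Finset.sum_apply, Pi.smul_apply, smul_eq_mul, Finset.sum_mul, Finset.mul_sum,
    mul_assoc]
  exact Finset.sum_comm

lemma pol_zero {k : ℕ} {c : Fin (k + 1) → ℂ} (h : ∀ z, pol c z = 0) : c = 0 := by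
  have h1 : (∑ a : Fin (k + 1), Polynomial.monomial (a : ℕ) (c a)) = 0 := by
    apply Polynomial.funext
    intro z
    rw [Polynomial.eval_zero, ← h z, Polynomial.eval_finsetSum]
    simp [pol]
  funext a
  have h2 := congrArg (fun p : Polynomial ℂ => p.coeff a) h1
  simp only [Polynomial.finsetSum_coeff, Polynomial.coeff_monomial, Polynomial.coeff_zero,
    Fin.val_inj, Finset.sum_ite_eq', Finset.mem_univ, if_true] at h2
  exact h2

lemma self_eq {φ ρ : ℂ → ℝ} (k : ℕ) (a : ℂ → ℂ) :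
    ∫ z, a z * conj (a z) * (wt φ ρ k z : ℂ) = ((∫ z, ‖a z‖ ^ 2 * wt φ ρ k z : ℝ) : ℂ) := by
  rw [← integral_complex_ofReal]
  refine integral_congr_ae (Eventually.of_forall fun z => ?_)
  simp only
  rw [Complex.mul_conj, Complex.normSq_eq_norm_sq]
  push_cast
  ring

/-- the Gram form on coefficient vectors -/
@[reducible] noncomputable def core {φ ρ : ℂ → ℝ} (H : PD φ ρ) (k : ℕ) :
    InnerProductSpace.Core ℂ (Fin (k + 1) → ℂ) where
  inner c d := ∫ z, pol d z * conj (pol c z) * (wt φ ρ k z : ℂ)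
  conj_inner_symm c d := by
    rw [← integral_conj]
    refine integral_congr_ae (Eventually.of_forall fun z => ?_)
    simp only [map_mul, Complex.conj_conj, Complex.conj_ofReal]
    ring
  re_inner_nonneg c := by
    rw [self_eq]
    change 0 ≤ ((∫ z, ‖pol c z‖ ^ 2 * wt φ ρ k z : ℝ) : ℂ).re
    rw [Complex.ofReal_re]
    exact integral_nonneg fun z => mul_nonneg (by positivity) (H.wt_pos k z).le
  add_left c d e := by
    rw [← integral_add (H.integrable (gr_pol e) (gr_pol c)) (H.integrable (gr_pol e) (gr_pol d))]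
    refine integral_congr_ae (Eventually.of_forall fun z => ?_)
    simp only [pol_add, map_add]
    ring
  smul_left c d r := by
    rw [← integral_const_mul]
    refine integral_congr_ae (Eventually.of_forall fun z => ?_)
    simp only [pol_smul, map_mul]
    ring
  definite c hc := by
    rw [self_eq, Complex.ofReal_eq_zero] at hc
    have hw := (H.contDiff_wt k).continuous
    have hp := (gr_pol c).1
    have h1 := (integral_eq_zero_iff_of_nonneg
      (fun z => mul_nonneg (by positivity) (H.wt_pos k z).le) (H.integrable_sq (gr_pol c))).1 hc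
    have h2 := (Continuous.ae_eq_iff_eq volume ((hp.norm.pow 2).mul hw) continuous_const).1 h1
    refine pol_zero fun z => ?_
    have h3 : ‖pol c z‖ ^ 2 * wt φ ρ k z = 0 := congrFun h2 z
    rcases mul_eq_zero.1 h3 with h4 | h4
    · exact norm_eq_zero.1 (pow_eq_zero_iff two_ne_zero |>.1 h4)
    · exact absurd h4 (H.wt_pos k z).ne'

lemma section_ext {k : ℕ} {s t : Bool → S2 → ℂ} (hs : IsHolSection LL k s)
    (ht : IsHolSection LL k t) (h0 : ∀ z : ℂ, s false z = t false z) :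
    ∀ i, ∀ x ∈ LL.baseSet i, s i x = t i x := by
  have h1 : ∀ z : ℂ, z ≠ 0 → s true z = t true z := fun z hz => by
    rw [hs.true_coe hz, ht.true_coe hz, h0]
  intro i x hx
  induction x using OnePoint.rec with
  | coe z =>
    cases i
    · exact h0 z
    · exact h1 z fun h => hx (by rw [h])
  | infty =>
    cases i
    · exact absurd rfl hx
    · refine tendsto_nhds_unique_of_eventuallyEq
        (tendsto_of_continuousAt_infty (hs.continuousAt (i := true) hx))
        (tendsto_of_continuousAt_infty (ht.continuousAt (i := true) hx)) ?_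
      filter_upwards [Bornology.eventually_ne_cobounded (0 : ℂ)] with z hz
      exact h1 z hz

end SdX

open SdX

theorem sd : SD := by
  intro h μ H hμ
  obtain ⟨ρ, sρ, pρ, gρ, eμ, aρ⟩ := vol_data hμ
  obtain ⟨sφ, gφ⟩ := met_data H
  have p0 : ∀ x : ℂ, 0 < h false x := fun x => H.pos false x (OnePoint.coe_ne_infty x)
  refine ⟨fun x : ℂ => -Real.log (h false x), ρ, ⟨H, hμ, ⟨sφ, sρ, fun x => ?_, pρ, gφ, gρ⟩,
    fun x => ?_, eμ⟩, fun y hy => ?_, aρ⟩
  · exact H.curvature_pos false x (OnePoint.coe_ne_infty x)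
  · rw [neg_neg, Real.exp_log (p0 x)]
  · have h1 : AnalyticAt ℝ (fun x : ℂ => h false x) y := hy false (OnePoint.coe_ne_infty y)
    have h2 : AnalyticAt ℝ (fun x : ℂ => Real.log (h false x)) y :=
      AnalyticAt.comp (g := Real.log) (f := fun x : ℂ => h false x) (analyticAt_log (p0 y)) h1
    exact h2.neg

theorem on : ON := by
  intro h μ φ ρ H k
  obtain ⟨N, b, hb, hspan⟩ := exists_on (core H.pd k)
  have hle : ∀ a : Fin (k + 1), (a : ℕ) ≤ k := fun a => Nat.lt_succ_iff.1 a.2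
  let s : Fin N → Bool → S2 → ℂ := fun j i y => ∑ a : Fin (k + 1), b j a * mon k a 1 i y
  have hs : ∀ j, IsHolSection LL k (s j) := fun j =>
    isHolSection_sum (fun a => isHolSection_mon (hle a) 1) (b j)
  have e : ∀ (j : Fin N) (z : ℂ), s j false z = pol (b j) z := fun j z => by
    simp only [s, mon, c0_coe, one_mul, pol]
  refine ⟨N, s, hs, fun i j => ?_, fun t ht => ?_⟩
  · rw [H.innerProd]
    simp only [e]
    have := hb j i
    rw [if_congr eq_comm rfl rfl] at this
    exact this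
  · obtain ⟨c, hc⟩ := ht.exists_coeff
    obtain ⟨γ, hγ⟩ := hspan fun a => c a
    refine ⟨γ, section_ext ht (isHolSection_sum hs γ) fun z => ?_⟩
    simp only [e]
    rw [← pol_sum, ← hγ, hc, Finset.sum_range]
    rfl

end Pool.Agent.MP_6c43ae_an.Ct
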