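import Pool.Agent.MP_6c43ae_an.ct.Spec

/-! The mean value inequality for sections. -/

set_option autoImplicit false

open MeasureTheory Set Filter Topology Metric
open scoped ComplexConjugate ContDiff Manifold

namespace Pool.Agent.MP_6c43ae_an.Ct

namespace SmX

lemma plane {H r : ℂ → ℝ} (hH : Continuous H) (hr : Continuous r) (H0 : ∀ y, 0 < H y)
    (r0 : ∀ y, 0 < r y) {c : ℂ} {W : Set ℂ} (hW : W ∈ 𝓝 c) {ε : ℝ} (hε : 0 < ε) :
    ∃ η C : ℝ, 0 < η ∧ 0 < C ∧ ball c (2 * η) ⊆ W ∧ ∀ (k : ℕ) (f : ℂ → ℂ), Differentiable ℂ f →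
      ∀ x ∈ ball c η, ‖f x‖ ^ 2 * H x ^ k ≤
        C * Real.exp (ε * k) * ∫ y in ball c (2 * η), r y * (‖f y‖ ^ 2 * H y ^ k) := by
  have hc := H0 c
  have rc := r0 c
  have e1 : 1 < Real.exp (ε / 2) := Real.one_lt_exp_iff.2 (by linarith)
  have a1 : ∀ᶠ y in 𝓝 c, H y < Real.exp (ε / 2) * H c :=
    hH.continuousAt.eventually (gt_mem_nhds (by nlinarith))
  have a2 : ∀ᶠ y in 𝓝 c, H c < Real.exp (ε / 2) * H y :=
    (continuous_const.mul hH).continuousAt.eventually
      (lt_mem_nhds (show H c < Real.exp (ε / 2) * H c by nlinarith))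
  have a3 : ∀ᶠ y in 𝓝 c, r c / 2 < r y :=
    hr.continuousAt.eventually (lt_mem_nhds (by linarith))
  obtain ⟨δ, hδ, hb⟩ := Metric.eventually_nhds_iff_ball.1 (a1.and (a2.and (a3.and hW)))
  obtain ⟨η, rfl⟩ : ∃ η, δ = 2 * η := ⟨δ / 2, by ring⟩
  have hη : 0 < η := by linarith
  have hπ := Real.pi_pos
  refine ⟨η, (Real.pi * η ^ 2 * (r c / 2))⁻¹, hη, by positivity, fun y hy => (hb y hy).2.2.2,
    fun k f hf x hx => ?_⟩
  have hfc := hf.continuous
  have hsub : ball x η ⊆ ball c (2 * η) := ball_subset_ball' (by linarith [mem_ball.1 hx])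
  have hx2 : x ∈ ball c (2 * η) := hsub (mem_ball_self hη)
  have hint : ∀ {g : ℂ → ℝ}, Continuous g → ∀ (z : ℂ) (R : ℝ), IntegrableOn g (ball z R) :=
    fun hg z R => (hg.continuousOn.integrableOn_compact (isCompact_closedBall z R)).mono_set
      ball_subset_closedBall
  have m1 := mean1 (g := fun y => f y ^ 2) (c := x) hη (by fun_prop) (hf.pow 2).differentiableOn
  have m2 : Real.pi * η ^ 2 * ‖f x‖ ^ 2 ≤ ∫ y in ball x η, ‖f y‖ ^ 2 := by
    have := norm_integral_le_integral_norm (μ := volume.restrict (ball x η)) (fun y => f y ^ 2)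
    rw [m1, norm_mul, Complex.norm_real, Real.norm_of_nonneg (by positivity)] at this
    simpa only [norm_pow] using this
  have hxk : 0 < H x ^ k := pow_pos (H0 x) k
  have m3 : (r c / 2 * H x ^ k) * ∫ y in ball x η, ‖f y‖ ^ 2 ≤
      Real.exp (ε * k) * ∫ y in ball x η, r y * (‖f y‖ ^ 2 * H y ^ k) := by
    rw [← integral_const_mul, ← integral_const_mul]
    refine setIntegral_mono_on (hint (by fun_prop) _ _) (hint (by fun_prop) _ _)
      measurableSet_ball fun y hy => ?_
    obtain ⟨-, b2, b3, -⟩ := hb y (hsub hy)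
    have b1 := (hb x hx2).1
    have b4 : H x ≤ Real.exp ε * H y := by
      have : Real.exp ε = Real.exp (ε / 2) * Real.exp (ε / 2) := by
        rw [← Real.exp_add]; congr 1; ring
      rw [this, mul_assoc]
      exact b1.le.trans (mul_le_mul_of_nonneg_left b2.le (Real.exp_pos _).le)
    have b5 : H x ^ k ≤ Real.exp (ε * k) * H y ^ k := by
      rw [mul_comm ε, Real.exp_nat_mul, ← mul_pow]
      exact pow_le_pow_left₀ (H0 x).le b4 k
    calc r c / 2 * H x ^ k * ‖f y‖ ^ 2 ≤ r y * (Real.exp (ε * k) * H y ^ k) * ‖f y‖ ^ 2 := by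
          have := (r0 y).le
          gcongr
      _ = _ := by ring
  have m4 : ∫ y in ball x η, r y * (‖f y‖ ^ 2 * H y ^ k) ≤
      ∫ y in ball c (2 * η), r y * (‖f y‖ ^ 2 * H y ^ k) :=
    setIntegral_mono_set (hint (by fun_prop) _ _)
      (Eventually.of_forall fun y => by
        have := (r0 y).le
        have := (H0 y).le
        positivity) hsub.eventuallyLE
  rw [mul_assoc, le_inv_mul_iff₀ (by positivity)]
  calc Real.pi * η ^ 2 * (r c / 2) * (‖f x‖ ^ 2 * H x ^ k)
      = (r c / 2 * H x ^ k) * (Real.pi * η ^ 2 * ‖f x‖ ^ 2) := by ring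
    _ ≤ (r c / 2 * H x ^ k) * ∫ y in ball x η, ‖f y‖ ^ 2 := by gcongr
    _ ≤ _ := m3.trans (mul_le_mul_of_nonneg_left m4 (Real.exp_pos _).le)

lemma pn_frame {h : Bool → S2 → ℝ} (H : IsPositiveMetric LL h) {k : ℕ} {s : Bool → S2 → ℂ}
    (hs : IsHolSection LL k s) {i : Bool} {x : S2} (hx : x ∈ LL.baseSet i) :
    pn h k s x = ‖s i x‖ ^ 2 * h i x ^ k := by
  have hm : x ∈ LL.baseSet i ∩ LL.baseSet (LL.indexAt x) := ⟨hx, LL.mem_baseSet_at x⟩
  unfold pn
  rw [hs.compat _ _ x hm, H.compat _ _ x hm, norm_mul, norm_pow]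
  ring

lemma target (p : S2) : (chartAt ℂ p).target = univ := by
  induction p using OnePoint.rec with
  | infty => rfl
  | coe z => rfl

lemma source (p : S2) : (chartAt ℂ p).source = LL.baseSet (LL.indexAt p) := by
  induction p using OnePoint.rec with
  | infty => rfl
  | coe z => rfl

lemma transfer {μ : Measure S2} {e : ℂ → S2} (he : MeasurableEmbedding e) {r : ℂ → ℝ}
    (hr : Continuous r) (r0 : ∀ y, 0 < r y)
    (hμ : ∀ A : Set ℂ, MeasurableSet A → μ (e '' A) = ∫⁻ y in A, ENNReal.ofReal (r y))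
    (G : S2 → ℝ) {A : Set ℂ} (hA : MeasurableSet A) :
    ∫ x in e '' A, G x ∂μ = ∫ y in A, r y * G (e y) := by
  have e1 : μ.comap e = volume.withDensity fun y => ENNReal.ofReal (r y) := by
    ext B hB
    rw [he.comap_apply, hμ B hB, withDensity_apply _ hB]
  have e2 : μ.restrict (e '' A) = ((μ.comap e).map e).restrict (e '' A) := by
    rw [he.map_comap, Measure.restrict_restrict (he.measurableSet_image.2 hA),
      inter_eq_left.2 (image_subset_range _ _)]
  rw [e2, he.setIntegral_map, preimage_image_eq _ he.injective, e1,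
    setIntegral_withDensity_eq_setIntegral_toReal_smul hr.measurable.ennreal_ofReal
      (by simp) _ hA]
  refine integral_congr_ae (Eventually.of_forall fun y => ?_)
  simp only [ENNReal.toReal_ofReal (r0 y).le, smul_eq_mul]

end SmX

open SmX

theorem sm : SM := by
  intro h μ φ ρ H p V hV ε hε
  obtain ⟨r, hr, r0, hμ⟩ := H.vol p
  rw [target] at hr r0 hμ
  have hsrc : (chartAt ℂ p).symm.source = univ := target p
  have ho : IsOpenEmbedding (chartAt ℂ p).symm :=
    (chartAt ℂ p).symm.isOpenEmbedding hsrc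
  have hmem : ∀ y, (chartAt ℂ p).symm y ∈ LL.baseSet (LL.indexAt p) := fun y =>
    source p ▸ (chartAt ℂ p).map_target (by rw [target]; trivial)
  have hmd : ∀ y, MDifferentiableAt 𝓘(ℂ, ℂ) 𝓘(ℂ, ℂ) (chartAt ℂ p).symm y := fun y =>
    mdifferentiableAt_atlas_symm (chart_mem_atlas ℂ p) (by rw [target]; trivial)
  have hp : (chartAt ℂ p).symm (chartAt ℂ p p) = p := (chartAt ℂ p).left_inv (mem_chart_source ℂ p)
  generalize (chartAt ℂ p p) = c at hp
  generalize ((chartAt ℂ p).symm : ℂ → S2) = e at hμ ho hmem hmd hp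
  generalize LL.indexAt p = i at hmem
  have hrc : Continuous r := continuousOn_univ.1 hr.continuousOn
  obtain ⟨η, C, hη, hC, hW, key⟩ := plane (H := fun y => h i (e y)) (r := r) (c := c)
    (W := e ⁻¹' V) ((H.met.smooth i).continuousOn.comp_continuous ho.continuous hmem) hrc
    (fun y => H.met.pos i _ (hmem y)) (fun y => r0 y trivial)
    (ho.continuous.continuousAt.preimage_mem_nhds (hp ▸ hV)) hε
  refine ⟨e '' ball c η, hp ▸ ho.image_mem_nhds.2 (ball_mem_nhds c hη), C, hC, ?_⟩
  rintro k s hs _ ⟨x, hx, rfl⟩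
  have hf : Differentiable ℂ fun y => s i (e y) := fun y =>
    mdifferentiableAt_iff_differentiableAt.1 ((((hs.hol i).mdifferentiableAt
      ((LL.isOpen_baseSet i).mem_nhds (hmem y)))).comp y (hmd y))
  rw [pn_frame H.met hs (hmem x)]
  refine (key k _ hf x hx).trans (mul_le_mul_of_nonneg_left ?_ (by positivity))
  have hA : MeasurableSet (e '' ball c (2 * η)) :=
    ho.measurableEmbedding.measurableSet_image.2 measurableSet_ball
  have t1 := transfer ho.measurableEmbedding hrc (fun y => r0 y trivial)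
    (fun A hA => hμ A hA (subset_univ _)) (pn h k s) (A := ball c (2 * η)) measurableSet_ball
  simp only [pn_frame H.met hs (hmem _)] at t1
  rw [← t1, ← integral_indicator hA, H.integral]
  have t2 : ∀ z : ℂ, ρ z • (e '' ball c (2 * η)).indicator (pn h k s) (z : S2) =
      ((fun z : ℂ => (z : S2)) ⁻¹' (e '' ball c (2 * η))).indicator
        (fun y => ‖s false y‖ ^ 2 * wt φ ρ k y) z := fun z => by
    by_cases hz : (z : S2) ∈ e '' ball c (2 * η)
    · rw [indicator_of_mem hz, indicator_of_mem (by exact hz)]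
      simp only [pn, LL_indexAt_coe, H.hφ, wt, smul_eq_mul]
      rw [← Real.exp_nat_mul, mul_neg]
      ring
    · rw [indicator_of_notMem hz, indicator_of_notMem (by exact hz), smul_zero]
  simp only [t2]
  rw [integral_indicator (measurableEmbedding_coe.measurable hA)]
  refine setIntegral_mono_set (H.pd.integrable_sq (isPoly_section hs).gr).integrableOn
    (Eventually.of_forall fun y => mul_nonneg (sq_nonneg _) (H.pd.wt_pos k y).le)
    (LE.le.eventuallyLE (preimage_mono (image_subset_iff.2 hW)))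

end Pool.Agent.MP_6c43ae_an.Ct
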