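import Pool.Agent.MP_6c43ae_an.ct.Spec

/-! Project CANTOR, row SP: separation of two points by a smooth cut. -/

set_option autoImplicit false

open MeasureTheory Set Filter Topology Metric
open scoped ComplexConjugate ContDiff Manifold

namespace Pool.Agent.MP_6c43ae_an.Ct

namespace SpX

theorem sep {X : Type} [TopologicalSpace X] [T2Space X] [CompactSpace X] (Z : Set X) (z w : X)
    (hZ : IsClosed Z) (hzw : z ≠ w) (h : ∀ C ⊆ Z, IsPreconnected C → z ∈ C → w ∉ C) :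
    ∃ A B : Set X, IsClosed A ∧ IsClosed B ∧ Disjoint A B ∧ Z ⊆ A ∪ B ∧ z ∈ A ∧ w ∈ B := by
  by_cases hz : z ∈ Z
  swap
  · refine ⟨{z}, Z ∪ {w}, isClosed_singleton, hZ.union isClosed_singleton, ?_,
      fun x hx => Or.inr (Or.inl hx), rfl, Or.inr rfl⟩
    rw [Set.disjoint_singleton_left]
    rintro (h1 | h1)
    exacts [hz h1, hzw h1]
  by_cases hw : w ∈ Z
  swap
  · refine ⟨Z ∪ {z}, {w}, hZ.union isClosed_singleton, isClosed_singleton, ?_,
      fun x hx => Or.inl (Or.inl hx), Or.inr rfl, rfl⟩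
    rw [Set.disjoint_singleton_right]
    rintro (h1 | h1)
    exacts [hw h1, hzw h1.symm]
  have : CompactSpace Z := isCompact_iff_compactSpace.mp hZ.isCompact
  have h1 : (⟨w, hw⟩ : Z) ∉ connectedComponent (⟨z, hz⟩ : Z) := fun h2 =>
    h (Subtype.val '' connectedComponent (⟨z, hz⟩ : Z)) (Subtype.coe_image_subset _ _)
      (isPreconnected_connectedComponent.image _ continuous_subtype_val.continuousOn)
      ⟨_, mem_connectedComponent, rfl⟩ ⟨_, h2, rfl⟩
  rw [connectedComponent_eq_iInter_isClopen, mem_iInter, not_forall] at h1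
  obtain ⟨⟨U, hU, hzU⟩, hwU⟩ := h1
  have hc := hZ.isClosedEmbedding_subtypeVal.isClosedMap
  refine ⟨Subtype.val '' U, Subtype.val '' Uᶜ, hc _ hU.isClosed, hc _ hU.compl.isClosed,
    (Set.disjoint_image_iff Subtype.val_injective).mpr disjoint_compl_right, fun x hx => ?_,
    ⟨_, hzU, rfl⟩, ⟨_, hwU, rfl⟩⟩
  by_cases hx' : (⟨x, hx⟩ : Z) ∈ U
  exacts [Or.inl ⟨_, hx', rfl⟩, Or.inr ⟨_, hx', rfl⟩]

theorem cut (Z A B : Set S2) (z w : S2) (hA : IsClosed A) (hB : IsClosed B) (hd : Disjoint A B)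
    (hZ : Z ⊆ A ∪ B) (hz : z ∈ A) (hw : w ∈ B) (hi : OnePoint.infty ∉ A) : Cut Z z w := by
  obtain ⟨hA1, hA2⟩ := (OnePoint.isClosed_iff_of_notMem hi).mp hA
  obtain ⟨R, hR⟩ := hA2.isBounded.subset_ball (0 : ℂ)
  have hs : IsClosed ((fun x : ℂ => (x : S2)) ⁻¹' B ∪ (ball (0 : ℂ) R)ᶜ) :=
    (hB.preimage OnePoint.continuous_coe).union isOpen_ball.isClosed_compl
  obtain ⟨f, h0, h1, h01⟩ := exists_contMDiffMap_zero_one_nhds_of_isClosed (n := ⊤) 𝓘(ℝ, ℂ) hs hA1
    (Set.disjoint_left.mpr fun x hx hx' =>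
      hx.elim (fun h => Set.disjoint_left.mp hd hx' h) fun h => h (hR hx'))
  have hf : ContDiff ℝ ∞ f := f.contMDiff.contDiff
  have hc : HasCompactSupport f := HasCompactSupport.intro (isCompact_closedBall (0 : ℂ) R)
    fun x hx => (h0.self_of_nhdsSet x (Or.inr fun h => hx (ball_subset_closedBall h)))
  have e0 : ∀ x : ℂ, (x : S2) ∈ B → f =ᶠ[𝓝 x] fun _ => 0 := fun x hx =>
    (eventually_nhdsSet_iff_forall.mp h0) x (Or.inl hx)
  have e1 : ∀ x : ℂ, (x : S2) ∈ A → f =ᶠ[𝓝 x] fun _ => 1 := fun x hx =>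
    (eventually_nhdsSet_iff_forall.mp h1) x hx
  have ed : ∀ (x : ℂ) (c : ℝ), (f =ᶠ[𝓝 x] fun _ => c) → x ∉ tsupport (fderiv ℝ f) := fun x c h => by
    rw [notMem_tsupport_iff_eventuallyEq]
    filter_upwards [h.fderiv (𝕜 := ℝ)] with y hy
    simpa using hy
  have hO : IsOpen ((fun x : ℂ => (x : S2)) '' tsupport f)ᶜ :=
    (IsCompact.image hc OnePoint.continuous_coe).isClosed.isOpen_compl
  have hwO : w ∈ ((fun x : ℂ => (x : S2)) '' tsupport f)ᶜ := by
    rintro ⟨x, hx, rfl⟩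
    exact (notMem_tsupport_iff_eventuallyEq.mpr (e0 x hw)) hx
  obtain ⟨V, hV, hVc, hVO⟩ := exists_mem_nhds_isClosed_subset (hO.mem_nhds hwO)
  induction z using OnePoint.rec with
  | infty => exact absurd hz hi
  | coe z =>
    refine ⟨f, tsupport (fderiv ℝ f), (fun x : ℂ => (x : S2)) '' {x | f x = 1}, V, hf, hc,
      fun x => (h01 x).1, hc.fderiv ℝ, fun x hx => image_eq_zero_of_notMem_tsupport hx,
      fun y hy => ⟨fun h => (hZ h).elim (fun h => ed y 1 (e1 y h) hy) fun h => ed y 0 (e0 y h) hy,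
        fun h => hVO h ⟨y, tsupport_fderiv_subset ℝ hy, rfl⟩⟩,
      OnePoint.isOpenEmbedding_coe.image_mem_nhds.mpr (e1 z hz), ?_, hVc, hV,
      fun x hx => image_eq_zero_of_notMem_tsupport fun h => hVO hx ⟨x, h, rfl⟩⟩
    rintro x ⟨y, hy, e⟩
    rw [← OnePoint.coe_injective e]
    exact hy

end SpX

theorem sp : SP := by
  intro Z z w hZ hzw h
  obtain ⟨A, B, hA, hB, hd, hs, hz, hw⟩ := SpX.sep Z z w hZ hzw h
  by_cases hi : OnePoint.infty ∈ A
  · exact Or.inr (SpX.cut Z B A w z hB hA hd.symm (by rwa [union_comm]) hw hz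
      (Set.disjoint_left.mp hd hi))
  · exact Or.inl (SpX.cut Z A B z w hA hB hd hs hz hw hi)

end Pool.Agent.MP_6c43ae_an.Ct
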