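import Pool.Agent.MP_6c43ae_an.ct.Ap
import Pool.Agent.MP_6c43ae_an.ct.Cau
import Pool.Agent.MP_6c43ae_an.ct.Ho
import Pool.Agent.MP_6c43ae_an.ct.Cx
import Pool.Agent.MP_6c43ae_an.ct.Rc
import Pool.Agent.MP_6c43ae_an.ct.Lc
import Pool.Agent.MP_6c43ae_an.ct.Lp
import Pool.Agent.MP_6c43ae_an.ct.Sd
import Pool.Agent.MP_6c43ae_an.ct.Sm
import Pool.Agent.MP_6c43ae_an.ct.Sp
import Pool.Agent.MP_6c43ae_an.ct.Kl2
import Pool.Agent.MP_6c43ae_an.ct.Fl
import Pool.Agent.MP_6c43ae_an.ct.Gr
import Pool.Agent.MP_6c43ae_an.ct.Mt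
import Pool.Agent.MP_6c43ae_an.ct.Mn
import Pool.Agent.MP_6c43ae_an.ct.Fin

/-! All the statements of the project, without hypotheses. -/

set_option autoImplicit false

open MeasureTheory Set Filter Topology Metric

namespace Pool.Agent.MP_6c43ae_an.Ct

theorem mn' : MN := mn (lp (lc cx) rc) sm (kb2 sm) (kl2 sm (ho ap ct))

theorem onb {h : Bool → S2 → ℝ} {μ : Measure S2} (hh : IsPositiveMetric LL h)
    (hμ : IsSmoothVolume μ) (k : ℕ) :
    ∃ (N : ℕ) (s : Fin N → Bool → S2 → ℂ), IsOrthonormalBasis LL h μ k N s := by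
  obtain ⟨φ, ρ, H, -⟩ := sd h μ hh hμ
  exact on h μ φ ρ H k

/-- closed totally disconnected sets of almost full measure -/
theorem exists_fat {μ : Measure S2} (hμ : IsSmoothVolume μ) {ε : ENNReal} (hε : 0 < ε) :
    ∃ Z : Set S2, IsClosed Z ∧ IsTotallyDisconnected Z ∧ μ Zᶜ < ε := by
  obtain ⟨φ, ρ, H, -⟩ := sd (hh 0) μ (isPositiveMetric_hh le_rfl (by norm_num)) hμ
  set N : Set ℂ := Complex.re ⁻¹' range ((↑) : ℚ → ℝ) ∪ Complex.im ⁻¹' range ((↑) : ℚ → ℝ) with hN
  have hq : volume (range ((↑) : ℚ → ℝ)) = 0 := (countable_range _).measure_zero _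
  have hN0 : volume N = 0 := by
    refine measure_union_null ?_ ?_
    · exact ((Measure.quasiMeasurePreserving_fst).comp
        Complex.volume_preserving_equiv_real_prod.quasiMeasurePreserving).preimage_null hq
    · exact ((Measure.quasiMeasurePreserving_snd).comp
        Complex.volume_preserving_equiv_real_prod.quasiMeasurePreserving).preimage_null hq
  have hfin : IsFiniteMeasure (volume.withDensity fun x => ENNReal.ofReal (ρ x)) := by
    refine isFiniteMeasure_withDensity_ofReal ?_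
    have := H.pd.integrable_sq (k := 0) (a := fun _ => 1) ⟨continuous_const, 1, fun x => by simp⟩
    simpa [wt] using this.2
  have h0 : (volume.withDensity fun x => ENNReal.ofReal (ρ x)) N < ε := by
    rw [withDensity_absolutelyContinuous _ _ hN0]; exact hε
  obtain ⟨U, hNU, hU, hUε⟩ := N.exists_isOpen_lt_of_lt _ h0
  have hirr : IsTotallyDisconnected (range ((↑) : ℚ → ℝ))ᶜ := by
    intro t ht hc a ha b hb
    by_contra hne
    rcases lt_or_gt_of_ne hne with h | h
    · obtain ⟨q, q1, q2⟩ := exists_rat_btwn h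
      exact ht (hc.Icc_subset ha hb ⟨q1.le, q2.le⟩) ⟨q, rfl⟩
    · obtain ⟨q, q1, q2⟩ := exists_rat_btwn h
      exact ht (hc.Icc_subset hb ha ⟨q1.le, q2.le⟩) ⟨q, rfl⟩
  have htd : IsTotallyDisconnected Uᶜ := by
    intro t ht hc a ha b hb
    have h1 := hirr (Complex.re '' t) (by
      rintro _ ⟨x, hx, rfl⟩ h
      exact ht hx (hNU (Or.inl h))) (hc.image _ Complex.continuous_re.continuousOn)
    have h2 := hirr (Complex.im '' t) (by
      rintro _ ⟨x, hx, rfl⟩ h
      exact ht hx (hNU (Or.inr h))) (hc.image _ Complex.continuous_im.continuousOn)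
    exact Complex.ext (h1 ⟨a, ha, rfl⟩ ⟨b, hb, rfl⟩) (h2 ⟨a, ha, rfl⟩ ⟨b, hb, rfl⟩)
  have hlim : Tendsto (fun n : ℕ => (volume.withDensity fun x => ENNReal.ofReal (ρ x))
      (U ∪ (closedBall (0 : ℂ) n)ᶜ)) atTop
      (𝓝 ((volume.withDensity fun x => ENNReal.ofReal (ρ x))
        (⋂ n : ℕ, U ∪ (closedBall (0 : ℂ) n)ᶜ))) :=
    tendsto_measure_iInter_atTop
      (fun n => (hU.measurableSet.union measurableSet_closedBall.compl).nullMeasurableSet)
      (fun m n hmn => union_subset_union_right _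
        (compl_subset_compl.2 (closedBall_subset_closedBall (Nat.cast_le.2 hmn))))
      ⟨0, measure_ne_top _ _⟩
  have hint : (⋂ n : ℕ, U ∪ (closedBall (0 : ℂ) n)ᶜ) = U := by
    rw [← union_iInter, ← compl_iUnion, iUnion_closedBall_nat, compl_univ, union_empty]
  rw [hint] at hlim
  obtain ⟨n, hn⟩ := (hlim.eventually (gt_mem_nhds hUε)).exists
  have hK : IsCompact (Uᶜ ∩ closedBall (0 : ℂ) n) :=
    (isCompact_closedBall 0 n).inter_left hU.isClosed_compl
  refine ⟨(fun z : ℂ => (z : S2)) '' (Uᶜ ∩ closedBall (0 : ℂ) n),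
    (hK.image OnePoint.continuous_coe).isClosed, ?_, ?_⟩
  · exact OnePoint.isOpenEmbedding_coe.isEmbedding.isTotallyDisconnected_image.2
      fun t ht => htd t (ht.trans inter_subset_left)
  · rw [H.hμ, measurableEmbedding_coe.map_apply, preimage_compl,
      preimage_image_eq _ OnePoint.coe_injective, compl_inter, compl_compl]
    exact hn

end Pool.Agent.MP_6c43ae_an.Ct
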