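import Pool.Agent.MP_6c43ae_an.ct.Spec

set_option autoImplicit false

open Complex MeasureTheory ComplexConjugate

namespace Pool.Agent.MP_6c43ae_an.Ct

namespace ApX

lemma contDiff_dbar {f : ℂ → ℂ} (hf : ContDiff ℝ 2 f) : ContDiff ℝ 1 (dbar f) :=
  contDiff_iff_contDiffAt.2 fun _ => contDiffAt_dbar hf.contDiffAt (by norm_num)

lemma contDiff_dz {f : ℂ → ℂ} (hf : ContDiff ℝ 2 f) : ContDiff ℝ 1 (dz f) :=
  contDiff_iff_contDiffAt.2 fun _ => contDiffAt_dz hf.contDiffAt (by norm_num)

lemma contDiff_conj {f : ℂ → ℂ} (hf : ContDiff ℝ 1 f) : ContDiff ℝ 1 fun w => conj (f w) :=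
  conjCLE.contDiff.comp hf

end ApX

open ApX

theorem ap : AP := by
  intro φ W hφ hW hc
  set P : ℂ → ℂ := fun w => (φ w : ℂ) with hPdef
  have hP : ContDiff ℝ 2 P := ofRealCLM.contDiff.comp hφ
  have hP1 : ContDiff ℝ 1 P := hP.of_le (by norm_num)
  have hW1 : ContDiff ℝ 1 W := hW.of_le (by norm_num)
  set E : ℂ → ℂ := fun w => Complex.exp (P w) with hEdef
  have hE : ContDiff ℝ 1 E := (Complex.contDiff_exp (𝕜 := ℝ)).comp hP1
  have hp := contDiff_dz hP
  have hb := contDiff_dbar hW
  have hz := contDiff_dz hW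
  have hcW := contDiff_conj hW1
  set D : ℂ → ℂ := fun w => dz W w + dz P w * W w with hDdef
  have hD : ContDiff ℝ 1 D := hz.add (hp.mul hW1)
  have hcD : HasCompactSupport D :=
    (hasCompactSupport_dz hc).add (HasCompactSupport.mul_left hc)
  have hcb : HasCompactSupport (dbar W) := hasCompactSupport_dbar hc
  have d : ∀ {f : ℂ → ℂ}, ContDiff ℝ 1 f → ∀ x, DifferentiableAt ℝ f x := fun h x =>
    h.differentiable one_ne_zero x
  have hzE : ∀ x, dz E x = E x * dz P x := fun x => by
    rw [hEdef, dz_hol_comp (g := Complex.exp) Complex.differentiableAt_exp (d hP1 x),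
      Complex.deriv_exp]
  have hbP : ∀ x, dbar P x = conj (dz P x) := fun x => by
    rw [← dbar_conj]
    congr 1
    funext w
    simp [hPdef]
  have hbE : ∀ x, dbar E x = E x * conj (dz P x) := fun x => by
    rw [hEdef, dbar_hol_comp (g := Complex.exp) Complex.differentiableAt_exp (d hP1 x),
      Complex.deriv_exp, hbP]
  have hbD : ∀ x, dbar D x = Laplacian.laplacian W x / 4
      + ((Laplacian.laplacian φ x : ℝ) / 4 * W x + dz P x * dbar W x) := fun x => by
    rw [hDdef, dbar_add (d hz x) (d (hp.mul hW1) x), dbar_mul (d hp x) (d hW1 x),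
      dbar_dz hW.contDiffAt, dbar_dz hP.contDiffAt, hPdef, laplacian_ofReal hφ.contDiffAt]
  have h1 : ContDiff ℝ 1 fun w => dbar W w * (conj (W w) * E w) := hb.mul (hcW.mul hE)
  have h2 : ContDiff ℝ 1 fun w => D w * (conj (W w) * E w) := hD.mul (hcW.mul hE)
  have c1 : HasCompactSupport fun w => dbar W w * (conj (W w) * E w) := hcb.mul_right
  have c2 : HasCompactSupport fun w => D w * (conj (W w) * E w) := hcD.mul_right
  have hEr : ∀ x, E x = (Real.exp (φ x) : ℝ) := fun x => by simp [hEdef, hPdef]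
  have key : ∀ x, dz (fun w => dbar W w * (conj (W w) * E w)) x
      - dbar (fun w => D w * (conj (W w) * E w)) x
      = ((‖dbar W x‖ ^ 2 * Real.exp (φ x)
        - Laplacian.laplacian φ x / 4 * ‖W x‖ ^ 2 * Real.exp (φ x)
        - ‖D x‖ ^ 2 * Real.exp (φ x) : ℝ) : ℂ) := fun x => by
    rw [dz_mul (d hb x) (d (hcW.mul hE) x), dz_mul (d hcW x) (d hE x),
      dbar_mul (d hD x) (d (hcW.mul hE) x), dbar_mul (d hcW x) (d hE x),
      dz_dbar hW.contDiffAt, dz_conj, dbar_conj, hzE, hbE, hbD]
    have e1 := Complex.mul_conj' (dbar W x)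
    have e2 := Complex.mul_conj' (W x)
    have e3 := Complex.mul_conj' (D x)
    have e4 : conj (D x) = conj (dz W x) + conj (dz P x) * conj (W x) := by simp [hDdef]
    have e5 := hEr x
    push_cast at e5 ⊢
    rw [← e1, ← e2, ← e3, e4, ← e5]
    ring
  have i1 : Integrable (dz fun w => dbar W w * (conj (W w) * E w)) :=
    (continuous_dz h1).integrable_of_hasCompactSupport (hasCompactSupport_dz c1)
  have i2 := integrable_dbar h2 c2
  have z0 : ∫ x, (‖dbar W x‖ ^ 2 * Real.exp (φ x)
        - Laplacian.laplacian φ x / 4 * ‖W x‖ ^ 2 * Real.exp (φ x)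
        - ‖D x‖ ^ 2 * Real.exp (φ x) : ℝ) = 0 := by
    have := integral_sub i1 i2
    rw [integral_dz_eq_zero h1 c1, integral_dbar_eq_zero h2 c2] at this
    simp only [key] at this
    rw [integral_complex_ofReal] at this
    exact_mod_cast this.trans (sub_self _)
  have hce : Continuous fun x => Real.exp (φ x) := Real.continuous_exp.comp hφ.continuous
  have sq : ∀ {f : ℂ → ℂ}, HasCompactSupport f → HasCompactSupport fun x => ‖f x‖ ^ 2 :=
    fun h => h.comp_left (g := fun y : ℂ => ‖y‖ ^ 2) (by simp)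
  have j1 : Integrable fun x => ‖dbar W x‖ ^ 2 * Real.exp (φ x) :=
    ((hb.continuous.norm.pow 2).mul hce).integrable_of_hasCompactSupport (sq hcb).mul_right
  have j3 : Integrable fun x => ‖D x‖ ^ 2 * Real.exp (φ x) :=
    ((hD.continuous.norm.pow 2).mul hce).integrable_of_hasCompactSupport (sq hcD).mul_right
  have hl : Continuous fun x => Laplacian.laplacian φ x / 4 := by
    have : (fun x => Laplacian.laplacian φ x / 4) = fun x => (dbar (dz P) x).re := by
      funext x
      rw [dbar_dz hP.contDiffAt, hPdef, laplacian_ofReal hφ.contDiffAt]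
      simp
    rw [this]
    exact Complex.continuous_re.comp (continuous_dbar hp)
  have j2 : Integrable fun x => Laplacian.laplacian φ x / 4 * ‖W x‖ ^ 2 * Real.exp (φ x) :=
    ((hl.mul (hW.continuous.norm.pow 2)).mul hce).integrable_of_hasCompactSupport
      (HasCompactSupport.mul_left (sq hc)).mul_right
  have j4 : Integrable fun x => ‖dbar W x‖ ^ 2 * Real.exp (φ x)
      - Laplacian.laplacian φ x / 4 * ‖W x‖ ^ 2 * Real.exp (φ x) := j1.sub j2
  rw [integral_sub j4 j3, integral_sub j1 j2] at z0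
  have : 0 ≤ ∫ x, ‖D x‖ ^ 2 * Real.exp (φ x) := integral_nonneg fun x => by positivity
  linarith

end Pool.Agent.MP_6c43ae_an.Ct
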