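import Pool.Agent.MP_6c43ae_an.ct.Spec

/-! Project CANTOR: the metric built from a smooth function on the sphere. -/

set_option autoImplicit false

open MeasureTheory Set Filter Topology Metric
open scoped ComplexConjugate ContDiff Manifold

namespace Pool.Agent.MP_6c43ae_an.Ct

namespace MtX

/-- the potential in one chart -/
noncomputable def P (ε : ℝ) (χ : ℂ → ℝ) (y : ℂ) : ℝ := Real.log (1 + ‖y‖ ^ 2) + ε * χ y

lemma contDiff_log : ContDiff ℝ ∞ (fun y : ℂ => Real.log (1 + ‖y‖ ^ 2)) :=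
  (contDiff_const.add (contDiff_norm_sq ℝ)).log fun z => by positivity

lemma contDiff_P (ε : ℝ) {χ : ℂ → ℝ} (hχ : ContDiff ℝ ∞ χ) : ContDiff ℝ ∞ (P ε χ) :=
  contDiff_log.add (contDiff_const.mul hχ)

lemma two_le : (2 : WithTop ℕ∞) ≤ ∞ := by
  exact WithTop.coe_le_coe.2 (le_top : (2 : ℕ∞) ≤ ⊤)

lemma lap_inv {f : ℂ → ℝ} (hf : ContDiff ℝ 2 f) {z : ℂ} (hz : z ≠ 0) :
    Laplacian.laplacian (fun y : ℂ => f y⁻¹) z = Laplacian.laplacian f z⁻¹ / (‖z‖ ^ 2) ^ 2 := by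
  have hF : ContDiff ℝ 2 (fun w => (f w : ℂ)) := Complex.ofRealCLM.contDiff.comp hf
  have hinv : ∀ y : ℂ, y ≠ 0 → DifferentiableAt ℂ (fun w : ℂ => w⁻¹) y := fun y hy =>
    differentiableAt_inv hy
  have hg : ContDiffAt ℝ 2 (fun y : ℂ => f y⁻¹) z :=
    hf.contDiffAt.comp z (contDiffAt_inv ℝ hz)
  have hG : ContDiffAt ℝ 2 (fun y : ℂ => (f y⁻¹ : ℂ)) z :=
    Complex.ofRealCLM.contDiff.contDiffAt.comp z hg
  have e : dbar (fun y : ℂ => (f y⁻¹ : ℂ)) =ᶠ[𝓝 z]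
      fun y => dbar (fun w => (f w : ℂ)) y⁻¹ * conj (-(y ^ 2)⁻¹) := by
    filter_upwards [isOpen_ne.mem_nhds hz] with y hy
    have := dbar_comp_hol (g := fun w => (f w : ℂ)) (f := fun w : ℂ => w⁻¹) (z := y)
      (hF.differentiable (by norm_num) _) (hinv y hy)
    rw [this, deriv_inv]
  have hD : DifferentiableAt ℝ (dbar (fun w => (f w : ℂ))) z⁻¹ :=
    (contDiffAt_dbar hF.contDiffAt (m := 1) le_rfl).differentiableAt one_ne_zero
  have hq : DifferentiableAt ℂ (fun y : ℂ => -(y ^ 2)⁻¹) z :=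
    ((differentiableAt_id.pow 2).inv (pow_ne_zero 2 hz)).neg
  have hc : DifferentiableAt ℝ (fun y : ℂ => conj (-(y ^ 2)⁻¹)) z :=
    Complex.conjCLE.differentiableAt.comp z (hq.restrictScalars ℝ)
  have hA : DifferentiableAt ℝ (fun y : ℂ => dbar (fun w => (f w : ℂ)) y⁻¹) z :=
    hD.comp z ((hinv z hz).restrictScalars ℝ)
  have h1 := dz_dbar hG
  rw [dz_congr e, dz_mul hA hc, dz_conj, dbar_hol hq,
    dz_comp_hol (g := dbar (fun w => (f w : ℂ))) (f := fun w : ℂ => w⁻¹) hD (hinv z hz), deriv_inv,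
    dz_dbar hF.contDiffAt, laplacian_ofReal hf.contDiffAt, laplacian_ofReal hg] at h1
  have h2 : (-(z ^ 2)⁻¹) * conj (-(z ^ 2)⁻¹) = ((((‖z‖ ^ 2) ^ 2)⁻¹ : ℝ) : ℂ) := by
    rw [Complex.mul_conj, Complex.normSq_eq_norm_sq]
    simp
  rw [mul_assoc, h2] at h1
  apply Complex.ofReal_injective
  rw [div_eq_mul_inv]
  push_cast at h1 ⊢
  simp only [map_zero, mul_zero, add_zero] at h1
  linear_combination (-4 : ℂ) * h1

lemma lap_log (z : ℂ) :
    Laplacian.laplacian (fun y : ℂ => Real.log (1 + ‖y‖ ^ 2)) z = 4 / (1 + ‖z‖ ^ 2) ^ 2 := by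
  have ht : 0 ≤ ‖z‖ ^ 2 := by positivity
  have := laplacian_radial (z := z) (f := fun t => Real.log (1 + t) + 0 * Real.exp (-t))
    (f1 := fun t => 1 / (1 + t) - 0 * Real.exp (-t))
    ((lt_mem_nhds (show -1 < ‖z‖ ^ 2 by linarith)).mono fun s hs => hasDerivAt_f0 0 hs)
    (hasDerivAt_f0' 0 (by linarith))
  simp only [zero_mul, add_zero, sub_zero] at this
  rw [this]
  field_simp
  ring

lemma lap_log0 {z : ℂ} (hz : z ≠ 0) :
    Laplacian.laplacian (fun y : ℂ => Real.log (‖y‖ ^ 2)) z = 0 := by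
  have ht : 0 < ‖z‖ ^ 2 := by positivity
  have := laplacian_radial (z := z) (f := Real.log) (f1 := fun t => t⁻¹)
    ((lt_mem_nhds ht).mono fun s hs => Real.hasDerivAt_log hs.ne') (hasDerivAt_inv ht.ne')
  rw [this]
  field_simp
  ring

lemma lap_P (ε : ℝ) {χ : ℂ → ℝ} (hχ : ContDiff ℝ ∞ χ) (z : ℂ) :
    Laplacian.laplacian (P ε χ) z = 4 / (1 + ‖z‖ ^ 2) ^ 2 + ε * Laplacian.laplacian χ z := by
  have h2 : ContDiffAt ℝ 2 χ z := (hχ.of_le two_le).contDiffAt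
  have e : P ε χ = (fun y : ℂ => Real.log (1 + ‖y‖ ^ 2)) + ε • χ := rfl
  have h3 : ContDiffAt ℝ 2 (ε • χ) z := h2.const_smul ε
  rw [e, ((contDiff_log.of_le two_le).contDiffAt).laplacian_add h3, lap_log,
    InnerProductSpace.laplacian_smul ε h2, smul_eq_mul]

lemma continuous_lap {χ : ℂ → ℝ} (hχ : ContDiff ℝ ∞ χ) : Continuous (Laplacian.laplacian χ) := by
  rw [InnerProductSpace.laplacian_eq_iteratedFDeriv_complexPlane]
  have := hχ.continuous_iteratedFDeriv (m := 2) two_le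
  fun_prop

lemma exists_bound {χ : ℂ → ℝ} (hχ : ContDiff ℝ ∞ χ) :
    ∃ K : ℝ, 0 ≤ K ∧ ∀ z : ℂ, ‖z‖ ≤ 1 → |Laplacian.laplacian χ z| ≤ K := by
  obtain ⟨K, hK⟩ := (isCompact_closedBall (0 : ℂ) 1).exists_bound_of_continuousOn
    (continuous_lap hχ).continuousOn
  exact ⟨K, (norm_nonneg _).trans (hK 0 (by simp)), fun z hz => hK z (by simpa using hz)⟩

lemma lap_pos_ball {ε K : ℝ} {χ : ℂ → ℝ} (hχ : ContDiff ℝ ∞ χ) (hε : 0 < ε) (hK : ε * K < 1)
    {z : ℂ} (hz : ‖z‖ ≤ 1) (hb : |Laplacian.laplacian χ z| ≤ K) :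
    0 < Laplacian.laplacian (P ε χ) z := by
  rw [lap_P ε hχ]
  have h0 : ‖z‖ ^ 2 ≤ 1 := pow_le_one₀ (norm_nonneg _) hz
  have h1 : 1 ≤ 4 / (1 + ‖z‖ ^ 2) ^ 2 := by
    rw [le_div_iff₀ (by positivity)]
    nlinarith [sq_nonneg ‖z‖]
  nlinarith [(abs_le.1 hb).1]

lemma P_inv (ε : ℝ) {χ₀ χ₁ : ℂ → ℝ} (h : ∀ x : ℂ, x ≠ 0 → χ₁ x⁻¹ = χ₀ x) {y : ℂ} (hy : y ≠ 0) :
    P ε χ₁ y⁻¹ = P ε χ₀ y - Real.log (‖y‖ ^ 2) := by
  have ht : 0 < ‖y‖ ^ 2 := by positivity
  unfold P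
  rw [h y hy, norm_inv, inv_pow, show 1 + (‖y‖ ^ 2)⁻¹ = (1 + ‖y‖ ^ 2) / ‖y‖ ^ 2 by
    field_simp; ring, Real.log_div (by positivity) ht.ne']
  ring

lemma lap_P_inv (ε : ℝ) {χ₀ χ₁ : ℂ → ℝ} (h0 : ContDiff ℝ ∞ χ₀)
    (h : ∀ x : ℂ, x ≠ 0 → χ₁ x⁻¹ = χ₀ x) {z : ℂ} (hz : z ≠ 0) :
    Laplacian.laplacian (fun y : ℂ => P ε χ₁ y⁻¹) z = Laplacian.laplacian (P ε χ₀) z := by
  have e : (fun y : ℂ => P ε χ₁ y⁻¹) =ᶠ[𝓝 z] P ε χ₀ - fun y : ℂ => Real.log (‖y‖ ^ 2) := by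
    filter_upwards [isOpen_ne.mem_nhds hz] with y hy
    exact P_inv ε h hy
  have hl : ContDiffAt ℝ 2 (fun y : ℂ => Real.log (‖y‖ ^ 2)) z :=
    (contDiff_norm_sq ℝ).contDiffAt.log (by positivity)
  rw [(InnerProductSpace.laplacian_congr_nhds e).eq_of_nhds,
    ((contDiff_P ε h0).of_le two_le).contDiffAt.laplacian_sub hl, lap_log0 hz, sub_zero]

/-- the metric -/
noncomputable def H (ε : ℝ) (χ₀ χ₁ : ℂ → ℝ) : Bool → S2 → ℝ
  | false => fun x => Real.exp (-P ε χ₀ (c0 x))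
  | true => fun x => Real.exp (-P ε χ₁ (c1 x))

lemma H_true_coe (ε : ℝ) {χ₀ χ₁ : ℂ → ℝ} (h : ∀ x : ℂ, x ≠ 0 → χ₁ x⁻¹ = χ₀ x) {z : ℂ}
    (hz : z ≠ 0) : H ε χ₀ χ₁ true z = ‖z‖ ^ 2 * H ε χ₀ χ₁ false z := by
  have ht : 0 < ‖z‖ ^ 2 := by positivity
  simp only [H, c0_coe, c1_coe]
  rw [P_inv ε h hz, neg_sub, Real.exp_sub, Real.exp_log ht, Real.exp_neg, div_eq_mul_inv]

lemma analytic_sq (z : ℂ) : AnalyticAt ℝ (fun y : ℂ => ‖y‖ ^ 2) z := by
  have e : (fun y : ℂ => ‖y‖ ^ 2) = fun y : ℂ => Complex.reCLM y ^ 2 + Complex.imCLM y ^ 2 := by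
    funext y
    rw [Complex.sq_norm, Complex.normSq_apply]
    simp [sq]
  rw [e]
  exact ((Complex.reCLM.analyticAt z).pow 2).add ((Complex.imCLM.analyticAt z).pow 2)

lemma analytic_iff {ε : ℝ} (hε : ε ≠ 0) (χ : ℂ → ℝ) (z : ℂ) :
    AnalyticAt ℝ (fun y : ℂ => Real.exp (-P ε χ y)) z ↔ AnalyticAt ℝ χ z := by
  have hl : AnalyticAt ℝ (fun y : ℂ => Real.log (1 + ‖y‖ ^ 2)) z :=
    AnalyticAt.comp (g := Real.log) (f := fun y : ℂ => 1 + ‖y‖ ^ 2)
      (analyticAt_log (by positivity)) (analyticAt_const.add (analytic_sq z))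
  constructor
  · intro h
    have h3 : AnalyticAt ℝ (fun y : ℂ => Real.log (Real.exp (-P ε χ y))) z :=
      AnalyticAt.comp (g := Real.log) (f := fun y : ℂ => Real.exp (-P ε χ y))
        (analyticAt_log (Real.exp_pos _)) h
    have h5 := (analyticAt_const (v := -ε⁻¹)).mul (h3.add hl)
    refine h5.congr (Eventually.of_forall fun x => ?_)
    simp only [Pi.mul_apply, Pi.add_apply, Real.log_exp, P]
    field_simp
    ring
  · intro h
    exact (hl.add (analyticAt_const.mul h)).neg.rexp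

end MtX

open MtX in
theorem mt : MT := by
  intro χ₀ χ₁ h0 h1 h
  obtain ⟨K₀, hK₀, b0⟩ := exists_bound h0
  obtain ⟨K₁, hK₁, b1⟩ := exists_bound h1
  set ε : ℝ := 1 / (K₀ + K₁ + 1) with hεd
  have hε : 0 < ε := by positivity
  have e0 : ε * K₀ < 1 := by
    rw [hεd, div_mul_eq_mul_div, div_lt_one (by positivity)]; linarith
  have e1 : ε * K₁ < 1 := by
    rw [hεd, div_mul_eq_mul_div, div_lt_one (by positivity)]; linarith
  have pos0 : ∀ z : ℂ, 0 < Laplacian.laplacian (P ε χ₀) z := by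
    intro z
    rcases le_total ‖z‖ 1 with hz | hz
    · exact lap_pos_ball h0 hε e0 hz (b0 z hz)
    · have hz0 : z ≠ 0 := by
        rintro rfl
        rw [norm_zero] at hz
        linarith
      have hi : ‖z⁻¹‖ ≤ 1 := by
        rw [norm_inv]
        exact inv_le_one_of_one_le₀ hz
      rw [← lap_P_inv ε h0 h hz0, lap_inv ((contDiff_P ε h1).of_le two_le) hz0]
      exact div_pos (lap_pos_ball h1 hε e1 hi (b1 _ hi)) (by positivity)
  refine ⟨H ε χ₀ χ₁, ⟨fun i x _ => by cases i <;> exact Real.exp_pos _, ?_, ?_, ?_⟩, ?_, ?_⟩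
  · intro i x hx
    cases i
    · exact ((contDiff_P ε h0).neg.exp.contMDiff.contMDiffAt.comp x
        (contMDiffAt_c0 (𝕜 := ℝ) ∞ hx)).contMDiffWithinAt
    · exact ((contDiff_P ε h1).neg.exp.contMDiff.contMDiffAt.comp x
        (contMDiffAt_c1 (𝕜 := ℝ) ∞ hx)).contMDiffWithinAt
  · intro i j x hx
    rw [LL_coord]
    cases i <;> cases j
    · simp [tr]
    · obtain ⟨z, hz, rfl⟩ := mem_both hx.1 hx.2
      rw [H_true_coe ε h hz]
      have : ‖z‖ ≠ 0 := norm_ne_zero_iff.2 hz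
      simp only [tr, c1_coe, norm_inv]
      field_simp
    · obtain ⟨z, hz, rfl⟩ := mem_both hx.2 hx.1
      rw [H_true_coe ε h hz]
      simp only [tr, c0_coe]
    · simp [tr]
  · intro i x hx
    induction x using OnePoint.rec with
    | infty =>
      cases i
      · exact absurd rfl hx
      · simp only [chartAt_infty, chart1_apply, chart1_symm_apply, H, c1_i1, c1_infty,
          Real.log_exp, neg_neg]
        exact lap_pos_ball h1 hε e1 (by simp) (b1 0 (by simp))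
    | coe z =>
      cases i
      · simp only [chartAt_coe, chart0_apply, chart0_symm_apply, H, c0_coe, Real.log_exp, neg_neg]
        exact pos0 z
      · simp only [chartAt_coe, chart0_apply, chart0_symm_apply, H, c0_coe, c1_coe, Real.log_exp,
          neg_neg]
        rw [lap_P_inv ε h0 h (fun hz => hx (by rw [hz]))]
        exact pos0 z
  · intro z
    rw [← analytic_iff hε.ne' χ₀ z]
    constructor
    · intro hz
      exact hz false (OnePoint.coe_ne_infty z)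
    · intro hz i hi
      cases i
      · exact hz
      · have hz0 : z ≠ 0 := fun hz => hi (by rw [hz])
        refine ((analytic_sq z).mul hz).congr ?_
        filter_upwards [isOpen_ne.mem_nhds hz0] with y hy
        exact (H_true_coe ε h hy).symm
  · rw [← analytic_iff hε.ne' χ₁ 0]
    constructor
    · intro hz
      have := hz true (OnePoint.infty_ne_coe 0)
      simpa only [chartAt_infty, chart1_apply, chart1_symm_apply, H, c1_i1, c1_infty] using this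
    · intro hz i hi
      cases i
      · exact absurd rfl hi
      · simpa only [chartAt_infty, chart1_apply, chart1_symm_apply, H, c1_i1, c1_infty] using hz

end Pool.Agent.MP_6c43ae_an.Ct
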